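import Pool.Agent.H54.TF.Defs
import Pool.Agent.H75.INF.Ord

/-!
# [H54 TF CF] A letter outside of the support which is conjugated to a letter (45 min)

Library: H8/CDW (`mem_par_iff`, `letters_of_reduced`, `two_descents`, `b1_simple`, `d2_mem_alt`, ..), H75/INF (`simple_inj`).
Let `s_z w = w s_s`, `w ∈ par {z}ᶜ`. Induction on `ℓ(w)` for all `w` (with the statement for the given `z` and all `s`).
First `s = z`: `w` has a reduced word `ω` in `{z}ᶜ`; `z` is not a left descent of `w` (otherwise `z` would be the first letter of a reduced word of `w`,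
`letters_of_reduced`), so `z :: ω` is reduced, and it is a word of `w s_s`; if `s ≠ z` then `w s_s ∈ par {z}ᶜ`, a contradiction to `letters_of_reduced`.
So `s_z w = w s_z`, of length `ℓ(w) + 1`. If `w ≠ 1` let `i` be a left descent of `w`, `w = s_i w'`, `i ≠ z`. `z` and `i` are left descents of
`v = s_z w = w s_z` (`ℓ(s_i v) = ℓ(w' s_z) ≤ ℓ(w') + 1 = ℓ(w) < ℓ(v)`). `two_descents` (`M z i ≠ 0`): `v = π(braidWord z i) u₀` with lengths adding. The
first letter of one of the two braid words `z i z …`, `i z i …` (same element, both of length `M z i`) is `z`: `v = s_z (s_i s_z …) u₀`, so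
`w = (s_i s_z …) u₀` with `M z i - 1` letters, lengths adding. If `M z i ≥ 3` this word contains `z`, a contradiction to `letters_of_reduced` for `w`. `M z i = 1`
only if `z = i`. So `M z i = 2`, `s_z s_i = s_i s_z` and `s_z w' = w' s_z`: induction.
-/

set_option autoImplicit false

namespace Pool.Agent.H54.TF

open CoxeterSystem Pool.H8.CDW Pool.Agent.H52.PAG Pool.Agent.H75.INF

variable {B W : Type*} [Group W] {M : CoxeterMatrix B} (cs : CoxeterSystem M W)

private theorem cf_not_left {z : B} {w : W} (hw : w ∈ par cs ({z}ᶜ : Set B)) : ¬ cs.IsLeftDescent w z := by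
  intro h
  obtain ⟨ω, hω, e⟩ := cs.exists_isReduced (cs.simple z * w)
  have h1 := cs.isLeftDescent_iff.1 h
  have e2 : cs.wordProd (z :: ω) = w := by
    rw [wordProd_cons, ← e, simple_mul_simple_cancel_left]
  have h3 : cs.IsReduced (z :: ω) := by
    unfold CoxeterSystem.IsReduced
    rw [e2, List.length_cons, ← hω.eq, ← e]
    omega
  have h4 := letters_of_reduced cs (simple_inj cs) h3 (J := ({z}ᶜ : Set B)) (by rw [e2]; exact hw) z
    List.mem_cons_self
  exact h4 rfl

private theorem cf_alt (z i : B) (m : ℕ) (hm : 2 ≤ m) : z ∈ alternatingWord z i m ∧ z ∈ alternatingWord i z m := by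
  obtain ⟨l, rfl⟩ : ∃ l, m = l + 1 + 1 := ⟨m - 2, by omega⟩
  rw [alternatingWord_succ', alternatingWord_succ', alternatingWord_succ', alternatingWord_succ']
  by_cases h : Even l
  · have h1 : ¬ Even (l + 1) := fun h2 => (Nat.even_add_one.1 h2) h
    constructor
    · simp [h1]
    · simp [h]
  · have h1 : Even (l + 1) := Nat.even_add_one.2 h
    constructor
    · simp [h]
    · simp [h1]

private theorem cf_word (cs : CoxeterSystem M W) (hM : ∀ i j, M i j ≠ 0) (z i : B) : ∃ p : List B, p.length + 1 = M z i ∧
    cs.wordProd (z :: p) = cs.wordProd (braidWord M z i) ∧ (2 ≤ p.length → z ∈ p) := by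
  obtain ⟨m, hm⟩ := Nat.exists_eq_succ_of_ne_zero (hM z i)
  by_cases h : Even m
  · refine ⟨alternatingWord i z m, ?_, ?_, ?_⟩
    · rw [length_alternatingWord, hm]
    · rw [cs.wordProd_braidWord_eq z i]
      unfold braidWord
      rw [M.symmetric i z, hm, Nat.succ_eq_add_one, alternatingWord_succ', if_pos h]
    · intro h2
      rw [length_alternatingWord] at h2
      exact (cf_alt z i m h2).2
  · refine ⟨alternatingWord z i m, ?_, ?_, ?_⟩
    · rw [length_alternatingWord, hm]
    · unfold braidWord
      rw [hm, Nat.succ_eq_add_one, alternatingWord_succ', if_neg h]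
    · intro h2
      rw [length_alternatingWord] at h2
      exact (cf_alt z i m h2).1

private theorem cf_ind (cs : CoxeterSystem M W) (hM : ∀ i j, M i j ≠ 0) (z : B) (n : ℕ) : ∀ w : W, cs.length w = n → w ∈ par cs ({z}ᶜ : Set B) →
    cs.simple z * w = w * cs.simple z → w ∈ par cs {i | i ≠ z ∧ M z i = 2} := by
  induction n with
  | zero =>
    intro w hn _ _
    rw [cs.length_eq_zero_iff.1 hn]
    exact one_mem _
  | succ n ih =>
    intro w hn hw h
    have hw1 : w ≠ 1 := by
      rintro rfl
      rw [cs.length_one] at hn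
      omega
    obtain ⟨i, hi⟩ := cs.exists_leftDescent_of_ne_one hw1
    have hiz : i ≠ z := by
      rintro rfl
      exact cf_not_left cs hw hi
    have hl1 := cs.isLeftDescent_iff.1 hi
    have hl2 := cs.not_isLeftDescent_iff.1 (cf_not_left cs hw)
    -- the descents of `s_z w`
    have hd1 : cs.IsLeftDescent (cs.simple z * w) z := by
      unfold CoxeterSystem.IsLeftDescent
      rw [simple_mul_simple_cancel_left]
      omega
    have hd2 : cs.IsLeftDescent (cs.simple z * w) i := by
      unfold CoxeterSystem.IsLeftDescent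
      have e1 : cs.simple i * (cs.simple z * w) = (cs.simple i * w) * cs.simple z := by
        rw [h, mul_assoc]
      have h3 := cs.length_mul_le (cs.simple i * w) (cs.simple z)
      rw [cs.length_simple] at h3
      rw [e1]
      omega
    obtain ⟨u, hu1, hu2⟩ := two_descents cs (Ne.symm hiz) (hM z i) hd1 hd2
    obtain ⟨p, hp1, hp2, hp3⟩ := cf_word cs hM z i
    obtain ⟨ν, hν, hν2⟩ := cs.exists_isReduced u
    have e3 : cs.wordProd (p ++ ν) = w := by
      rw [← hp2, wordProd_cons, mul_assoc] at hu1
      rw [wordProd_append, ← hν2]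
      exact (mul_left_cancel hu1).symm
    have hνl : ν.length = cs.length u := by rw [hν2, hν.eq]
    have hr : cs.IsReduced (p ++ ν) := by
      unfold CoxeterSystem.IsReduced
      rw [e3, List.length_append, hνl]
      omega
    have hlet := letters_of_reduced cs (simple_inj cs) hr (J := ({z}ᶜ : Set B)) (by rw [e3]; exact hw)
    have hp4 : ¬ 2 ≤ p.length := by
      intro h2
      exact hlet z (List.mem_append_left _ (hp3 h2)) rfl
    have hM1 : M z i ≠ 1 := M.off_diagonal z i (Ne.symm hiz)
    have hM2 : M z i = 2 := by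
      have := hM z i
      omega
    have hcomm : cs.simple z * cs.simple i = cs.simple i * cs.simple z := by
      have h4 := cs.simple_mul_simple_pow z i
      rw [hM2, pow_two] at h4
      have h5 := eq_inv_of_mul_eq_one_left h4
      rw [h5, mul_inv_rev, cs.inv_simple, cs.inv_simple]
    have hw' : cs.simple i * w ∈ par cs ({z}ᶜ : Set B) := mul_mem (simple_mem_par cs hiz) hw
    have h6 := ih (cs.simple i * w) (by omega) hw' (by
      rw [← mul_assoc, hcomm, mul_assoc, h, mul_assoc])
    have e4 : w = cs.simple i * (cs.simple i * w) := by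
      rw [simple_mul_simple_cancel_left]
    rw [e4]
    exact mul_mem (simple_mem_par cs ⟨hiz, hM2⟩) h6

theorem cf (hM : ∀ i j, M i j ≠ 0) {z s : B} {w : W} (hw : w ∈ par cs ({z}ᶜ : Set B))
    (h : cs.simple z * w = w * cs.simple s) : s = z ∧ w ∈ par cs {i | i ≠ z ∧ M z i = 2} := by
  have hsz : s = z := by
    by_contra hne
    have h1 : cs.simple s ∈ par cs ({z}ᶜ : Set B) := simple_mem_par cs hne
    have h2 : cs.simple z ∈ par cs ({z}ᶜ : Set B) := by
      have e : cs.simple z = w * cs.simple s * w⁻¹ := by
        rw [← h, mul_inv_cancel_right]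
      rw [e]
      exact mul_mem (mul_mem hw h1) (inv_mem hw)
    exact b1_simple cs (simple_inj cs) h2 rfl
  subst hsz
  exact ⟨rfl, cf_ind cs hM s _ w rfl hw h⟩

end Pool.Agent.H54.TF
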