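import Pool.Agent.H54.TF.Defs
import Pool.Agent.H75.INF.Ord

/-!
# [H54 TF DCS] Double cosets in the Coxeter group (30 min)

Library: H8/CDW (`length_add`, `mem_par_iff`, `letters_of_reduced`, `b1_simple`), H75/INF (`simple_inj`, `IsL`, `Mr.lean`).
`dcs`: strong induction on `ℓ(w)`. If `IsL K w` and `IsMin T w`: `u = t = 1`. If `k ∈ K` is a left descent: `w = s_k w'`, `ℓ(w') < ℓ(w)`, `k ∈ Y`
(`letters_of_reduced`: a reduced word of `w` beginning with `k`: `k :: ` a reduced word of `w'`), `w' = s_k w ∈ par Y`, induction, `u := s_k u'`. Same on the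
right.
-/

set_option autoImplicit false

namespace Pool.Agent.H54.TF

open CoxeterSystem Pool.H8.CDW Pool.Agent.H52.PAG Pool.Agent.H75.INF

variable {B W : Type*} [Group W] {M : CoxeterMatrix B} (cs : CoxeterSystem M W)

private theorem dcs_left {Y : Set B} {w : W} (hw : w ∈ par cs Y) {k : B} (hd : cs.IsLeftDescent w k) : k ∈ Y := by
  obtain ⟨ω, h1, h2⟩ := cs.exists_isReduced (cs.simple k * w)
  have h3 : cs.wordProd (k :: ω) = w := by
    rw [wordProd_cons, ← h2, cs.simple_mul_simple_cancel_left]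
  have h4 : cs.IsReduced (k :: ω) := by
    show cs.length (cs.wordProd (k :: ω)) = (k :: ω).length
    rw [h3, List.length_cons, ← h1.eq, ← h2]
    exact ((cs.isLeftDescent_iff).1 hd).symm
  exact letters_of_reduced cs (simple_inj cs) h4 (by rw [h3]; exact hw) k List.mem_cons_self

private theorem dcs_right {Y : Set B} {w : W} (hw : w ∈ par cs Y) {k : B} (hd : cs.IsRightDescent w k) : k ∈ Y := by
  apply dcs_left cs (inv_mem hw)
  rw [cs.isLeftDescent_inv_iff]
  exact hd

private theorem dcs_aux (K T Y : Set B) (n : ℕ) : ∀ w : W, cs.length w ≤ n → w ∈ par cs Y → ∃ u ∈ par cs (K ∩ Y), ∃ d ∈ par cs Y,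
    ∃ t ∈ par cs (T ∩ Y), IsL cs K d ∧ IsMin cs T d ∧ w = u * d * t := by
  induction n with
  | zero =>
    intro w hw hY
    have h1 : w = 1 := cs.length_eq_zero_iff.1 (by omega)
    subst h1
    refine ⟨1, one_mem _, 1, one_mem _, 1, one_mem _, isL_one cs K, ?_, by simp⟩
    intro j _ hd
    have h2 := (cs.isRightDescent_iff).1 hd
    rw [cs.length_one] at h2
    omega
  | succ n ih =>
    intro w hw hY
    by_cases h1 : ∀ k ∈ K, ¬ cs.IsLeftDescent w k
    · by_cases h2 : ∀ k ∈ T, ¬ cs.IsRightDescent w k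
      · exact ⟨1, one_mem _, w, hY, 1, one_mem _, h1, h2, by simp⟩
      · push Not at h2
        obtain ⟨k, hk, hd⟩ := h2
        have hkY := dcs_right cs hY hd
        have h3 := (cs.isRightDescent_iff).1 hd
        obtain ⟨u, hu, d, hd', t, ht, h4, h5, h6⟩ := ih (w * cs.simple k) (by omega) (mul_mem hY (simple_mem_par cs hkY))
        refine ⟨u, hu, d, hd', t * cs.simple k, mul_mem ht (simple_mem_par cs ⟨hk, hkY⟩), h4, h5, ?_⟩
        rw [← mul_assoc, ← h6, cs.simple_mul_simple_cancel_right]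
    · push Not at h1
      obtain ⟨k, hk, hd⟩ := h1
      have hkY := dcs_left cs hY hd
      have h3 := (cs.isLeftDescent_iff).1 hd
      obtain ⟨u, hu, d, hd', t, ht, h4, h5, h6⟩ := ih (cs.simple k * w) (by omega) (mul_mem (simple_mem_par cs hkY) hY)
      refine ⟨cs.simple k * u, mul_mem (simple_mem_par cs ⟨hk, hkY⟩) hu, d, hd', t, ht, h4, h5, ?_⟩
      rw [mul_assoc (cs.simple k), mul_assoc (cs.simple k), ← h6, cs.simple_mul_simple_cancel_left]

theorem dcs (K T Y : Set B) {w : W} (hw : w ∈ par cs Y) : ∃ u ∈ par cs (K ∩ Y), ∃ d ∈ par cs Y, ∃ t ∈ par cs (T ∩ Y),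
    IsL cs K d ∧ IsMin cs T d ∧ w = u * d * t :=
  dcs_aux cs K T Y (cs.length w) w le_rfl hw

end Pool.Agent.H54.TF
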