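import Pool.Agent.H54.TF.Pc
import Pool.Agent.H54.TF.Dcs
import Pool.Agent.H54.TF.Cf

/-!
# [H54 TF PT] Four-cycles of arbitrary types (75 min; proof by helper2)

`X₁ = S \ {b}`, `X₂ = S \ {c}`. Cosets `P₁ = g₁ ap X₁`, `P₂ = g₂ ap X₂`, `P₃ = g₃ ap K₃`, `P₄ = g₄ ap K₄`, consecutive ones meet.
`pt_a`: (the case of `P₂`, `P₄`) either `P₁` meets `P₃`, or `toCox (g₂⁻¹ g₄) ∈ pw X₂ * pw K₄`. Proof. Let `e ∈ P₁ ∩ P₂`, `x ∈ P₁ ∩ P₄`. `w = toCox (e⁻¹ x) ∈ pw X₁` (`toCox_mem`). `dcs` with `K = X₂`,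
`T = K₄`, `Y = X₁`: `w = u d t`, `d ∈ par X₁`, `IsL X₂ d`, `IsMin K₄ d`. If `d = 1`: `g₂⁻¹ g₄ = (g₂⁻¹ e) (e⁻¹ x) (x⁻¹ g₄)`: second alternative. Let `d ≠ 1`,
`Z = {k ∈ X₂ | ∃ l ∈ K₄, s_k d = d s_l}`. Claim `b ∉ Z`: otherwise `cf` (`z = b`, `d ∈ par X₁ ≤ par {b}ᶜ`): `d ∈ par {i | i ≠ b ∧ M b i = 2}`. `d ≠ 1` has a left
descent `i`; `i ∈ X₁` (`letters_of_reduced`), `i ∉ X₂` (`IsL X₂ d`), so `i = c`, and `M b c = 2` (`letters_of_reduced` for the other set), a contradiction. So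
`Z ⊆ X₂ \ {b} = X₁ ∩ X₂`. `q = x ∈ P₁ ∩ P₄`, `q' ∈ P₃ ∩ P₄`. `P₂ = e ap X₂`, so use `prc X₂ e` (`prc_congr` for `g₂`, or everything with `e`): `prc_meet` for `P₁ = e ap X₁`:
`e⁻¹ prc q ∈ ap X₁`; for `P₃`: `prc q' ∈ P₃`. `prc_range` (`P₄ = x ap K₄`, `toCox (e⁻¹ x) = u d t`): `(prc q)⁻¹ prc q' ∈ ap Z ≤ ap X₁`. So `prc q' ∈ P₁ ∩ P₃`.
`pt`: suppose `P₁`, `P₃` do not meet and `P₂`, `P₄` do not meet. `pt_a` and `pt_a` for the cycle `(P₂, P₁, P₄, P₃)` (types `c`, `b`, `K₄`, `K₃`; `M c b = M b c`):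
`toCox (g₂⁻¹ g₄) ∈ pw X₂ * pw K₄` and `toCox (g₁⁻¹ g₃) ∈ pw X₁ * pw K₃` (invert both for `prc_one` with `K = K₃`, `g = g₃`, `h = g₁`, and `K = K₄`, `g = g₄`, `h = g₂`). Let
`e ∈ P₁ ∩ P₂`, `f ∈ P₁ ∩ P₄`. `h = prc K₃ g₃ e ∈ P₃` (`prc_mem`), `h ∈ P₂` (`prc_meet`), and `prc K₃ g₃ f ∈ P₄` (`prc_meet`), `h⁻¹ prc K₃ g₃ f ∈ ap (K₃ ∩ X₁) ≤ ap X₁` (`prc_one`). So
`P₁' = h ap X₁` meets `P₂` (in `h`) and `P₄`, and `g₁⁻¹ h ∉ ap X₁` (otherwise `h ∈ P₁ ∩ P₃`). `h₂ = prc K₄ g₄ e ∈ P₄`, `∈ P₁` (`prc_meet`); `prc K₄ g₄ h ∈ P₁'` (`prc_meet` for `P₁'`),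
`h₂⁻¹ prc K₄ g₄ h ∈ ap X₂` (`prc_one`; `e`, `h ∈ P₂`). So `P₂' = h₂ ap X₂` meets `P₁` and `P₁'`; `g₂⁻¹ h₂ ∉ ap X₂`. `GC` for `g₁, g₂, h, h₂`: contradiction.
`gc_of_gs`: let `e₁₂, e₂₃, e₃₄, e₄₁` be common elements; `x = e₄₁⁻¹ e₁₂ ∈ ap X₁`, `y = e₁₂⁻¹ e₂₃ ∈ ap X₂`, `x' = e₂₃⁻¹ e₃₄`, `y' = e₃₄⁻¹ e₄₁`; `x y x' y' = 1`. `x ∈ ap (S \ {b, c}) ≤ ap X₂` gives
`g₂⁻¹ g₄ ∈ ap X₂`; `y ∈ ap (S \ {b, c}) ≤ ap X₁` gives `g₁⁻¹ g₃ ∈ ap X₁`. `gs_of_gc`: `g₁ = g₂ = 1`, `g₃ = y`, `g₄ = x⁻¹`: `y ∈ ap X₁ ⊓ ap X₂` or `x ∈ ap X₂ ⊓ ap X₁`, `ap_inter`.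
-/

set_option autoImplicit false

namespace Pool.Agent.H54.TF

open CoxeterSystem Pool.H8.CDW Pool.Agent.H52.PAG Pool.Agent.H75.INF

variable {B : Type} {M : CoxeterMatrix B}

private theorem pt_sub1 (S : Set B) (b c : B) : S \ {b, c} ⊆ S \ {b} := by
  rintro i ⟨h1, h2⟩
  exact ⟨h1, fun h => h2 (Or.inl h)⟩

private theorem pt_sub2 (S : Set B) (b c : B) : S \ {b, c} ⊆ S \ {c} := by
  rintro i ⟨h1, h2⟩
  exact ⟨h1, fun h => h2 (Or.inr h)⟩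

private theorem pt_int (S : Set B) (b c : B) : (S \ {b}) ∩ (S \ {c}) ⊆ S \ {b, c} := by
  rintro i ⟨⟨h1, h2⟩, _, h3⟩
  exact ⟨h1, fun h => h.elim h2 h3⟩

private theorem pt_left {W : Type*} [Group W] (cs : CoxeterSystem M W) {J : Set B} {w : W} {i : B}
    (hw : w ∈ par cs J) (h : cs.IsLeftDescent w i) : i ∈ J := by
  obtain ⟨ω, hω, e⟩ := cs.exists_isReduced (cs.simple i * w)
  have h1 := cs.isLeftDescent_iff.1 h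
  have e2 : cs.wordProd (i :: ω) = w := by
    rw [wordProd_cons, ← e, simple_mul_simple_cancel_left]
  have h3 : cs.IsReduced (i :: ω) := by
    unfold CoxeterSystem.IsReduced
    rw [e2, List.length_cons, ← hω.eq, ← e]
    omega
  exact letters_of_reduced cs (simple_inj cs) h3 (by rw [e2]; exact hw) i List.mem_cons_self

theorem gc_of_gs {S : Set B} {b c : B} (h : GS M S b c) : GC M S b c := by
  rintro g₁ g₂ g₃ g₄ ⟨e₁, h1, h2⟩ ⟨e₂, h3, h4⟩ ⟨e₃, h5, h6⟩ ⟨e₄, h7, h8⟩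
  have hx : e₄⁻¹ * e₁ ∈ ap M (S \ {b}) := by
    have e : e₄⁻¹ * e₁ = (g₁⁻¹ * e₄)⁻¹ * (g₁⁻¹ * e₁) := by group
    rw [e]
    exact mul_mem (inv_mem h8) h1
  have hy : e₁⁻¹ * e₂ ∈ ap M (S \ {c}) := by
    have e : e₁⁻¹ * e₂ = (g₂⁻¹ * e₁)⁻¹ * (g₂⁻¹ * e₂) := by group
    rw [e]
    exact mul_mem (inv_mem h2) h3
  have hx' : e₂⁻¹ * e₃ ∈ ap M (S \ {b}) := by
    have e : e₂⁻¹ * e₃ = (g₃⁻¹ * e₂)⁻¹ * (g₃⁻¹ * e₃) := by group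
    rw [e]
    exact mul_mem (inv_mem h4) h5
  have hy' : e₃⁻¹ * e₄ ∈ ap M (S \ {c}) := by
    have e : e₃⁻¹ * e₄ = (g₄⁻¹ * e₃)⁻¹ * (g₄⁻¹ * e₄) := by group
    rw [e]
    exact mul_mem (inv_mem h6) h7
  rcases h _ hx _ hx' _ hy _ hy' (by group) with h9 | h9
  · right
    have h10 : e₄⁻¹ * e₁ ∈ ap M (S \ {c}) := ap_mono (pt_sub2 S b c) h9
    have e : g₂⁻¹ * g₄ = (g₂⁻¹ * e₁) * (e₄⁻¹ * e₁)⁻¹ * (g₄⁻¹ * e₄)⁻¹ := by group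
    rw [e]
    exact mul_mem (mul_mem h2 (inv_mem h10)) (inv_mem h7)
  · left
    have h10 : e₁⁻¹ * e₂ ∈ ap M (S \ {b}) := ap_mono (pt_sub1 S b c) h9
    have e : g₁⁻¹ * g₃ = (g₁⁻¹ * e₁) * (e₁⁻¹ * e₂) * (g₃⁻¹ * e₂)⁻¹ := by group
    rw [e]
    exact mul_mem (mul_mem h1 h10) (inv_mem h4)

theorem gs_of_gc {S : Set B} {b c : B} (h : GC M S b c) : GS M S b c := by
  intro x hx x' hx' y hy y' hy' e
  have e1 : x * (y * x') = y'⁻¹ := by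
    rw [← mul_assoc]
    exact eq_inv_of_mul_eq_one_left e
  have h12 : Mt M (S \ {b}) (S \ {c}) 1 1 := ⟨1, by rw [inv_one, one_mul]; exact one_mem _,
    by rw [inv_one, one_mul]; exact one_mem _⟩
  have h23 : Mt M (S \ {c}) (S \ {b}) 1 y := ⟨y, by rw [inv_one, one_mul]; exact hy,
    by rw [inv_mul_cancel]; exact one_mem _⟩
  have h34 : Mt M (S \ {b}) (S \ {c}) y x⁻¹ := ⟨y * x', by rw [inv_mul_cancel_left]; exact hx',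
    by rw [inv_inv, e1]; exact inv_mem hy'⟩
  have h41 : Mt M (S \ {c}) (S \ {b}) x⁻¹ 1 := ⟨x⁻¹, by rw [inv_mul_cancel]; exact one_mem _,
    by rw [inv_one, one_mul]; exact inv_mem hx⟩
  have hint : ∀ z, z ∈ ap M (S \ {b}) → z ∈ ap M (S \ {c}) → z ∈ ap M (S \ {b, c}) := by
    intro z h1 h2
    have h3 : z ∈ ap M (S \ {b}) ⊓ ap M (S \ {c}) := ⟨h1, h2⟩
    rw [ap_inter] at h3
    exact ap_mono (pt_int S b c) h3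
  rcases h _ _ _ _ h12 h23 h34 h41 with h1 | h1
  · right
    rw [inv_one, one_mul] at h1
    exact hint y h1 hy
  · left
    rw [inv_one, one_mul] at h1
    exact hint x hx ((Subgroup.inv_mem_iff _).1 h1)

theorem pt_a (hM : ∀ i j, M i j ≠ 0) {S : Set B} {b c : B} (hbc : 3 ≤ M b c) {K₃ K₄ : Set B} {g₁ g₂ g₃ g₄ : Art M}
    (h3 : K₃ ⊆ S) (h4 : K₄ ⊆ S) (h12 : Mt M (S \ {b}) (S \ {c}) g₁ g₂) (h23 : Mt M (S \ {c}) K₃ g₂ g₃)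
    (h34 : Mt M K₃ K₄ g₃ g₄) (h41 : Mt M K₄ (S \ {b}) g₄ g₁) :
    Mt M (S \ {b}) K₃ g₁ g₃ ∨ ∃ u ∈ pw M (S \ {c}), ∃ t ∈ pw M K₄, toCox M (g₂⁻¹ * g₄) = u * t := by
  obtain ⟨e, he1, he2⟩ := h12
  obtain ⟨x, hx4, hx1⟩ := h41
  obtain ⟨q, hq3, hq4⟩ := h34
  have hex : e⁻¹ * x ∈ ap M (S \ {b}) := by
    have e' : e⁻¹ * x = (g₁⁻¹ * e)⁻¹ * (g₁⁻¹ * x) := by group
    rw [e']
    exact mul_mem (inv_mem he1) hx1
  obtain ⟨u, hu, d, hd, t, ht, hd1, hd2, hd3⟩ := dcs M.toCoxeterSystem (S \ {c}) K₄ (S \ {b}) (toCox_mem hex)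
  by_cases hd0 : d = 1
  · right
    refine ⟨toCox M (g₂⁻¹ * e) * u, mul_mem (toCox_mem he2) (par_mono _ Set.inter_subset_left hu),
      t * toCox M (x⁻¹ * g₄), mul_mem (par_mono _ Set.inter_subset_left ht) (toCox_mem ?_), ?_⟩
    · have e' : x⁻¹ * g₄ = (g₄⁻¹ * x)⁻¹ := by group
      rw [e']
      exact inv_mem hx4
    · have e' : g₂⁻¹ * g₄ = (g₂⁻¹ * e) * (e⁻¹ * x) * (x⁻¹ * g₄) := by group
      rw [e', map_mul, map_mul, hd3, hd0, mul_one]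
      simp only [mul_assoc]
  · left
    have hb : ∀ l ∈ K₄, ¬ M.toCoxeterSystem.simple b * d = d * M.toCoxeterSystem.simple l := by
      intro l _ h5
      have h6 : d ∈ par M.toCoxeterSystem ({b}ᶜ : Set B) := par_mono _ (fun i hi => hi.2) hd
      obtain ⟨_, h7⟩ := cf M.toCoxeterSystem hM h6 h5
      obtain ⟨i, hi⟩ := M.toCoxeterSystem.exists_leftDescent_of_ne_one hd0
      have h8 := pt_left M.toCoxeterSystem hd hi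
      have h9 := pt_left M.toCoxeterSystem h7 hi
      have h10 : i = c := by
        by_contra h11
        exact hd1 i ⟨h8.1, h11⟩ hi
      have h11 : M b i = 2 := h9.2
      rw [h10] at h11
      omega
    have hZ : {k | k ∈ S \ {c} ∧ ∃ l ∈ K₄, M.toCoxeterSystem.simple k * d = d * M.toCoxeterSystem.simple l} ⊆
        S \ {b} := by
      rintro k ⟨hk, l, hl, h5⟩
      refine ⟨hk.1, ?_⟩
      intro h6
      rw [Set.mem_singleton_iff] at h6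
      rw [h6] at h5
      exact hb l hl h5
    have m1 : Mt M (S \ {c}) (S \ {b}) e e := ⟨e, by rw [inv_mul_cancel]; exact one_mem _,
      by rw [inv_mul_cancel]; exact one_mem _⟩
    have m2 : Mt M (S \ {c}) K₃ e g₃ := by
      obtain ⟨y, hy1, hy2⟩ := h23
      refine ⟨y, ?_, hy2⟩
      have e' : e⁻¹ * y = (g₂⁻¹ * e)⁻¹ * (g₂⁻¹ * y) := by group
      rw [e']
      exact mul_mem (inv_mem he2) hy1
    have r1 := prc_meet m1 hex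
    have r2 := prc_meet m2 hq3
    have hxq : x⁻¹ * q ∈ ap M K₄ := by
      have e' : x⁻¹ * q = (g₄⁻¹ * x)⁻¹ * (g₄⁻¹ * q) := by group
      rw [e']
      exact mul_mem (inv_mem hx4) hq4
    have r3 := prc_range (g := e) (h := x) (q := x) (q' := q) (par_mono _ Set.inter_subset_left hu)
      (par_mono _ Set.inter_subset_left ht) hd1 hd2 hd3 (by rw [inv_mul_cancel]; exact one_mem _) hxq
    refine ⟨prc M (S \ {c}) e q, ?_, r2⟩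
    have e' : g₁⁻¹ * prc M (S \ {c}) e q = (g₁⁻¹ * e) * (e⁻¹ * prc M (S \ {c}) e x) *
        ((prc M (S \ {c}) e x)⁻¹ * prc M (S \ {c}) e q) := by group
    rw [e']
    exact mul_mem (mul_mem he1 r1) (ap_mono hZ r3)

theorem pt (hM : ∀ i j, M i j ≠ 0) {S : Set B} {b c : B} (hbc : 3 ≤ M b c) (hG : GC M S b c) : FC M S b c := by
  intro K₃ K₄ g₁ g₂ g₃ g₄ h3 h4 h12 h23 h34 h41
  by_contra hcon
  rw [not_or] at hcon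
  obtain ⟨n1, n2⟩ := hcon
  obtain ⟨u, hu, t, ht, hut⟩ := (pt_a hM hbc h3 h4 h12 h23 h34 h41).resolve_left n1
  obtain ⟨u', hu', t', ht', hut'⟩ := (pt_a hM (b := c) (c := b) (by rw [M.symmetric c b]; exact hbc) h4 h3
    h12.symm h41.symm h34.symm h23.symm).resolve_left n2
  have k4 : toCox M (g₄⁻¹ * g₂) = t⁻¹ * u⁻¹ := by
    have e' : g₄⁻¹ * g₂ = (g₂⁻¹ * g₄)⁻¹ := by group
    rw [e', map_inv, hut, mul_inv_rev]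
  have k3 : toCox M (g₃⁻¹ * g₁) = t'⁻¹ * u'⁻¹ := by
    have e' : g₃⁻¹ * g₁ = (g₁⁻¹ * g₃)⁻¹ := by group
    rw [e', map_inv, hut', mul_inv_rev]
  obtain ⟨e, he1, he2⟩ := h12
  obtain ⟨f, hf4, hf1⟩ := h41
  obtain ⟨h, hh⟩ : ∃ h, h = prc M K₃ g₃ e := ⟨_, rfl⟩
  obtain ⟨hf, hhf⟩ : ∃ hf, hf = prc M K₃ g₃ f := ⟨_, rfl⟩
  have a1 : g₃⁻¹ * h ∈ ap M K₃ := by rw [hh]; exact prc_mem K₃ g₃ e
  have a2 : g₂⁻¹ * h ∈ ap M (S \ {c}) := by rw [hh]; exact prc_meet h23.symm he2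
  have a3 : g₄⁻¹ * hf ∈ ap M K₄ := by rw [hhf]; exact prc_meet h34 hf4
  have a4 : h⁻¹ * hf ∈ ap M (S \ {b}) := by
    rw [hh, hhf]
    exact ap_mono Set.inter_subset_right (prc_one (inv_mem ht') (inv_mem hu') k3 he1 hf1)
  have a5 : g₁⁻¹ * h ∉ ap M (S \ {b}) := fun h5 => n1 ⟨h, h5, a1⟩
  obtain ⟨p, hp⟩ : ∃ p, p = prc M K₄ g₄ e := ⟨_, rfl⟩
  obtain ⟨p', hp'⟩ : ∃ p', p' = prc M K₄ g₄ h := ⟨_, rfl⟩
  have b1 : g₄⁻¹ * p ∈ ap M K₄ := by rw [hp]; exact prc_mem K₄ g₄ e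
  have b2 : g₁⁻¹ * p ∈ ap M (S \ {b}) := by
    rw [hp]
    exact prc_meet ⟨f, hf4, hf1⟩ he1
  have b3 : h⁻¹ * p' ∈ ap M (S \ {b}) := by
    rw [hp']
    exact prc_meet ⟨hf, a3, a4⟩ (by rw [inv_mul_cancel]; exact one_mem _)
  have b4 : p⁻¹ * p' ∈ ap M (S \ {c}) := by
    rw [hp, hp']
    exact ap_mono Set.inter_subset_right (prc_one (inv_mem ht) (inv_mem hu) k4 he2 a2)
  have b5 : g₂⁻¹ * p ∉ ap M (S \ {c}) := fun h5 => n2 ⟨p, h5, b1⟩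
  rcases hG g₁ g₂ h p ⟨e, he1, he2⟩ ⟨h, a2, by rw [inv_mul_cancel]; exact one_mem _⟩ ⟨p', b3, b4⟩
    ⟨p, by rw [inv_mul_cancel]; exact one_mem _, b2⟩ with h5 | h5
  · exact a5 h5
  · exact b5 h5

end Pool.Agent.H54.TF
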