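import Pool.Agent.H54.TF.Lft
import Pool.Agent.H75.INF.Vdl

/-!
# [H54 TF TRF] Transfer to subsets; products (60 min)

`gs_res`: `exists_inc M S` (`H75/INF/Vdl.lean`): `ι : Art (resM M S) →* Art M` injective with `ι (gen k) = gen k.1`. So `ι` maps `ap (resM M S) L` onto `ap M (Subtype.val '' L)`
(`MonoidHom.map_closure`, image of an image), and `x ∈ ap (resM M S) L ↔ ι x ∈ ap M (Subtype.val '' L)` (injective). `Subtype.val '' (T \ {b}) = (Subtype.val '' T) \ {b.1}` (`Set.image_diff` with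
`Subtype.val_injective`, `Set.image_singleton`, `Set.image_pair`).
`gs_prod`: `S₁`, `S₂` disjoint, `M i j = 2` between them, `b, c ∈ S₁`. For `L₁ ⊆ S₁`, `L₂ ⊆ S₂` every `x ∈ ap (L₁ ∪ L₂)` is `x₁ x₂` with `xᵢ ∈ ap Lᵢ`, and the elements of `ap S₁` and `ap S₂` commute
(closure induction; `gen_rel` for `M i j = 2`: `alt` of length two). `(S₁ ∪ S₂) \ {b} = (S₁ \ {b}) ∪ S₂` etc. From `x y x' y' = 1`: `(x₁ y₁ x₁' y₁') (x₂ y₂ x₂' y₂') = 1`, the first factor is in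
`ap S₁ ⊓ ap S₂ = ap ∅ = ⊥` (`ap_inter`, disjoint; `ap M ∅ = ⊥`: `Subgroup.closure_empty`). `GS M S₁ b c`: `x₁` or `y₁ ∈ ap (S₁ \ {b, c})`, so `x` or `y ∈ ap ((S₁ ∪ S₂) \ {b, c})`.
-/

set_option autoImplicit false

namespace Pool.Agent.H54.TF

open CoxeterSystem Pool.H8.CDW Pool.Agent.H52.PAG Pool.Agent.H75.INF

variable {B : Type} {M : CoxeterMatrix B}

private theorem map_ap {K : Set B} {L : Set K} (ι : Art (resM M K) →* Art M)
    (hg : ∀ k : K, ι (gen (resM M K) k) = gen M k.1) :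
    (ap (resM M K) L).map ι = ap M (Subtype.val '' L) := by
  unfold ap
  rw [MonoidHom.map_closure]
  congr 1
  ext x
  constructor
  · rintro ⟨_, ⟨k, hk, rfl⟩, rfl⟩
    exact ⟨k.1, ⟨k, hk, rfl⟩, (hg k).symm⟩
  · rintro ⟨_, ⟨k, hk, rfl⟩, rfl⟩
    exact ⟨_, ⟨k, hk, rfl⟩, hg k⟩

private theorem val_diff {K : Set B} (T A : Set K) :
    Subtype.val '' (T \ A) = (Subtype.val '' T) \ (Subtype.val '' A) :=
  Set.image_diff Subtype.val_injective T A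

private theorem comm_ap {S₁ S₂ : Set B} (h2 : ∀ i ∈ S₁, ∀ j ∈ S₂, M i j = 2) {x y : Art M}
    (hx : x ∈ ap M S₁) (hy : y ∈ ap M S₂) : Commute x y := by
  have h0 : ∀ i ∈ S₁, ∀ j ∈ S₂, Commute (gen M i) (gen M j) := by
    intro i hi j hj
    have h3 : M i j ≠ 0 := by
      rw [h2 i hi j hj]
      exact two_ne_zero
    have h4 := gen_rel h3
    rw [h2 i hi j hj] at h4
    change gen M i * (gen M j * 1) = gen M j * (gen M i * 1) at h4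
    rw [mul_one, mul_one] at h4
    exact h4
  have h1 : ∀ j ∈ S₂, Commute x (gen M j) := by
    intro j hj
    refine ap_induction (P := fun x => Commute x (gen M j)) ?_ ?_ ?_ hx
    · exact Commute.one_left _
    · intro x _ k hk h
      exact h.mul_left (h0 k hk j hj)
    · intro x _ k hk h
      exact h.mul_left (h0 k hk j hj).inv_left
  refine ap_induction (P := fun y => Commute x y) ?_ ?_ ?_ hy
  · exact Commute.one_right _
  · intro y _ k hk h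
    exact h.mul_right (h1 k hk)
  · intro y _ k hk h
    exact h.mul_right (h1 k hk).inv_right

private theorem dec_ap {S₁ S₂ L₁ : Set B} (hL : L₁ ⊆ S₁) (h2 : ∀ i ∈ S₁, ∀ j ∈ S₂, M i j = 2) {x : Art M}
    (hx : x ∈ ap M (L₁ ∪ S₂)) : ∃ x₁ ∈ ap M L₁, ∃ x₂ ∈ ap M S₂, x = x₁ * x₂ := by
  refine ap_induction (P := fun x => ∃ x₁ ∈ ap M L₁, ∃ x₂ ∈ ap M S₂, x = x₁ * x₂) ?_ ?_ ?_ hx
  · exact ⟨1, one_mem _, 1, one_mem _, (mul_one _).symm⟩
  · rintro x _ k hk ⟨x₁, h1, x₂, h3, rfl⟩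
    rcases hk with hk | hk
    · refine ⟨x₁ * gen M k, mul_mem h1 (gen_mem_ap hk), x₂, h3, ?_⟩
      rw [mul_assoc, mul_assoc, (comm_ap h2 (gen_mem_ap (hL hk)) h3).eq]
    · exact ⟨x₁, h1, x₂ * gen M k, mul_mem h3 (gen_mem_ap hk), mul_assoc _ _ _⟩
  · rintro x _ k hk ⟨x₁, h1, x₂, h3, rfl⟩
    rcases hk with hk | hk
    · refine ⟨x₁ * (gen M k)⁻¹, mul_mem h1 (inv_mem (gen_mem_ap hk)), x₂, h3, ?_⟩
      rw [mul_assoc, mul_assoc, (comm_ap h2 (inv_mem (gen_mem_ap (hL hk))) h3).eq]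
    · exact ⟨x₁, h1, x₂ * (gen M k)⁻¹, mul_mem h3 (inv_mem (gen_mem_ap hk)), mul_assoc _ _ _⟩

private theorem rearr {G : Type*} [Group G] {a₁ a₂ b₁ b₂ c₁ c₂ d₁ d₂ : G} (h1 : Commute b₁ a₂) (h2 : Commute c₁ a₂)
    (h3 : Commute c₁ b₂) (h4 : Commute d₁ a₂) (h5 : Commute d₁ b₂) (h6 : Commute d₁ c₂) :
    (a₁ * a₂) * (b₁ * b₂) * (c₁ * c₂) * (d₁ * d₂) = (a₁ * b₁ * c₁ * d₁) * (a₂ * b₂ * c₂ * d₂) := by
  have e1 : (a₁ * a₂) * (b₁ * b₂) = (a₁ * b₁) * (a₂ * b₂) := by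
    calc (a₁ * a₂) * (b₁ * b₂) = a₁ * (a₂ * b₁) * b₂ := by simp only [mul_assoc]
      _ = a₁ * (b₁ * a₂) * b₂ := by rw [h1.eq]
      _ = _ := by simp only [mul_assoc]
  have h7 : Commute c₁ (a₂ * b₂) := h2.mul_right h3
  have e2 : (a₁ * b₁) * (a₂ * b₂) * (c₁ * c₂) = (a₁ * b₁ * c₁) * (a₂ * b₂ * c₂) := by
    calc (a₁ * b₁) * (a₂ * b₂) * (c₁ * c₂) = (a₁ * b₁) * ((a₂ * b₂) * c₁) * c₂ := by simp only [mul_assoc]
      _ = (a₁ * b₁) * (c₁ * (a₂ * b₂)) * c₂ := by rw [h7.eq]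
      _ = _ := by simp only [mul_assoc]
  have h8 : Commute d₁ (a₂ * b₂ * c₂) := (h4.mul_right h5).mul_right h6
  rw [e1, e2]
  calc (a₁ * b₁ * c₁) * (a₂ * b₂ * c₂) * (d₁ * d₂) = (a₁ * b₁ * c₁) * ((a₂ * b₂ * c₂) * d₁) * d₂ := by
        simp only [mul_assoc]
    _ = (a₁ * b₁ * c₁) * (d₁ * (a₂ * b₂ * c₂)) * d₂ := by rw [h8.eq]
    _ = _ := by simp only [mul_assoc]

theorem gs_res (S : Set B) (T : Set S) (b c : S) : GS (resM M S) T b c ↔ GS M (Subtype.val '' T) b.1 c.1 := by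
  obtain ⟨ι, hi, hg, -⟩ := exists_inc M S
  have hm : ∀ (L : Set S) (x : Art (resM M S)), ι x ∈ ap M (Subtype.val '' L) ↔ x ∈ ap (resM M S) L := by
    intro L x
    rw [← map_ap ι hg]
    exact Subgroup.mem_map_iff_mem hi
  have hs : ∀ (L : Set S) (y : Art M), y ∈ ap M (Subtype.val '' L) → ∃ x ∈ ap (resM M S) L, ι x = y := by
    intro L y hy
    rw [← map_ap ι hg] at hy
    exact Subgroup.mem_map.1 hy
  have e1 : (Subtype.val '' T) \ {b.1} = Subtype.val '' (T \ {b}) := by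
    rw [val_diff, Set.image_singleton]
  have e2 : (Subtype.val '' T) \ {c.1} = Subtype.val '' (T \ {c}) := by
    rw [val_diff, Set.image_singleton]
  have e3 : (Subtype.val '' T) \ {b.1, c.1} = Subtype.val '' (T \ {b, c}) := by
    rw [val_diff, Set.image_pair]
  unfold GS
  rw [e1, e2, e3]
  constructor
  · intro h x hx x' hx' y hy y' hy' he
    obtain ⟨u, hu, rfl⟩ := hs _ _ hx
    obtain ⟨u', hu', rfl⟩ := hs _ _ hx'
    obtain ⟨v, hv, rfl⟩ := hs _ _ hy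
    obtain ⟨v', hv', rfl⟩ := hs _ _ hy'
    rw [hm, hm]
    refine h u hu u' hu' v hv v' hv' (hi ?_)
    rw [map_mul, map_mul, map_mul, he, map_one]
  · intro h x hx x' hx' y hy y' hy' he
    rw [← hm, ← hm]
    refine h (ι x) ((hm _ _).2 hx) (ι x') ((hm _ _).2 hx') (ι y) ((hm _ _).2 hy) (ι y') ((hm _ _).2 hy') ?_
    rw [← map_mul, ← map_mul, ← map_mul, he, map_one]

theorem gs_prod {S₁ S₂ : Set B} (hd : Disjoint S₁ S₂) (h2 : ∀ i ∈ S₁, ∀ j ∈ S₂, M i j = 2) {b c : B} (hb : b ∈ S₁) (hc : c ∈ S₁)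
    (h : GS M S₁ b c) : GS M (S₁ ∪ S₂) b c := by
  have hb2 : b ∉ S₂ := fun h' => Set.disjoint_left.1 hd hb h'
  have hc2 : c ∉ S₂ := fun h' => Set.disjoint_left.1 hd hc h'
  have e1 : (S₁ ∪ S₂) \ {b} = (S₁ \ {b}) ∪ S₂ := by
    rw [Set.union_sdiff_distrib, Set.sdiff_singleton_eq_self hb2]
  have e2 : (S₁ ∪ S₂) \ {c} = (S₁ \ {c}) ∪ S₂ := by
    rw [Set.union_sdiff_distrib, Set.sdiff_singleton_eq_self hc2]
  have e3 : (S₁ ∪ S₂) \ {b, c} = (S₁ \ {b, c}) ∪ S₂ := by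
    rw [Set.union_sdiff_distrib]
    congr 1
    ext a
    constructor
    · exact fun ha => ha.1
    · intro ha
      refine ⟨ha, ?_⟩
      rintro (rfl | rfl)
      · exact hb2 ha
      · exact hc2 ha
  unfold GS
  rw [e1, e2, e3]
  intro x hx x' hx' y hy y' hy' he
  obtain ⟨x₁, hx1, x₂, hx2, rfl⟩ := dec_ap Set.sdiff_subset h2 hx
  obtain ⟨x₁', hx1', x₂', hx2', rfl⟩ := dec_ap Set.sdiff_subset h2 hx'
  obtain ⟨y₁, hy1, y₂, hy2, rfl⟩ := dec_ap Set.sdiff_subset h2 hy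
  obtain ⟨y₁', hy1', y₂', hy2', rfl⟩ := dec_ap Set.sdiff_subset h2 hy'
  have m1 : ∀ {a : B} {z : Art M}, z ∈ ap M (S₁ \ {a}) → z ∈ ap M S₁ := fun hz => ap_mono Set.sdiff_subset hz
  rw [rearr (comm_ap h2 (m1 hy1) hx2) (comm_ap h2 (m1 hx1') hx2) (comm_ap h2 (m1 hx1') hy2)
    (comm_ap h2 (m1 hy1') hx2) (comm_ap h2 (m1 hy1') hy2) (comm_ap h2 (m1 hy1') hx2')] at he
  have h3 : x₁ * y₁ * x₁' * y₁' ∈ ap M S₁ :=
    mul_mem (mul_mem (mul_mem (m1 hx1) (m1 hy1)) (m1 hx1')) (m1 hy1')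
  have h4 : x₁ * y₁ * x₁' * y₁' ∈ ap M S₂ := by
    rw [mul_eq_one_iff_eq_inv.1 he]
    exact inv_mem (mul_mem (mul_mem (mul_mem hx2 hy2) hx2') hy2')
  have h5 : x₁ * y₁ * x₁' * y₁' = 1 := by
    have h6 : x₁ * y₁ * x₁' * y₁' ∈ ap M S₁ ⊓ ap M S₂ := ⟨h3, h4⟩
    rw [ap_inter, Set.disjoint_iff_inter_eq_empty.1 hd] at h6
    unfold ap at h6
    rw [Set.image_empty, Subgroup.closure_empty] at h6
    exact h6
  have i1 : ap M (S₁ \ {b, c}) ≤ ap M (S₁ \ {b, c} ∪ S₂) := ap_mono Set.subset_union_left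
  have i2 : ap M S₂ ≤ ap M (S₁ \ {b, c} ∪ S₂) := ap_mono Set.subset_union_right
  rcases h x₁ hx1 x₁' hx1' y₁ hy1 y₁' hy1' h5 with h7 | h7
  · exact Or.inl (mul_mem (i1 h7) (i2 hx2))
  · exact Or.inr (mul_mem (i1 h7) (i2 hy2))

end Pool.Agent.H54.TF
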