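import Pool.Agent.H75.INF.Prc
import Pool.Agent.H75.INF.Kil
import Pool.Agent.H75.INF.Cyp

/-!
# [H54 TF] Artin groups with triangles. Definitions

MP_2a547c_gt, think notes 1238 (helper2), 1239 (helper54). `M` is a Coxeter matrix, `Art M` the Artin group, `ap M K` its subgroup generated
by the `gen M k`, `k ∈ K` (H75/INF). `GS M S b c` (for `b`, `c` in `S`): the graph of the cosets of `ap M (S \ {b})` and `ap M (S \ {c})` has
no closed paths of length four. `pr M K` is the retraction to `ap M K`: the value of the cocycle `cy M K` of H75/INF at the position `1`.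
`prc M K g` is the projection to the coset `g * ap M K`.
-/

set_option autoImplicit false

namespace Pool.Agent.H54.TF

open CoxeterSystem Pool.H8.CDW Pool.Agent.H52.PAG Pool.Agent.H75.INF

variable {B : Type} (M : CoxeterMatrix B)

/-- no four-cycles in the graph of the cosets of the subgroups for `S \ {b}` and `S \ {c}` -/
def GS (S : Set B) (b c : B) : Prop :=
  ∀ x ∈ ap M (S \ {b}), ∀ x' ∈ ap M (S \ {b}), ∀ y ∈ ap M (S \ {c}), ∀ y' ∈ ap M (S \ {c}),
    x * y * x' * y' = 1 → x ∈ ap M (S \ {b, c}) ∨ y ∈ ap M (S \ {b, c})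

/-- the coset `g * ap M K` meets the coset `h * ap M L` -/
def Mt (K L : Set B) (g h : Art M) : Prop := ∃ x, g⁻¹ * x ∈ ap M K ∧ h⁻¹ * x ∈ ap M L

/-- `GS` in terms of cosets -/
def GC (S : Set B) (b c : B) : Prop := ∀ g₁ g₂ g₃ g₄ : Art M,
  Mt M (S \ {b}) (S \ {c}) g₁ g₂ → Mt M (S \ {c}) (S \ {b}) g₂ g₃ → Mt M (S \ {b}) (S \ {c}) g₃ g₄ →
    Mt M (S \ {c}) (S \ {b}) g₄ g₁ → g₁⁻¹ * g₃ ∈ ap M (S \ {b}) ∨ g₂⁻¹ * g₄ ∈ ap M (S \ {c})

/-- every closed path of length four of cosets of the types `b`, `c`, `K₃`, `K₄` has a diagonal -/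
def FC (S : Set B) (b c : B) : Prop := ∀ (K₃ K₄ : Set B) (g₁ g₂ g₃ g₄ : Art M), K₃ ⊆ S → K₄ ⊆ S →
  Mt M (S \ {b}) (S \ {c}) g₁ g₂ → Mt M (S \ {c}) K₃ g₂ g₃ → Mt M K₃ K₄ g₃ g₄ → Mt M K₄ (S \ {b}) g₄ g₁ →
    Mt M (S \ {b}) K₃ g₁ g₃ ∨ Mt M (S \ {c}) K₄ g₂ g₄

/-- the retraction to the parabolic subgroup -/
noncomputable def pr (K : Set B) (h : Art M) : Art M := cy M K 1 h

/-- the projection to the coset `g * ap M K` -/
noncomputable def prc (K : Set B) (g h : Art M) : Art M := g * pr M K (g⁻¹ * h)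

/-- the subgroup of the Coxeter group -/
abbrev pw (K : Set B) : Subgroup M.Group := par M.toCoxeterSystem K

variable {M}

theorem Mt.symm {K L : Set B} {g h : Art M} (H : Mt M K L g h) : Mt M L K h g := by
  obtain ⟨x, h1, h2⟩ := H
  exact ⟨x, h2, h1⟩

end Pool.Agent.H54.TF
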