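import Mathlib

/-!
# [H54 TF] Abstract part: definitions

`IsLev E z lev`: levels from the base vertex `z` in a graph `E` (simply connected complexes of triangles whose links have no cycles of
length less than six). `Cvx E C`: convex sets. `TS typ Adj J U`: the coset complex of an Artin group: `typ` is the type of a vertex, `U` the
set of the three types of the complex of triangles, `J` the relation of the types with label at least `3`; `lk` is the condition on the links of
the vertices with a type in `U`: every closed path of length four with `J` for two consecutive types has a diagonal.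
-/

set_option autoImplicit false

namespace Pool.Agent.H54.TF

/-- levels from the base vertex `z` -/
structure IsLev {V : Type} (E : V → V → Prop) (z : V) (lev : V → ℕ) : Prop where
  zero : ∀ x, lev x = 0 ↔ x = z
  step : ∀ x y, E x y → lev x ≤ lev y + 1
  low : ∀ x, x ≠ z → ∃ y, E x y ∧ lev y < lev x
  one : ∀ x y y', E x y → E x y' → lev y < lev x → lev y' < lev x → y = y' ∨ E y y'
  two : ∀ x y, E x y → lev x = lev y → ∃ w, E x w ∧ E y w ∧ lev w < lev x

/-- convex sets of vertices -/
structure Cvx {V : Type} (E : V → V → Prop) (C : Set V) : Prop where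
  conn : ∀ x ∈ C, ∀ y ∈ C, Relation.ReflTransGen (fun a b => E a b ∧ b ∈ C) x y
  link : ∀ x u u' y, x ∈ C → u ∈ C → u' ∈ C → u ≠ u' → E x u → E x u' → E x y → E y u → E y u' → y ∈ C

/-- abstract coset complexes -/
structure TS {V B : Type} (typ : V → B) (Adj : V → V → Prop) (J : B → B → Prop) (U : Set B) : Prop where
  symm : ∀ x y, Adj x y → Adj y x
  same : ∀ x y, Adj x y → typ x = typ y → x = y
  jsymm : ∀ b c, J b c → J c b
  ne : U.Nonempty
  uJ : ∀ p ∈ U, ∀ q ∈ U, p ≠ q → J p q
  u3 : ∀ a ∈ U, ∀ b ∈ U, ∀ c ∈ U, a ≠ b → b ≠ c → a ≠ c → ∀ d ∈ U, d = a ∨ d = b ∨ d = c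
  fill : ∀ x y, Adj x y → ∀ t, ∃ v, typ v = t ∧ Adj v x ∧ Adj v y
  lk : ∀ v x y z w, typ v ∈ U → Adj v x → Adj v y → Adj v z → Adj v w → typ x ≠ typ v → typ y ≠ typ v →
    typ z ≠ typ v → typ w ≠ typ v → J (typ x) (typ y) → Adj x y → Adj y z → Adj z w → Adj w x → Adj x z ∨ Adj y w
  conn : ∀ Z, typ Z ∉ U → ∀ x y : {v : V // typ v ∈ U}, Adj x.1 Z → Adj y.1 Z →
    Relation.ReflTransGen (fun a b : {v : V // typ v ∈ U} => (a ≠ b ∧ Adj a.1 b.1) ∧ Adj b.1 Z) x y
  lev : ∀ z : {v : V // typ v ∈ U}, ∃ lev : {v : V // typ v ∈ U} → ℕ, IsLev (fun a b => a ≠ b ∧ Adj a.1 b.1) z lev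

end Pool.Agent.H54.TF
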