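import Pool.Agent.H54.TF.Pt
import Pool.Agent.H54.TF.Ab

/-!
# [H54 TF AV] The coset complex of an Artin group (45 min)

Vertices: a type `s` and a coset of `ap M {s}ᶜ`; adjacent: the cosets meet. `av_eq_iff`: `QuotientGroup.eq` (`Sigma.ext_iff`, `subst`). `exists_av`: `Quotient` induction.
`aj_iff`: unfold, `av_eq_iff`. `aj_same`: both are `av s g`. `aj_fill`: `av M t g`. `aj_flag`: `flag` (Lft) for `U = {x.1}ᶜ` etc.
`aj_lk`: let `v = av t g`. `x, y, z, w` are adjacent to `v` and consecutive ones are adjacent, so by `aj_flag` there are `e₁₂ ∈ v ∩ x ∩ y`, `e₂₃ ∈ v ∩ y ∩ z`, `e₃₄ ∈ v ∩ z ∩ w`, `e₄₁ ∈ v ∩ w ∩ x`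
(as elements of `Art M`). Put `g₁ = g₂ = e₁₂`, `g₃ = g₄ = e₃₄`. Two elements of `v ∩ x` differ by an element of `ap {t}ᶜ ⊓ ap {x.1}ᶜ = ap ({t}ᶜ \ {x.1})` (`ap_inter`). So
`Mt ({t}ᶜ \ {b}) ({t}ᶜ \ {c}) g₁ g₂` (via `e₁₂`), `Mt ({t}ᶜ \ {c}) ({t}ᶜ \ {z.1}) g₂ g₃` (via `e₂₃`), etc. `hF` with `K₃ = {t}ᶜ \ {z.1}`, `K₄ = {t}ᶜ \ {w.1}`: a common element of `x` and
`z` or of `y` and `w` (`ap_mono`).
-/

set_option autoImplicit false

namespace Pool.Agent.H54.TF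

open CoxeterSystem Pool.H8.CDW Pool.Agent.H52.PAG Pool.Agent.H75.INF

variable {B : Type} (M : CoxeterMatrix B)

/-- the vertices of the coset complex -/
def AV : Type := Σ s : B, Art M ⧸ ap M ({s}ᶜ : Set B)

/-- the vertex of type `s` which contains `g` -/
def av (s : B) (g : Art M) : AV M := ⟨s, (QuotientGroup.mk g : Art M ⧸ ap M ({s}ᶜ : Set B))⟩

variable {M}

/-- adjacent or equal: the cosets have a common element -/
def AJ (x y : AV M) : Prop := ∃ g, x = av M x.1 g ∧ y = av M y.1 g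

theorem av_fst (s : B) (g : Art M) : (av M s g).1 = s := rfl

theorem av_eq_iff {s t : B} {g h : Art M} : av M s g = av M t h ↔ s = t ∧ g⁻¹ * h ∈ ap M ({s}ᶜ : Set B) := by
  constructor
  · intro e
    have h1 : s = t := congrArg Sigma.fst e
    subst h1
    refine ⟨rfl, ?_⟩
    have h2 : (QuotientGroup.mk g : Art M ⧸ ap M ({s}ᶜ : Set B)) = QuotientGroup.mk h :=
      eq_of_heq (Sigma.mk.inj_iff.1 e).2
    exact QuotientGroup.eq.1 h2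
  · rintro ⟨rfl, h2⟩
    exact congrArg (Sigma.mk s) (QuotientGroup.eq.2 h2)

theorem exists_av (x : AV M) : ∃ g, x = av M x.1 g := by
  obtain ⟨s, q⟩ := x
  obtain ⟨g, rfl⟩ := QuotientGroup.mk_surjective q
  exact ⟨g, rfl⟩

theorem aj_iff {s t : B} {g h : Art M} : AJ (av M s g) (av M t h) ↔ Mt M ({s}ᶜ : Set B) ({t}ᶜ : Set B) g h := by
  unfold AJ Mt
  simp only [av_fst, av_eq_iff, true_and]

theorem aj_symm {x y : AV M} (h : AJ x y) : AJ y x := by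
  obtain ⟨g, h1, h2⟩ := h
  exact ⟨g, h2, h1⟩

theorem aj_refl (x : AV M) : AJ x x := by
  obtain ⟨g, h⟩ := exists_av x
  exact ⟨g, h, h⟩

theorem aj_same {x y : AV M} (h : AJ x y) (h' : x.1 = y.1) : x = y := by
  obtain ⟨g, h1, h2⟩ := h
  rw [h1, h2, h']

theorem aj_fill {x y : AV M} (h : AJ x y) (t : B) : ∃ v : AV M, v.1 = t ∧ AJ v x ∧ AJ v y := by
  obtain ⟨g, h1, h2⟩ := h
  exact ⟨av M t g, rfl, ⟨g, rfl, h1⟩, ⟨g, rfl, h2⟩⟩

/-- two elements of the same coset -/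
private theorem mem_of_av {x : AV M} {g h : Art M} (h1 : x = av M x.1 g) (h2 : x = av M x.1 h) :
    g⁻¹ * h ∈ ap M ({x.1}ᶜ : Set B) := (av_eq_iff.1 (h1.symm.trans h2)).2

private theorem av_of_mem {x : AV M} {g h : Art M} (h1 : x = av M x.1 g) (h2 : g⁻¹ * h ∈ ap M ({x.1}ᶜ : Set B)) :
    x = av M x.1 h := h1.trans (av_eq_iff.2 ⟨rfl, h2⟩)

theorem aj_flag {x y z : AV M} (h1 : AJ x y) (h2 : AJ y z) (h3 : AJ x z) :
    ∃ g, x = av M x.1 g ∧ y = av M y.1 g ∧ z = av M z.1 g := by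
  obtain ⟨g₁, a1, a2⟩ := h1
  obtain ⟨g₂, b1, b2⟩ := h2
  obtain ⟨g₃, c1, c2⟩ := h3
  obtain ⟨g, d1, d2, d3⟩ := flag ({x.1}ᶜ : Set B) ({y.1}ᶜ : Set B) ({z.1}ᶜ : Set B) (a := g₁) (b := g₁) (c := g₂)
    (x := g₁) (y := g₂) (z := g₃) (mem_of_av a1 a1) (mem_of_av a2 a2) (mem_of_av a2 b1) (mem_of_av b2 b2)
    (mem_of_av a1 c1) (mem_of_av b2 c2)
  exact ⟨g, av_of_mem a1 d1, av_of_mem a2 d2, av_of_mem b2 d3⟩

private theorem mem_diff {v x : AV M} {t b : B} (hv : v.1 = t) (hx : x.1 = b) {g h : Art M} (h1 : v = av M v.1 g) (h2 : v = av M v.1 h)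
    (h3 : x = av M x.1 g) (h4 : x = av M x.1 h) : g⁻¹ * h ∈ ap M (({t}ᶜ : Set B) \ {b}) := by
  rw [Set.sdiff_eq, ← ap_inter, ← hv, ← hx]
  exact ⟨mem_of_av h1 h2, mem_of_av h3 h4⟩

/-- links of the coset complex -/
theorem aj_lk {t b c : B} (hF : FC M ({t}ᶜ : Set B) b c) {v x y z w : AV M} (hv : v.1 = t) (hvx : AJ v x) (hvy : AJ v y)
    (hvz : AJ v z) (hvw : AJ v w) (hx : x.1 = b) (hy : y.1 = c) (hxy : AJ x y) (hyz : AJ y z) (hzw : AJ z w) (hwx : AJ w x) :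
    AJ x z ∨ AJ y w := by
  obtain ⟨e, e1, e2, e3⟩ := aj_flag hvx hxy hvy
  obtain ⟨f, f1, f2, f3⟩ := aj_flag hvy hyz hvz
  obtain ⟨g, g1, g2, g3⟩ := aj_flag hvz hzw hvw
  obtain ⟨h, h1, h2, h3⟩ := aj_flag hvw hwx hvx
  rcases hF (({t}ᶜ : Set B) \ {z.1}) (({t}ᶜ : Set B) \ {w.1}) e e g g Set.sdiff_subset Set.sdiff_subset
    ⟨e, by rw [inv_mul_cancel]; exact one_mem _, by rw [inv_mul_cancel]; exact one_mem _⟩
    ⟨f, mem_diff hv hy e1 f1 e3 f2, mem_diff hv rfl g1 f1 g2 f3⟩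
    ⟨g, by rw [inv_mul_cancel]; exact one_mem _, by rw [inv_mul_cancel]; exact one_mem _⟩
    ⟨h, mem_diff hv rfl g1 h1 g3 h2, mem_diff hv hx e1 h1 e2 h3⟩ with ⟨q, q1, q2⟩ | ⟨q, q1, q2⟩
  · left
    exact ⟨q, av_of_mem e2 (by rw [hx]; exact ap_mono (fun _ h => h.2) q1), av_of_mem g2 (ap_mono (fun _ h => h.2) q2)⟩
  · right
    exact ⟨q, av_of_mem e3 (by rw [hy]; exact ap_mono (fun _ h => h.2) q1), av_of_mem g3 (ap_mono (fun _ h => h.2) q2)⟩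

end Pool.Agent.H54.TF
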