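import Pool.Agent.H54.TF.Av
import Pool.Agent.H54.CX.Main

/-!
# [H54 TF UCX] The complex of three types: definition, connectedness (45 min)

`ucx M U`: the vertices of the coset complex with a type in `U`. `av_adj`: two vertices containing `g` are equal or adjacent. `ucx_conn`: let `Z = av z g₀`, `z ∉ {p, q, r}`, `x`, `y` adjacent to `Z`:
`x = av x.1 g`, `y = av y.1 g'` with `g`, `g'` in the coset `Z` (`aj_iff`, `av_eq_iff`), `g' = g k`, `k ∈ ap {z}ᶜ`. Claim: for `k ∈ ap {z}ᶜ`, any `s, t ∈ {p, q, r}`: `av s g` and `av t (g k)` are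
joined by `ReflTransGen`. `ap_induction`: `k = 1`: one step (or equal). `k → k σ_i^(±1)`, `i ≠ z`: choose `t' ∈ {p, q, r}`, `t' ≠ i`: `av t' (g k) = av t' (g k σ_i)` (as `σ_i ∈ ap {t'}ᶜ`); from `av s g` to
`av t' (g k)`, then to `av t (g k σ_i)`. All vertices contain an element of the coset `Z`, so they are adjacent to `Z`.
-/

set_option autoImplicit false

namespace Pool.Agent.H54.TF

open CoxeterSystem Pool.H8.CDW Pool.Agent.H52.PAG Pool.Agent.H75.INF Pool.Agent.H54.CX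

variable {B : Type} (M : CoxeterMatrix B)

/-- the complex of the vertices with types in `U` -/
noncomputable def ucx (U : Set B) : Cpx {v : AV M // v.1 ∈ U} where
  Edge x y := x ≠ y ∧ AJ x.1 y.1
  Tri x y z := (x ≠ y ∧ y ≠ z ∧ x ≠ z) ∧ AJ x.1 y.1 ∧ AJ y.1 z.1 ∧ AJ x.1 z.1
  len _ _ := 1
  ne _ _ h := h.1
  symm _ _ h := ⟨h.1.symm, aj_symm h.2⟩
  edge _ _ _ h := ⟨h.1.1, h.2.1⟩
  rot _ _ _ h := ⟨⟨h.1.2.1, h.1.2.2.symm, h.1.1.symm⟩, h.2.2.1, aj_symm h.2.2.2, aj_symm h.2.1⟩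
  swap _ _ _ h := ⟨⟨h.1.1.symm, h.1.2.2, h.1.2.1⟩, aj_symm h.2.1, h.2.2.2, h.2.2.1⟩
  len_symm _ _ _ := rfl
  pos _ _ _ := one_pos
  lt _ _ _ _ := by norm_num

variable {M}

private theorem av_mul {s : B} {g k : Art M} (hk : k ∈ ap M ({s}ᶜ : Set B)) : av M s g = av M s (g * k) := by
  rw [av_eq_iff]
  refine ⟨rfl, ?_⟩
  rw [inv_mul_cancel_left]
  exact hk

private theorem one_step {U : Set B} {Z : AV M} {h : Art M} (hZ : Z = av M Z.1 h) {s t : B} (hs : s ∈ U) (ht : t ∈ U) :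
    Relation.ReflTransGen (fun a b : {v : AV M // v.1 ∈ U} => (a ≠ b ∧ AJ a.1 b.1) ∧ AJ b.1 Z)
      ⟨av M s h, hs⟩ ⟨av M t h, ht⟩ := by
  by_cases e : s = t
  · subst e
    exact Relation.ReflTransGen.refl
  · refine Relation.ReflTransGen.single ⟨⟨?_, h, rfl, rfl⟩, h, rfl, hZ⟩
    intro h'
    exact e (congrArg (fun v : {v : AV M // v.1 ∈ U} => v.1.1) h')

theorem ucx_conn {p q r : B} (hpq : p ≠ q) (hqr : q ≠ r) (hpr : p ≠ r) (Z : AV M) (hZ : Z.1 ∉ ({p, q, r} : Set B))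
    (x y : {v : AV M // v.1 ∈ ({p, q, r} : Set B)}) (hx : AJ x.1 Z) (hy : AJ y.1 Z) :
    Relation.ReflTransGen (fun a b : {v : AV M // v.1 ∈ ({p, q, r} : Set B)} => (a ≠ b ∧ AJ a.1 b.1) ∧ AJ b.1 Z) x y := by
  obtain ⟨g, hxg, hZg⟩ := hx
  obtain ⟨g', hyg, hZg'⟩ := hy
  have hk : g⁻¹ * g' ∈ ap M ({Z.1}ᶜ : Set B) := (av_eq_iff.1 (hZg.symm.trans hZg')).2
  -- another type
  have hoth : ∀ i : B, ∃ t, t ∈ ({p, q, r} : Set B) ∧ i ∈ ({t}ᶜ : Set B) := by
    intro i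
    by_cases e : i = p
    · exact ⟨q, by simp, by rw [e]; exact hpq⟩
    · exact ⟨p, by simp, e⟩
  have key : ∀ k, k ∈ ap M ({Z.1}ᶜ : Set B) → ∀ s t : B, ∀ (hs : s ∈ ({p, q, r} : Set B)) (ht : t ∈ ({p, q, r} : Set B)),
      Relation.ReflTransGen (fun a b : {v : AV M // v.1 ∈ ({p, q, r} : Set B)} => (a ≠ b ∧ AJ a.1 b.1) ∧ AJ b.1 Z)
        ⟨av M s g, hs⟩ ⟨av M t (g * k), ht⟩ := by
    intro k hk
    refine ap_induction (K := ({Z.1}ᶜ : Set B)) (P := fun k => ∀ s t : B, ∀ (hs : s ∈ ({p, q, r} : Set B)) (ht : t ∈ ({p, q, r} : Set B)),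
      Relation.ReflTransGen (fun a b : {v : AV M // v.1 ∈ ({p, q, r} : Set B)} => (a ≠ b ∧ AJ a.1 b.1) ∧ AJ b.1 Z)
        ⟨av M s g, hs⟩ ⟨av M t (g * k), ht⟩) ?_ ?_ ?_ hk
    · intro s t hs ht
      rw [mul_one]
      exact one_step hZg hs ht
    · intro w hw i hi ih s t hs ht
      obtain ⟨t', ht', hit⟩ := hoth i
      refine (ih s t' hs ht').trans ?_
      have e : av M t' (g * w) = av M t' (g * (w * gen M i)) := by
        rw [← mul_assoc]
        exact av_mul (gen_mem_ap hit)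
      have hZ' : Z = av M Z.1 (g * (w * gen M i)) := by
        rw [← av_mul (mul_mem hw (gen_mem_ap hi))]
        exact hZg
      have h1 := one_step hZ' ht' ht
      rw [Subtype.mk_eq_mk.2 e]
      exact h1
    · intro w hw i hi ih s t hs ht
      obtain ⟨t', ht', hit⟩ := hoth i
      refine (ih s t' hs ht').trans ?_
      have e : av M t' (g * w) = av M t' (g * (w * (gen M i)⁻¹)) := by
        rw [← mul_assoc]
        exact av_mul (inv_mem (gen_mem_ap hit))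
      have hZ' : Z = av M Z.1 (g * (w * (gen M i)⁻¹)) := by
        rw [← av_mul (mul_mem hw (inv_mem (gen_mem_ap hi)))]
        exact hZg
      have h1 := one_step hZ' ht' ht
      rw [Subtype.mk_eq_mk.2 e]
      exact h1
  have h1 := key _ hk x.1.1 y.1.1 x.2 y.2
  rw [mul_inv_cancel_left] at h1
  have ex : x = ⟨av M x.1.1 g, x.2⟩ := Subtype.ext hxg
  have ey : y = ⟨av M y.1.1 g', y.2⟩ := Subtype.ext hyg
  rw [ex, ey]
  exact h1

end Pool.Agent.H54.TF
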