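import Pool.Agent.H54.TF.Ucx
import Pool.Agent.H34.BD.SC

/-!
# [H54 TF USC] The complex of three types is simply connected (90 min)

`X = ucx M {p, q, r}`. Template: `H56/DC/SC.lean` (the same argument for the Deligne complex; classes of edge paths `Cls X`, `PC X a b q`, `sc_iff`, `Cls.stay`, `back`, `tri`,
`PC.step_back`, ..., `H54/CX/PC.lean`, `Mon.lean`). Write `P g`, `Q g`, `R g` for the vertices of type `p`, `q`, `r` which contain `g`; they are a triangle.
Consider the pairs `(g, κ)`, `κ` the class of a path from `P 1` to `P g`. The generator `i` acts: `(g, κ) ↦ (g σ_i, κ)` if `i ≠ p` (`P (g σ_i) = P g`), and `(g, κ) ↦ (g σ_p, κ * pt (Q g) * pt (P (g σ_p)))` if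
`i = p` (`Q (g σ_p) = Q g`). The inverse: the same with `σ_p⁻¹`. Braid relation for `i, j` with `M i j ≠ 0`: choose `s ∈ {p, q, r}` different from `i` and `j`. If `s = p` nothing happens. If `s ∈ {q, r}`
then the vertex `S g` of type `s` is constant along the word, and `κ * pt (Q g) * pt (P (g σ_p)) = κ * pt (S g) * pt (P (g σ_p))` (if `s = r`: the triangles `P g, Q g, R g` and
`P (g σ_p), Q g, R g`: both are homotopic to `κ * pt (Q g) * pt (R g) * pt (P (g σ_p))`). So after the alternating word the class is `κ * pt (S g) * pt (P (g'))`, `g'` the end (`back`); the same for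
the other word. By the universal property of `Art M` (`lift`) the Artin group acts (on the right: use the opposite group or `Equiv.Perm` with inverses as in `H56/DC/SC.lean`), and there is
a function `κ : Art M → Cls X` with `PC X (P 1) (P g) (κ g)`, `κ 1 = pt (P 1)`, `κ (g σ_i) = κ g` (`i ≠ p`), `κ (g σ_p) = κ g * pt (Q g) * pt (P (g σ_p))`.
CLAIM: for every vertex `v = av s g` and every path from `P 1` to `v` the class is `κ g * pt v`. (a) `κ g * pt v` depends only on `v`: `κ (g k) * pt v = κ g * pt v` for `k ∈ ap {s}ᶜ`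
(`ap_induction`; letter `i ≠ s`: if `i ≠ p` clear; `i = p`, `s ≠ p`: `κ g * pt (Q g) * pt (P (g σ_p)) * pt v = κ g * pt v` by triangles, `v ∋ g, g σ_p`). (b) Induction on the path: from `v` to an adjacent
`v'`, common element `g`: `κ g * pt v * pt v' = κ g * pt v'` (triangle `P g, v, v'` or degenerate). So a closed path at `P 1` has the class `κ 1 * pt (P 1) = pt (P 1)`. Connectedness: as in
`ucx_conn` without `Z`. Other base points: `sc_iff` or conjugation by a path (see how `dcx_sc` ends).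
-/

set_option autoImplicit false

namespace Pool.Agent.H54.TF

open CoxeterSystem Pool.H8.CDW Pool.Agent.H52.PAG Pool.Agent.H75.INF Pool.Agent.H54.CX

variable {B : Type} {M : CoxeterMatrix B}

section general

variable {U : Set B}

/-- the vertex of type `s` which contains `g` -/
private def vt (s : U) (g : Art M) : {v : AV M // v.1 ∈ U} := ⟨av M s.1 g, s.2⟩

/-- the class of a vertex -/
private noncomputable def pp (v : {v : AV M // v.1 ∈ U}) : Cls (ucx M U) := Cls.pt (ucx M U) v

private theorem near_of_aj {x y : {v : AV M // v.1 ∈ U}} (h : AJ x.1 y.1) : (ucx M U).Near x y := by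
  by_cases hxy : x = y
  · exact Or.inl hxy
  · exact Or.inr ⟨hxy, h⟩

private theorem aj_of_near {x y : {v : AV M // v.1 ∈ U}} (h : (ucx M U).Near x y) : AJ x.1 y.1 := by
  rcases h with h | h
  · rw [h]
    exact aj_refl _
  · exact h.2

private theorem tri3 {x y z : {v : AV M // v.1 ∈ U}} (h1 : AJ x.1 y.1) (h2 : AJ y.1 z.1) (h3 : AJ x.1 z.1) :
    pp x * pp y * pp z = pp x * pp z := by
  by_cases e1 : x = y
  · rw [e1]
    unfold pp
    rw [Cls.stay]
  · by_cases e2 : y = z
    · rw [e2]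
      unfold pp
      rw [mul_assoc, Cls.stay]
    · by_cases e3 : x = z
      · subst e3
        unfold pp
        rw [Cls.stay]
        exact Cls.back ⟨e1, h1⟩
      · exact Cls.tri ⟨⟨e1, e2, e3⟩, h1, h2, h3⟩

private theorem aj_vt (s t : U) (g : Art M) : AJ (vt s g).1 (vt t g).1 := ⟨g, rfl, rfl⟩

private theorem vt_mul {s : U} {i : B} (h : i ≠ s.1) (g : Art M) : vt s (g * gen M i) = vt s g := by
  refine Subtype.ext (av_eq_iff.2 ⟨rfl, ?_⟩)
  have e : (g * gen M i)⁻¹ * g = (gen M i)⁻¹ := by group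
  rw [e]
  exact inv_mem (gen_mem_ap h)

private theorem vt_mul_inv {s : U} {i : B} (h : i ≠ s.1) (g : Art M) : vt s (g * (gen M i)⁻¹) = vt s g := by
  have h1 := vt_mul h (g * (gen M i)⁻¹)
  rw [inv_mul_cancel_right] at h1
  exact h1.symm

/-- the vertex contains the element -/
private def Mm (x : Art M) (v : {v : AV M // v.1 ∈ U}) : Prop := v.1 = av M v.1.1 x

private theorem mm_vt (s : U) (g : Art M) : Mm g (vt s g) := rfl

private theorem aj_of_mm {x : Art M} {u v : {v : AV M // v.1 ∈ U}} (hu : Mm x u) (hv : Mm x v) : AJ u.1 v.1 :=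
  ⟨x, hu, hv⟩

private theorem exists_mm (v : {v : AV M // v.1 ∈ U}) : ∃ x, Mm x v := exists_av v.1

private theorem mm_mul {x : Art M} {v : {v : AV M // v.1 ∈ U}} {i : B} (h : i ≠ v.1.1) (hv : Mm x v) :
    Mm (x * gen M i) v := by
  have h1 : av M v.1.1 x = av M v.1.1 (x * gen M i) := by
    refine av_eq_iff.2 ⟨rfl, ?_⟩
    rw [inv_mul_cancel_left]
    exact gen_mem_ap h
  exact hv.trans h1

private theorem mm_mul_inv {x : Art M} {v : {v : AV M // v.1 ∈ U}} {i : B} (h : i ≠ v.1.1) (hv : Mm x v) :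
    Mm (x * (gen M i)⁻¹) v := by
  have h1 : av M v.1.1 x = av M v.1.1 (x * (gen M i)⁻¹) := by
    refine av_eq_iff.2 ⟨rfl, ?_⟩
    rw [inv_mul_cancel_left]
    exact inv_mem (gen_mem_ap h)
  exact hv.trans h1

variable (hU : ∀ i j : B, ∃ s : U, i ≠ s.1 ∧ j ≠ s.1) (p : U)

/-- a type different from `i` -/
private noncomputable def sel (i : B) : U := (hU i i).choose

private theorem sel_ne (i : B) : i ≠ (sel hU i).1 := (hU i i).choose_spec.1

/-- paths from the base vertex -/
private def PS (M : CoxeterMatrix B) (p : U) : Type :=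
  {x : Art M × Cls (ucx M U) // PC (ucx M U) (vt p 1) (vt p x.1) x.2}

/-- the step with the generator `i` from `a` to `b` -/
private noncomputable def stp (i : B) (b a : Art M) (q : Cls (ucx M U)) : Cls (ucx M U) :=
  q * pp (vt (sel hU i) a) * pp (vt p b)

variable {p}

private theorem stp_pc {i : B} {a b : Art M} (h : vt (sel hU i) b = vt (sel hU i) a) {q : Cls (ucx M U)}
    (hq : PC (ucx M U) (vt p 1) (vt p a) q) : PC (ucx M U) (vt p 1) (vt p b) (stp hU p i b a q) := by
  refine (hq.step (near_of_aj (aj_vt _ _ a))).step (near_of_aj ?_)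
  rw [← h]
  exact aj_vt _ _ b

private theorem stp_stp {i : B} {a b : Art M} (h : vt (sel hU i) b = vt (sel hU i) a) {q : Cls (ucx M U)}
    (hq : PC (ucx M U) (vt p 1) (vt p a) q) : stp hU p i a b (stp hU p i b a q) = q := by
  unfold stp
  rw [h]
  have h1 : pp (vt (sel hU i) a) * pp (vt p b) * pp (vt (sel hU i) a) = pp (vt (sel hU i) a) := by
    rw [tri3 (x := vt (sel hU i) a) (y := vt p b) (z := vt (sel hU i) a) ?_ ?_ (aj_refl _)]
    · exact Cls.stay _
    · rw [← h]
      exact aj_vt _ _ b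
    · rw [← h]
      exact aj_vt _ _ b
  calc q * pp (vt (sel hU i) a) * pp (vt p b) * pp (vt (sel hU i) a) * pp (vt p a)
      = q * (pp (vt (sel hU i) a) * pp (vt p b) * pp (vt (sel hU i) a)) * pp (vt p a) := by
        simp only [mul_assoc]
    _ = q * pp (vt (sel hU i) a) * pp (vt p a) := by rw [h1]
    _ = q := hq.step_back (near_of_aj (aj_vt _ _ a))

/-- a step does not change the class of the path continued to a vertex which contains both elements -/
private theorem stp_pt {i : B} {a b : Art M} (h : vt (sel hU i) b = vt (sel hU i) a)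
    {v : {v : AV M // v.1 ∈ U}} (ha : Mm a v) (hb : Mm b v) {q : Cls (ucx M U)}
    (hq : PC (ucx M U) (vt p 1) (vt p a) q) : stp hU p i b a q * pp v = q * pp v := by
  unfold stp
  have h1 : pp (vt (sel hU i) a) * pp (vt p b) * pp v = pp (vt (sel hU i) a) * pp v := by
    refine tri3 ?_ (aj_of_mm (mm_vt _ b) hb) (aj_of_mm (mm_vt _ a) ha)
    rw [← h]
    exact aj_vt _ _ b
  have h2 : pp (vt p a) * pp (vt (sel hU i) a) * pp v = pp (vt p a) * pp v :=
    tri3 (aj_vt _ _ a) (aj_of_mm (mm_vt _ a) ha) (aj_of_mm (mm_vt _ a) ha)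
  have h3 : q * pp (vt p a) = q := hq.mul_pt
  calc q * pp (vt (sel hU i) a) * pp (vt p b) * pp v
      = q * (pp (vt (sel hU i) a) * pp (vt p b) * pp v) := by simp only [mul_assoc]
    _ = q * pp (vt p a) * (pp (vt (sel hU i) a) * pp v) := by rw [h1, h3]
    _ = q * (pp (vt p a) * pp (vt (sel hU i) a) * pp v) := by simp only [mul_assoc]
    _ = q * pp (vt p a) * pp v := by rw [h2, ← mul_assoc]
    _ = q * pp v := by rw [h3]

/-- the permutation of a generator -/
private noncomputable def prm (i : B) : Equiv.Perm (PS M p) where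
  toFun x := ⟨(x.1.1 * gen M i, stp hU p i (x.1.1 * gen M i) x.1.1 x.1.2),
    stp_pc hU (vt_mul (sel_ne hU i) _) x.2⟩
  invFun x := ⟨(x.1.1 * (gen M i)⁻¹, stp hU p i (x.1.1 * (gen M i)⁻¹) x.1.1 x.1.2),
    stp_pc hU (vt_mul_inv (sel_ne hU i) _) x.2⟩
  left_inv x := by
    obtain ⟨⟨a, q⟩, hq⟩ := x
    apply Subtype.ext
    have e : a * gen M i * (gen M i)⁻¹ = a := mul_inv_cancel_right _ _
    change (a * gen M i * (gen M i)⁻¹, stp hU p i (a * gen M i * (gen M i)⁻¹) (a * gen M i)
      (stp hU p i (a * gen M i) a q)) = (a, q)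
    rw [e, stp_stp hU (vt_mul (sel_ne hU i) _) hq]
  right_inv x := by
    obtain ⟨⟨a, q⟩, hq⟩ := x
    apply Subtype.ext
    have e : a * (gen M i)⁻¹ * gen M i = a := inv_mul_cancel_right _ _
    change (a * (gen M i)⁻¹ * gen M i, stp hU p i (a * (gen M i)⁻¹ * gen M i) (a * (gen M i)⁻¹)
      (stp hU p i (a * (gen M i)⁻¹) a q)) = (a, q)
    rw [e, stp_stp hU (vt_mul_inv (sel_ne hU i) _) hq]

/-- alternating words which stay in a coset -/
private theorem alt_star (v : {v : AV M // v.1 ∈ U}) {i j : B} (hi : i ≠ v.1.1) (hj : j ≠ v.1.1) (n : ℕ)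
    (x : PS M p) (hx : Mm x.1.1 v) :
    ((MulOpposite.unop (alt (MulOpposite.op (prm hU i)) (MulOpposite.op (prm hU j)) n) :
        Equiv.Perm (PS M p)) x).1.1 = x.1.1 * alt (gen M i) (gen M j) n ∧
      Mm ((MulOpposite.unop (alt (MulOpposite.op (prm hU i)) (MulOpposite.op (prm hU j)) n) :
        Equiv.Perm (PS M p)) x).1.1 v ∧
      ((MulOpposite.unop (alt (MulOpposite.op (prm hU i)) (MulOpposite.op (prm hU j)) n) :
        Equiv.Perm (PS M p)) x).1.2 * pp v = x.1.2 * pp v := by
  induction n generalizing i j x with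
  | zero => exact ⟨(mul_one _).symm, hx, rfl⟩
  | succ n ih =>
    have e2 : (prm hU i x).1.1 = x.1.1 * gen M i := rfl
    have e3 : (prm hU i x).1.2 = stp hU p i (x.1.1 * gen M i) x.1.1 x.1.2 := rfl
    have h0 : Mm (prm hU i x).1.1 v := by
      rw [e2]
      exact mm_mul hi hx
    obtain ⟨h1, h2, h3⟩ := ih hj hi (prm hU i x) h0
    have e1 : (MulOpposite.unop (alt (MulOpposite.op (prm hU i)) (MulOpposite.op (prm hU j)) (n + 1)) :
        Equiv.Perm (PS M p)) x =
        (MulOpposite.unop (alt (MulOpposite.op (prm hU j)) (MulOpposite.op (prm hU i)) n) :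
          Equiv.Perm (PS M p)) (prm hU i x) := rfl
    rw [e1]
    refine ⟨?_, h2, ?_⟩
    · rw [h1, e2]
      simp only [alt, mul_assoc]
    · rw [h3, e3]
      exact stp_pt hU (vt_mul (sel_ne hU i) _) hx (mm_mul hi hx) x.2

private theorem prm_rel {i j : B} (hM : M i j ≠ 0) :
    alt (MulOpposite.op (prm (M := M) (p := p) hU i)) (MulOpposite.op (prm hU j)) (M i j) =
      alt (MulOpposite.op (prm hU j)) (MulOpposite.op (prm hU i)) (M i j) := by
  apply MulOpposite.unop_injective
  ext1 x
  obtain ⟨s, hi, hj⟩ := hU i j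
  obtain ⟨h1, h1m, h2⟩ := alt_star hU (vt s x.1.1) (i := i) (j := j) hi hj (M i j) x (mm_vt _ _)
  obtain ⟨h3, h3m, h4⟩ := alt_star hU (vt s x.1.1) (i := j) (j := i) hj hi (M i j) x (mm_vt _ _)
  generalize (MulOpposite.unop (alt (MulOpposite.op (prm (M := M) (p := p) hU i))
    (MulOpposite.op (prm hU j)) (M i j)) : Equiv.Perm (PS M p)) x = u at *
  generalize (MulOpposite.unop (alt (MulOpposite.op (prm (M := M) (p := p) hU j))
    (MulOpposite.op (prm hU i)) (M i j)) : Equiv.Perm (PS M p)) x = v at *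
  obtain ⟨⟨a, q⟩, hq⟩ := u
  obtain ⟨⟨b, r⟩, hr⟩ := v
  have h1' : a = x.1.1 * alt (gen M i) (gen M j) (M i j) := h1
  have h3' : b = x.1.1 * alt (gen M j) (gen M i) (M i j) := h3
  have e : a = b := by
    rw [h1', h3', gen_rel hM]
  subst e
  have h1m' : Mm a (vt s x.1.1) := h1m
  have h5 : (ucx M U).Near (vt p a) (vt s x.1.1) := near_of_aj (aj_of_mm (mm_vt _ a) h1m')
  have h6 : q = r := by
    have h7 : q * pp (vt s x.1.1) * pp (vt p a) = q := hq.step_back h5
    have h8 : r * pp (vt s x.1.1) * pp (vt p a) = r := hr.step_back h5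
    have h2' : q * pp (vt s x.1.1) = x.1.2 * pp (vt s x.1.1) := h2
    have h4' : r * pp (vt s x.1.1) = x.1.2 * pp (vt s x.1.1) := h4
    rw [← h7, ← h8, h2', h4']
  subst h6
  rfl

/-- the action of the Artin group on the paths -/
private noncomputable def act (p : U) : Art M →* (Equiv.Perm (PS M p))ᵐᵒᵖ :=
  Pool.Agent.H52.PAG.lift (fun i => MulOpposite.op (prm hU i)) fun _ _ h => prm_rel hU h

/-- the path of an element -/
private noncomputable def cp (p : U) (x : Art M) : PS M p :=
  (MulOpposite.unop (act hU p x)) ⟨(1, pp (vt p 1)), PC.base⟩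

private theorem cp_one (p : U) : cp hU p (1 : Art M) = ⟨(1, pp (vt p 1)), PC.base⟩ := by
  rw [cp, map_one]
  rfl

private theorem cp_mul_gen (x : Art M) (i : B) : cp hU p (x * gen M i) = prm hU i (cp hU p x) := by
  rw [cp, map_mul]
  have : act hU p (gen M i) = MulOpposite.op (prm hU i) := lift_gen _ _ i
  rw [this]
  rfl

private theorem cp_fst (x : Art M) : (cp hU p x).1.1 = x := by
  induction x using art_induction with
  | h1 => rw [cp_one]
  | h2 x i h =>
    rw [cp_mul_gen]
    change (cp hU p x).1.1 * gen M i = _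
    rw [h]
  | h3 x i h =>
    have h1 := cp_mul_gen hU (p := p) (x * (gen M i)⁻¹) i
    rw [inv_mul_cancel_right] at h1
    rw [h1] at h
    have h2 : (cp hU p (x * (gen M i)⁻¹)).1.1 * gen M i = x := h
    rw [eq_mul_inv_iff_mul_eq]
    exact h2

/-- the class of the path of an element -/
private noncomputable def cq (p : U) (x : Art M) : Cls (ucx M U) := (cp hU p x).1.2

private theorem cq_one (p : U) : cq hU p (1 : Art M) = pp (vt p 1) := by
  rw [cq, cp_one]

private theorem cq_pc (x : Art M) : PC (ucx M U) (vt p 1) (vt p x) (cq hU p x) := by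
  have := (cp hU p x).2
  rw [cp_fst] at this
  exact this

private theorem cq_mul_gen (x : Art M) (i : B) :
    cq hU p (x * gen M i) = stp hU p i (x * gen M i) x (cq hU p x) := by
  rw [cq, cp_mul_gen]
  change stp hU p i ((cp hU p x).1.1 * gen M i) (cp hU p x).1.1 (cp hU p x).1.2 = _
  rw [cp_fst]
  rfl

private theorem cq_gen {x : Art M} {v : {v : AV M // v.1 ∈ U}} {i : B} (h : i ≠ v.1.1) (hv : Mm x v) :
    cq hU p (x * gen M i) * pp v = cq hU p x * pp v := by
  rw [cq_mul_gen]
  exact stp_pt hU (vt_mul (sel_ne hU i) _) hv (mm_mul h hv) (cq_pc hU x)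

private theorem cq_indep {x y : Art M} {v : {v : AV M // v.1 ∈ U}} (hx : Mm x v) (hy : Mm y v) :
    cq hU p x * pp v = cq hU p y * pp v := by
  have h1 : x⁻¹ * y ∈ ap M ({v.1.1}ᶜ : Set B) := (av_eq_iff.1 (hx.symm.trans hy)).2
  have key : ∀ w ∈ ap M ({v.1.1}ᶜ : Set B),
      cq hU p x * pp v = cq hU p (x * w) * pp v ∧ Mm (x * w) v := by
    intro w hw
    refine ap_induction (P := fun w => cq hU p x * pp v = cq hU p (x * w) * pp v ∧ Mm (x * w) v) ?_ ?_ ?_ hw
    · rw [mul_one]
      exact ⟨rfl, hx⟩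
    · rintro w _ k hk ⟨h2, h3⟩
      rw [← mul_assoc]
      exact ⟨h2.trans (cq_gen hU hk h3).symm, mm_mul hk h3⟩
    · rintro w _ k hk ⟨h2, h3⟩
      rw [← mul_assoc]
      have h4 := mm_mul_inv hk h3
      refine ⟨?_, h4⟩
      have h5 := cq_gen hU (p := p) hk h4
      rw [inv_mul_cancel_right] at h5
      exact h2.trans h5
  have h2 := (key _ h1).1
  rwa [mul_inv_cancel_left] at h2

private theorem cq_step {x : Art M} {u v : {v : AV M // v.1 ∈ U}} (hu : Mm x u) (hv : Mm x v) :
    cq hU p x * pp u * pp v = cq hU p x * pp v := by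
  have h0 : cq hU p x * pp (vt p x) = cq hU p x := (cq_pc hU x).mul_pt
  have h1 : pp (vt p x) * pp u * pp v = pp (vt p x) * pp v :=
    tri3 (aj_of_mm (mm_vt _ x) hu) (aj_of_mm hu hv) (aj_of_mm (mm_vt _ x) hv)
  calc cq hU p x * pp u * pp v = cq hU p x * pp (vt p x) * pp u * pp v := by rw [h0]
    _ = cq hU p x * (pp (vt p x) * pp u * pp v) := by simp only [mul_assoc]
    _ = cq hU p x * pp (vt p x) * pp v := by rw [h1, ← mul_assoc]
    _ = cq hU p x * pp v := by rw [h0]

private theorem cq_path {v : {v : AV M // v.1 ∈ U}} {q : Cls (ucx M U)}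
    (h : PC (ucx M U) (vt p 1) v q) : ∀ x, Mm x v → q = cq hU p x * pp v := by
  induction h with
  | base =>
    intro x hx
    rw [cq_indep hU hx (mm_vt p 1), cq_one]
    exact (Cls.stay _).symm
  | @step v w q h h' ih =>
    obtain ⟨x, h1, h2⟩ := aj_of_near h'
    intro y hy
    rw [ih x h1]
    change cq hU p x * pp v * pp w = _
    rw [cq_step hU h1 h2, cq_indep hU h2 hy]

include hU in
private theorem ucx_sc_gen (p : U) : (ucx M U).SC := by
  refine Pool.Agent.H34.BD.sc_of_base (vt p 1) ?_ ?_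
  · intro v
    obtain ⟨x, hx⟩ := exists_mm v
    exact ⟨_, (cq_pc hU x).step (near_of_aj (aj_of_mm (mm_vt _ x) hx))⟩
  · intro q hq
    rw [cq_path hU hq 1 (mm_vt _ _), cq_one]
    exact Cls.stay _

end general

theorem ucx_sc {p q r : B} (hpq : p ≠ q) (hqr : q ≠ r) (hpr : p ≠ r) : (ucx M ({p, q, r} : Set B)).SC := by
  have hp : p ∈ ({p, q, r} : Set B) := Or.inl rfl
  have hq : q ∈ ({p, q, r} : Set B) := Or.inr (Or.inl rfl)
  have hr : r ∈ ({p, q, r} : Set B) := Or.inr (Or.inr rfl)
  refine ucx_sc_gen ?_ ⟨p, hp⟩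
  intro i j
  by_cases h1 : i = p ∨ j = p
  · by_cases h2 : i = q ∨ j = q
    · refine ⟨⟨r, hr⟩, ?_, ?_⟩
      · rintro rfl
        rcases h1 with h1 | h1
        · exact hpr h1.symm
        · rcases h2 with h2 | h2
          · exact hqr h2.symm
          · exact hpq (h1.symm.trans h2)
      · rintro rfl
        rcases h1 with h1 | h1
        · rcases h2 with h2 | h2
          · exact hpq (h1.symm.trans h2)
          · exact hqr h2.symm
        · exact hpr h1.symm
    · exact ⟨⟨q, hq⟩, fun h => h2 (Or.inl h), fun h => h2 (Or.inr h)⟩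
  · exact ⟨⟨p, hp⟩, fun h => h1 (Or.inl h), fun h => h1 (Or.inr h)⟩

end Pool.Agent.H54.TF
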