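import Pool.Agent.H54.TF.Gst
import Pool.Agent.H54.TF.Trf

/-!
# [H54 TF MAIN] All subsets (45 min)

Strong induction on `S.ncard` (`B` finite). Let `b, c ∈ S`, `3 ≤ M b c`.
(1) `S` not irreducible: there is `L ⊆ S`, nonempty, `≠ S`, with `M i j = 2` for all `i ∈ L`, `j ∈ S \ L`. `b`, `c` are both in `L` or both in `S \ L` (`M b c ≠ 2`). `gs_prod` with `S₁` the part which contains
`b`, `c` (`M.symmetric`), induction for `S₁` (smaller).
(2) `S` irreducible and triangle-free: hypothesis.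
(3) `S` has `p, q, r` with all labels `≥ 3`: `gs_res S univ`: it suffices `GS (resM M S) univ b c`: `gs_step` for `resM M S` with the hypothesis `GS (resM M S) {t}ᶜ b' c'`, which is
`GS M (S \ {t}) b' c'` by `gs_res` (`Subtype.val '' {t}ᶜ = S \ {t.1}`), true by induction.
(For `p = q` one has `M p q = 1`, so the three are different.)
-/

set_option autoImplicit false

namespace Pool.Agent.H54.TF

open CoxeterSystem Pool.H8.CDW Pool.Agent.H52.PAG Pool.Agent.H75.INF

variable {B : Type} (M : CoxeterMatrix B)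

/-- not the union of two nonempty sets with labels `2` between them -/
def Irr (S : Set B) : Prop := ∀ L ⊆ S, L.Nonempty → L ≠ S → ∃ i ∈ L, ∃ j ∈ S, j ∉ L ∧ M i j ≠ 2

/-- no three elements with labels at least `3` -/
def TFree (S : Set B) : Prop := ∀ i ∈ S, ∀ j ∈ S, ∀ k ∈ S, ¬ (3 ≤ M i j ∧ 3 ≤ M j k ∧ 3 ≤ M i k)

variable {M}

theorem gs_all [Finite B] (hM : ∀ i j, M i j ≠ 0)
    (h : ∀ T : Set B, Irr M T → TFree M T → ∀ b ∈ T, ∀ c ∈ T, 3 ≤ M b c → GS M T b c) (S : Set B) :
    ∀ b ∈ S, ∀ c ∈ S, 3 ≤ M b c → GS M S b c := by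
  induction hn : S.ncard using Nat.strong_induction_on generalizing S with
  | _ n ih =>
  intro b hb c hc hbc
  by_cases hI : Irr M S
  · by_cases hT : TFree M S
    · exact h S hI hT b hb c hc hbc
    · unfold TFree at hT
      push Not at hT
      obtain ⟨p, hp, q, hq, r, hr, h1, h2, h3⟩ := hT
      have e : Subtype.val '' (Set.univ : Set S) = S := by
        rw [Set.image_univ, Subtype.range_coe]
      have key : GS (resM M S) Set.univ ⟨b, hb⟩ ⟨c, hc⟩ := by
        refine gs_step (M := resM M S) (fun i j => hM i.1 j.1) (p := ⟨p, hp⟩) (q := ⟨q, hq⟩) (r := ⟨r, hr⟩) h1 h2 h3 ?_ hbc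
        intro t _ b' c' hb' hc' hbc'
        rw [gs_res S]
        have e2 : Subtype.val '' ({t}ᶜ : Set S) = S \ {t.1} := by
          ext x
          simp only [Set.mem_image, Set.mem_compl_iff, Set.mem_singleton_iff, Set.mem_sdiff]
          constructor
          · rintro ⟨y, hy, rfl⟩
            exact ⟨y.2, fun h' => hy (Subtype.ext h')⟩
          · rintro ⟨hx, hxt⟩
            exact ⟨⟨x, hx⟩, fun h' => hxt (congrArg Subtype.val h'), rfl⟩
        rw [e2]
        refine ih (S \ {t.1}).ncard ?_ (S \ {t.1}) rfl b'.1 ⟨b'.2, fun h' => hb' (Subtype.ext h')⟩ c'.1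
          ⟨c'.2, fun h' => hc' (Subtype.ext h')⟩ hbc'
        rw [← hn]
        exact Set.ncard_sdiff_singleton_lt_of_mem t.2 (Set.toFinite S)
      have := (gs_res S Set.univ ⟨b, hb⟩ ⟨c, hc⟩).1 key
      rwa [e] at this
  · unfold Irr at hI
    push Not at hI
    obtain ⟨L, hL, hne, hLS, h2⟩ := hI
    have hprod : ∀ S₁ S₂ : Set B, S₁ ∪ S₂ = S → Disjoint S₁ S₂ → S₁ ≠ S → (∀ i ∈ S₁, ∀ j ∈ S₂, M i j = 2) → b ∈ S₁ → c ∈ S₁ → GS M S b c := by
      intro S₁ S₂ hU hd hn1 hm hb1 hc1
      rw [← hU]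
      refine gs_prod hd hm hb1 hc1 (ih S₁.ncard ?_ S₁ rfl b hb1 c hc1 hbc)
      rw [← hn]
      exact Set.ncard_lt_ncard ((hU ▸ Set.subset_union_left : S₁ ⊆ S).ssubset_of_ne hn1) (Set.toFinite S)
    have hbc2 : M b c ≠ 2 := by omega
    by_cases hbL : b ∈ L
    · have hcL : c ∈ L := by
        by_contra hcL
        exact hbc2 (h2 b hbL c hc hcL)
      refine hprod L (S \ L) (Set.union_sdiff_cancel hL) Set.disjoint_sdiff_right hLS ?_ hbL hcL
      intro i hi j hj
      exact h2 i hi j hj.1 hj.2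
    · have hcL : c ∉ L := by
        intro hcL
        have := h2 c hcL b hb hbL
        rw [M.symmetric] at this
        exact hbc2 this
      refine hprod (S \ L) L ?_ Set.disjoint_sdiff_left ?_ ?_ ⟨hb, hbL⟩ ⟨hc, hcL⟩
      · rw [Set.union_comm]
        exact Set.union_sdiff_cancel hL
      · intro h'
        obtain ⟨x, hx⟩ := hne
        have : x ∈ S \ L := by
          rw [h']
          exact hL hx
        exact this.2 hx
      · intro i hi j hj
        rw [M.symmetric]
        exact h2 j hj i hi.1 hi.2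

end Pool.Agent.H54.TF
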