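import Pool.Agent.H54.TF.Trf
import Pool.Agent.H65.LR.GirInd
import Pool.Agent.H34.TG.Gs

/-!
# [H54 TF ADP] The condition `GS` and the girth

`gir_of_gs`, `gs_of_gir`: `GS M S b c` is the girth condition `Gir _ _ 3` of `H34/TG`. `gs_lr`: locally reducible sets (`H65/LR/GirInd`).
`gs_sph`: sets of finite type, from the theorem `SphG` of `H2/SPH`.
-/

set_option autoImplicit false

namespace Pool.Agent.H54.TF

open CoxeterSystem Pool.H8.CDW Pool.Agent.H52.PAG Pool.Agent.H75.INF Pool.Agent.H34.TG Pool.Agent.H65.LR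

/-- Artin groups of finite type: no four-cycles for joined pairs -/
def SphG : Prop := ∀ (B : Type) [Finite B] (M : CoxeterMatrix B), Finite M.Group → ∀ b c : B, b ≠ c → 3 ≤ M b c →
  ∀ x ∈ ap M ({b}ᶜ : Set B), ∀ x' ∈ ap M ({b}ᶜ : Set B), ∀ y ∈ ap M ({c}ᶜ : Set B), ∀ y' ∈ ap M ({c}ᶜ : Set B),
    y * x' = x * y' → x ∈ ap M ({b, c}ᶜ : Set B) ∨ y ∈ ap M ({b, c}ᶜ : Set B)

variable {B : Type} {M : CoxeterMatrix B}

theorem inter_sub {S : Set B} {b c : B} : ap M (S \ {b}) ⊓ ap M (S \ {c}) = ap M (S \ {b, c}) := by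
  rw [ap_inter]
  congr 1
  ext s
  simp only [Set.mem_inter_iff, Set.mem_sdiff, Set.mem_singleton_iff, Set.mem_insert_iff, not_or]
  tauto

theorem gir_of_gs {S : Set B} {b c : B} (h : GS M S b c) : Gir (ap M (S \ {b})) (ap M (S \ {c})) 3 := by
  intro x y k h0 h3 hx hy he
  obtain rfl | rfl : k = 1 ∨ k = 2 := by omega
  · exact gir_two _ _ x y 1 h0 (by norm_num) hx hy he
  · have e : x 0 * y 0 * x 1 * y 1 = 1 := by
      rw [← he]
      show _ = 1 * (x 0 * y 0) * (x 1 * y 1)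
      group
    rcases h (x 0) (hx 0 (by norm_num)).1 (x 1) (hx 1 (by norm_num)).1 (y 0) (hy 0 (by norm_num)).1 (y 1)
      (hy 1 (by norm_num)).1 e with h1 | h1
    · rw [← inter_sub] at h1
      exact (hx 0 (by norm_num)).2 h1.2
    · rw [← inter_sub] at h1
      exact (hy 0 (by norm_num)).2 h1.1

theorem gs_of_gir {S : Set B} {b c : B} {m : ℕ} (hm : 3 ≤ m) (h : Gir (ap M (S \ {b})) (ap M (S \ {c})) m) : GS M S b c := by
  intro x hx x' hx' y hy y' hy' he
  by_contra hcon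
  push Not at hcon
  obtain ⟨h1, h2⟩ := hcon
  rw [← inter_sub] at h1 h2
  have hxQ : x ∉ ap M (S \ {c}) := fun h3 => h1 ⟨hx, h3⟩
  have hyP : y ∉ ap M (S \ {b}) := fun h3 => h2 ⟨h3, hy⟩
  have hx'Q : x' ∉ ap M (S \ {c}) := by
    intro h3
    apply hxQ
    have e : x = (y * x' * y')⁻¹ := by
      apply eq_inv_of_mul_eq_one_left
      rw [← he]
      group
    rw [e]
    exact inv_mem (mul_mem (mul_mem hy h3) hy')
  have hy'P : y' ∉ ap M (S \ {b}) := by
    intro h3
    apply hyP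
    have e : y = x⁻¹ * (x' * y')⁻¹ := by
      have e1 : x * y * (x' * y') = 1 := by
        rw [← he]
        group
      have e2 : x * y = (x' * y')⁻¹ := eq_inv_of_mul_eq_one_left e1
      rw [← e2]
      group
    rw [e]
    exact mul_mem (inv_mem hx) (inv_mem (mul_mem hx' h3))
  refine h (fun r => if r = 0 then x else x') (fun r => if r = 0 then y else y') 2 (by norm_num) (by omega) ?_ ?_ ?_
  · intro r _
    by_cases hr : r = 0
    · simp only [if_pos hr]
      exact ⟨hx, hxQ⟩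
    · simp only [if_neg hr]
      exact ⟨hx', hx'Q⟩
  · intro r _
    by_cases hr : r = 0
    · simp only [if_pos hr]
      exact ⟨hy, hyP⟩
    · simp only [if_neg hr]
      exact ⟨hy', hy'P⟩
  · have e : (1 : Art M) * (x * y) * (x' * y') = x * y * x' * y' := by group
    exact e.trans he

theorem univ_diff {b : B} : (Set.univ \ {b} : Set B) = ({b}ᶜ : Set B) := (Set.compl_eq_univ_sdiff _).symm

theorem step_g : StepG := fun _ _ M a b c hab hbc hac h0 hs ga gb gc =>
  gir_step M hab hbc hac (h0 b c) (h0 a c) (h0 a b) hs ga gb gc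

/-- locally reducible sets -/
theorem gs_lr (T : Set B) [Finite T] (h0 : ∀ i ∈ T, ∀ j ∈ T, M i j ≠ 0) (hl : ∀ i ∈ T, ∀ j ∈ T, ∀ k ∈ T, i ≠ j → j ≠ k →
    i ≠ k → (M i j = 2 ∧ M j k = 2) ∨ (M j k = 2 ∧ M i k = 2) ∨ (M i j = 2 ∧ M i k = 2) ∨
      (1 : ℝ) / M i j + 1 / M j k + 1 / M i k ≤ 1) {b c : B} (hb : b ∈ T) (hc : c ∈ T) (hbc : 3 ≤ M b c) : GS M T b c := by
  have hne : b ≠ c := by
    intro h
    rw [h, M.diagonal] at hbc
    omega
  have h1 := gir_ind step_g _ T (resM M T) rfl (fun i j => h0 i.1 i.2 j.1 j.2) (fun i j k hij hjk hik =>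
    hl i.1 i.2 j.1 j.2 k.1 k.2 (fun e => hij (Subtype.ext e)) (fun e => hjk (Subtype.ext e))
      (fun e => hik (Subtype.ext e))) ⟨b, hb⟩ ⟨c, hc⟩ (fun e => hne (congrArg Subtype.val e))
  have h2 : GS (resM M T) Set.univ ⟨b, hb⟩ ⟨c, hc⟩ := by
    refine gs_of_gir (m := M b c) hbc ?_
    rw [univ_diff, univ_diff]
    exact h1
  rw [gs_res, Set.image_univ, Subtype.range_coe] at h2
  exact h2

/-- sets of finite type -/
theorem gs_sph (hS : SphG) (T : Set B) [Finite T] (hf : Finite (resM M T).Group) {b c : B} (hb : b ∈ T) (hc : c ∈ T)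
    (hbc : 3 ≤ M b c) : GS M T b c := by
  have hne : b ≠ c := by
    intro h
    rw [h, M.diagonal] at hbc
    omega
  have h2 : GS (resM M T) Set.univ ⟨b, hb⟩ ⟨c, hc⟩ := by
    intro x hx x' hx' y hy y' hy' he
    rw [univ_diff] at hx hx' hy hy'
    rw [← Set.compl_eq_univ_sdiff]
    have e : y * x' = x⁻¹ * y'⁻¹ := by
      have e1 : x * (y * x') * y' = 1 := by
        rw [← he]
        group
      have e2 : x * (y * x') = y'⁻¹ := eq_inv_of_mul_eq_one_left e1
      rw [← e2]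
      group
    rcases hS T (resM M T) hf ⟨b, hb⟩ ⟨c, hc⟩ (fun e => hne (congrArg Subtype.val e)) hbc x⁻¹ (inv_mem hx) x' hx' y hy y'⁻¹
      (inv_mem hy') e with h3 | h3
    · left
      have h4 := inv_mem h3
      rwa [inv_inv] at h4
    · exact Or.inr h3
  rw [gs_res, Set.image_univ, Subtype.range_coe] at h2
  exact h2

end Pool.Agent.H54.TF
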