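import Pool.Agent.H54.TF.Rng
import Pool.Agent.H75.INF.Ord

/-!
# [H54 TF LFT] Retractions and intersections (40 min)

Library: H75/INF `Cyp` (`IsCz.par_left`, `cy_mem`, `cy_base`, `toCox_mem`), `Coc` (`cy_spec : IsCz M K (gen M) (cy M K)`, with the fields `one`, `mul`, `on`,
`off`), `H75/INF/Ord` (`simple_inj`), `b1_simple`.
`pr_mul`: `mul`, `1 * toCox M g = toCox M g * 1`, `par_left`. `pr_mem`: `cy_mem`. `pr_self`: `cy_base`. `pr_inter`: `cy_range` with `u = w₁ = t = 1`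
(`IsL K 1`, `IsMin T 1`: no descents), the set is contained in `K ∩ T` by `simple_inj`; `ap_mono`. `ap_inter`: `x = pr K x` for `x ∈ ap K`; `ap_mono`.
`gs_symm`: from `x y x' y' = 1` (`x`, `x' ∈ ap (S \ {c})`, `y`, `y' ∈ ap (S \ {b})`) one has `y x' y' x = 1`; `GS M S b c` gives `y` or `x'` in `ap (S \ {b, c})`; in the second
case `x = (y x' y')⁻¹ ∈ ap (S \ {b})`, and `x ∈ ap (S \ {c})`: `ap_inter`.
`flag`: let `x` be in the first two cosets, `y` in the second and third, `z` in the first and third. `u = x⁻¹ z ∈ ap U`, `v = x⁻¹ y ∈ ap V`, `w = z⁻¹ y ∈ ap Y`,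
`v = u w`. `pr U v = u * pr U w` (`pr_mul`, `pr_self`), `pr U v ∈ ap (U ∩ V)`, `pr U w ∈ ap (U ∩ Y)`: `g = x * pr U v = z * pr U w`.
-/

set_option autoImplicit false

namespace Pool.Agent.H54.TF

open CoxeterSystem Pool.H8.CDW Pool.Agent.H52.PAG Pool.Agent.H75.INF

variable {B : Type} {M : CoxeterMatrix B}

theorem pr_mul {K : Set B} {g : Art M} (hg : toCox M g ∈ pw M K) (h : Art M) : pr M K (g * h) = pr M K g * pr M K h := by
  have hc := cy_spec M K
  unfold pr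
  rw [hc.mul, one_mul]
  have h1 := hc.par_left hg 1 h
  rw [mul_one] at h1
  rw [h1]

theorem pr_mem (K : Set B) (h : Art M) : pr M K h ∈ ap M K := cy_mem K 1 h

theorem pr_self {K : Set B} {h : Art M} (hh : h ∈ ap M K) : pr M K h = h := cy_base hh

/-- the retraction maps `ap T` to `ap (K ∩ T)` -/
theorem pr_inter {K T : Set B} {h : Art M} (hh : h ∈ ap M T) : pr M K h ∈ ap M (K ∩ T) := by
  have hT : IsMin M.toCoxeterSystem T (1 : M.Group) := by
    have h0 := (isL_iff M.toCoxeterSystem T (1 : M.Group)).1 (isL_one _ T)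
    rwa [inv_one] at h0
  have h1 := cy_range K T (u := (1 : M.Group)) (w₁ := (1 : M.Group)) (t := (1 : M.Group)) (one_mem _) (one_mem _)
    (isL_one _ K) hT hh
  rw [mul_one, mul_one] at h1
  refine ap_mono ?_ h1
  rintro k ⟨hk, l, hl, h2⟩
  rw [mul_one, one_mul] at h2
  have h3 := simple_inj M.toCoxeterSystem h2
  exact ⟨hk, h3 ▸ hl⟩

theorem ap_inter (K T : Set B) : ap M K ⊓ ap M T = ap M (K ∩ T) := by
  refine le_antisymm ?_ (le_inf (ap_mono Set.inter_subset_left) (ap_mono Set.inter_subset_right))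
  rintro x ⟨h1, h2⟩
  have h3 := pr_inter (K := K) h2
  rwa [pr_self h1] at h3

theorem gs_symm {S : Set B} {b c : B} (h : GS M S b c) : GS M S c b := by
  intro x hx x' hx' y hy y' hy' he
  have hcb : S \ {c, b} = S \ {b, c} := by rw [Set.pair_comm]
  rw [hcb]
  have e1 : y * x' * y' * x = 1 := by
    have e2 : y * x' * y' = x⁻¹ := by
      have e3 : x * (y * x' * y') = 1 := by rw [← he]; group
      exact eq_inv_of_mul_eq_one_right e3
    rw [e2, inv_mul_cancel]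
  rcases h y hy y' hy' x' hx' x hx e1 with h1 | h1
  · exact Or.inr h1
  · left
    have hsub : S \ {b, c} ⊆ S \ {b} := by
      rintro s ⟨hs, hn⟩
      exact ⟨hs, fun hb => hn (Or.inl hb)⟩
    have h2 : x ∈ ap M (S \ {b}) := by
      have e2 : x = (y * x' * y')⁻¹ := eq_inv_of_mul_eq_one_right e1
      rw [e2]
      exact inv_mem (mul_mem (mul_mem hy (ap_mono hsub h1)) hy')
    have h3 : x ∈ ap M (S \ {c}) ⊓ ap M (S \ {b}) := ⟨hx, h2⟩
    rw [ap_inter] at h3
    refine ap_mono ?_ h3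
    rintro s ⟨⟨hs, hc⟩, -, hb⟩
    refine ⟨hs, ?_⟩
    rintro (h4 | h4)
    · exact hb h4
    · exact hc h4

/-- three cosets of parabolic subgroups which intersect pairwise have a common element -/
theorem flag (U V Y : Set B) {a b c x y z : Art M} (h1 : a⁻¹ * x ∈ ap M U) (h2 : b⁻¹ * x ∈ ap M V) (h3 : b⁻¹ * y ∈ ap M V)
    (h4 : c⁻¹ * y ∈ ap M Y) (h5 : a⁻¹ * z ∈ ap M U) (h6 : c⁻¹ * z ∈ ap M Y) :
    ∃ g : Art M, a⁻¹ * g ∈ ap M U ∧ b⁻¹ * g ∈ ap M V ∧ c⁻¹ * g ∈ ap M Y := by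
  have hu : x⁻¹ * z ∈ ap M U := by
    have := mul_mem (inv_mem h1) h5
    have e : (a⁻¹ * x)⁻¹ * (a⁻¹ * z) = x⁻¹ * z := by group
    rwa [e] at this
  have hv : x⁻¹ * y ∈ ap M V := by
    have := mul_mem (inv_mem h2) h3
    have e : (b⁻¹ * x)⁻¹ * (b⁻¹ * y) = x⁻¹ * y := by group
    rwa [e] at this
  have hw : z⁻¹ * y ∈ ap M Y := by
    have := mul_mem (inv_mem h6) h4
    have e : (c⁻¹ * z)⁻¹ * (c⁻¹ * y) = z⁻¹ * y := by group
    rwa [e] at this
  have key : pr M U (x⁻¹ * y) = x⁻¹ * z * pr M U (z⁻¹ * y) := by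
    have e : x⁻¹ * y = (x⁻¹ * z) * (z⁻¹ * y) := by group
    rw [e, pr_mul (toCox_mem hu), pr_self hu]
  refine ⟨x * pr M U (x⁻¹ * y), ?_, ?_, ?_⟩
  · rw [← mul_assoc]
    exact mul_mem h1 (pr_mem U _)
  · rw [← mul_assoc]
    exact mul_mem h2 (ap_mono Set.inter_subset_right (pr_inter hv))
  · have e : c⁻¹ * (x * pr M U (x⁻¹ * y)) = (c⁻¹ * z) * pr M U (z⁻¹ * y) := by
      rw [key]
      group
    rw [e]
    exact mul_mem h6 (ap_mono Set.inter_subset_right (pr_inter hw))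

end Pool.Agent.H54.TF
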