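import Pool.Agent.H54.TF.Defs

/-!
# [H54 TF RNG] The range of the cocycle on a parabolic subgroup

`Z = {k ∈ K | ∃ l ∈ T, s_k w₁ = w₁ s_l}`.
(1) `rng_mr`: for `t ∈ par T`: `mr K (w₁ t) ∈ w₁ par T`: induction on `t`; one letter `r ∈ T` at `y = w₁ t`: if ON, `mr` does not change, if OFF
`mr (y s_r) = mr y * s_r`; `mr K w₁ = w₁`.
(2) `rng_ltr`: one letter `r ∈ T` at the position `y = w₁ t`: if ON, `k = ltr`: `s_k = mr y * s_r * (mr y)⁻¹ = w₁ (t' s_r t'⁻¹) w₁⁻¹ ∈ par K`,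
so `s_k ∈ par Z` (`kil`) and `k ∈ Z` (`b1_simple`, `simple_inj`).
(3) `cy_range`: `ap_induction` in the form: for all `t`, `cy (w₁ t) (h * gen r) = cy (w₁ t) h * cy (w₁ t (toCox h)) (gen r)`,
`toCox h ∈ par T` (`toCox_mem`); the factor `u` does not matter: `IsCz.par_left`.
-/

set_option autoImplicit false

namespace Pool.Agent.H54.TF

open CoxeterSystem Pool.H8.CDW Pool.Agent.H52.PAG Pool.Agent.H75.INF

variable {B : Type} {M : CoxeterMatrix B}

private theorem rng_mr {K T : Set B} {w₁ : M.Group} (h1 : IsL M.toCoxeterSystem K w₁) {t : M.Group}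
    (ht : t ∈ pw M T) : ∃ t' ∈ pw M T, mr M.toCoxeterSystem K (w₁ * t) = w₁ * t' := by
  have hstep : ∀ (t : M.Group) (r : B), r ∈ T → (∃ t' ∈ pw M T, mr M.toCoxeterSystem K (w₁ * t) = w₁ * t') →
      ∃ t' ∈ pw M T, mr M.toCoxeterSystem K (w₁ * (t * M.toCoxeterSystem.simple r)) = w₁ * t' := by
    rintro t r hr ⟨t', ht', h⟩
    rw [← mul_assoc]
    by_cases hon : On M.toCoxeterSystem K (w₁ * t) r
    · obtain ⟨_, _, h3, _⟩ := step_on M.toCoxeterSystem hon
      exact ⟨t', ht', by rw [h3, h]⟩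
    · obtain ⟨h3, _⟩ := step_off M.toCoxeterSystem hon
      exact ⟨t' * M.toCoxeterSystem.simple r, mul_mem ht' (simple_mem_par _ hr), by rw [h3, h, mul_assoc]⟩
  refine Subgroup.closure_induction_right
    (p := fun t _ => ∃ t' ∈ pw M T, mr M.toCoxeterSystem K (w₁ * t) = w₁ * t') ?_ ?_ ?_ ht
  · exact ⟨1, one_mem _, by rw [mul_one, (mr_of_isL M.toCoxeterSystem h1).1]⟩
  · rintro t _ _ ⟨r, hr, rfl⟩ h
    exact hstep t r hr h
  · rintro t _ _ ⟨r, hr, rfl⟩ h
    rw [M.toCoxeterSystem.inv_simple]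
    exact hstep t r hr h

private theorem rng_ltr {K T : Set B} {w₁ : M.Group} (h1 : IsL M.toCoxeterSystem K w₁)
    (h2 : IsMin M.toCoxeterSystem T w₁) {t : M.Group} (ht : t ∈ pw M T) {r : B} (hr : r ∈ T)
    (hon : On M.toCoxeterSystem K (w₁ * t) r) : ltr M.toCoxeterSystem K (w₁ * t) r ∈
      {k | k ∈ K ∧ ∃ l ∈ T, M.toCoxeterSystem.simple k * w₁ = w₁ * M.toCoxeterSystem.simple l} := by
  obtain ⟨t', ht', h⟩ := rng_mr h1 ht
  obtain ⟨h3, h4, _, _⟩ := step_on M.toCoxeterSystem hon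
  rw [h] at h4
  refine b1_simple M.toCoxeterSystem (simple_inj M.toCoxeterSystem) ?_
  refine kil M.toCoxeterSystem h1 h2 (simple_mem_par _ h3) ?_
  have e : w₁⁻¹ * M.toCoxeterSystem.simple (ltr M.toCoxeterSystem K (w₁ * t) r) * w₁ =
      t' * M.toCoxeterSystem.simple r * t'⁻¹ := by
    have e1 : M.toCoxeterSystem.simple (ltr M.toCoxeterSystem K (w₁ * t) r) =
        w₁ * t' * M.toCoxeterSystem.simple r * (w₁ * t')⁻¹ := by
      rw [h4, mul_inv_cancel_right]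
    rw [e1]
    group
  rw [e]
  exact mul_mem (mul_mem ht' (simple_mem_par _ hr)) (inv_mem ht')

theorem cy_range (K T : Set B) {u w₁ t : M.Group} (hu : u ∈ pw M K) (ht : t ∈ pw M T) (h1 : IsL M.toCoxeterSystem K w₁)
    (h2 : IsMin M.toCoxeterSystem T w₁) {h : Art M} (hh : h ∈ ap M T) :
    cy M K (u * w₁ * t) h ∈ ap M {k | k ∈ K ∧ ∃ l ∈ T, M.toCoxeterSystem.simple k * w₁ = w₁ * M.toCoxeterSystem.simple l} := by
  have hc := cy_spec M K
  rw [mul_assoc, hc.par_left hu]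
  refine ap_induction (P := fun h => ∀ t : M.Group, t ∈ pw M T → cy M K (w₁ * t) h ∈
    ap M {k | k ∈ K ∧ ∃ l ∈ T, M.toCoxeterSystem.simple k * w₁ = w₁ * M.toCoxeterSystem.simple l}) ?_ ?_ ?_ hh t ht
  · intro t _
    rw [hc.one]
    exact one_mem _
  · intro x hx r hr hP t ht
    rw [hc.mul]
    refine mul_mem (hP t ht) ?_
    rw [mul_assoc]
    have ht' : t * toCox M x ∈ pw M T := mul_mem ht (toCox_mem hx)
    by_cases hon : On M.toCoxeterSystem K (w₁ * (t * toCox M x)) r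
    · rw [hc.on _ r hon]
      exact gen_mem_ap (rng_ltr h1 h2 ht' hr hon)
    · rw [hc.off _ r hon]
      exact one_mem _
  · intro x hx r hr hP t ht
    rw [hc.mul]
    refine mul_mem (hP t ht) ?_
    rw [mul_assoc]
    have ht' : t * toCox M x ∈ pw M T := mul_mem ht (toCox_mem hx)
    by_cases hon : On M.toCoxeterSystem K (w₁ * (t * toCox M x)) r
    · rw [hc.gen_inv_on hon]
      exact inv_mem (gen_mem_ap (rng_ltr h1 h2 ht' hr hon))
    · rw [hc.gen_inv_off hon]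
      exact one_mem _

end Pool.Agent.H54.TF
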