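import Pool.Agent.H54.TF.Ab

/-!
# [H54 TF CV] Convex sets contain the descending neighbours (Lemma P) (75 min)

`E` symmetric. `C` convex, `z ∈ C`.
(1) Every `x ∈ C`, `x ≠ z`, has a neighbour `a ∈ C` with `lev a < lev x`. Consider the paths in `C` from `x` to `z`: nonempty lists `l` of elements of `C`, `l.IsChain E`, first
element `x`, last element `z` (they exist by `hC.conn`), and take one with `(l.map (2 ^ lev ·)).sum` minimal (or `WellFounded`). Let `l = v₀, v₁, …, v_L`, `L ≥ 1`, `n` the
maximal level. Let `j` be the LAST index with `lev v_j = n` (so `j < L` as `lev z = 0` and `n ≥ lev x > 0`, and `lev v_(j+1) < n`). If `j = 0`: `a = v₁`. If `j > 0`: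
 - `lev v_(j-1) < n`: then `one` for `v_j`: `v_(j-1) = v_(j+1)` (delete `v_j`, `v_(j+1)`) or `E v_(j-1) v_(j+1)` (delete `v_j`): a smaller path.
 - `lev v_(j-1) = n`: `two` gives `w` with `E v_j w`, `E v_(j-1) w`, `lev w < n`; `one` for `v_j`, `w`, `v_(j+1)`: `w = v_(j+1)`: delete `v_j`. Or `E w v_(j+1)`: `w ∈ C` by `hC.link` with
   `x := v_j`, `u := v_(j-1)`, `u' := v_(j+1)` (different levels), `y := w`; replace `v_j` by `w`: smaller.
 (The first element `x` stays the same because `j > 0`. It may be easier to prove the statement for lists by strong induction on the measure: any path in `C` from `x` to `z` can be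
 replaced by one whose second vertex is lower than `x`.)
(2) Strong induction on `lev x`: all lower neighbours `y` of `x` are in `C`. Let `a` be as in (1). `one`: `y = a` (done) or `E y a`. `lev y = lev a = lev x - 1` (`step`). If this is `0`
then `y = z = a`. Otherwise `two` for `a`, `y`: `w` with `E a w`, `E y w`, `lev w < lev a`. By induction for `a` (`a ≠ z`): `w ∈ C`. `hC.link` with `x := a`, `u := x`, `u' := w`
(`x ≠ w`: levels), `y := y` (`E a y`, `E y x`, `E y w`): `y ∈ C`.
-/

set_option autoImplicit false

namespace Pool.Agent.H54.TF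

variable {V : Type} {E : V → V → Prop}

/-- vertices with a strictly descending path in `C` to the base vertex -/
private inductive Dn (E : V → V → Prop) (z : V) (lev : V → ℕ) (C : Set V) : V → Prop
  | base : Dn E z lev C z
  | step {x a : V} : a ∈ C → E x a → lev a < lev x → Dn E z lev C a → Dn E z lev C x

private theorem dn_nbr (hs : ∀ x y, E x y → E y x) {z : V} {lev : V → ℕ} (hl : IsLev E z lev)
    {C : Set V} (hC : Cvx E C) : ∀ n : ℕ, ∀ x y : V, lev y ≤ n → x ∈ C → y ∈ C → E x y →
      Dn E z lev C y → Dn E z lev C x := by
  intro n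
  induction n with
  | zero =>
    intro x y hn hx hy hxy hd
    have h1 : y = z := (hl.zero y).1 (by omega)
    rcases Nat.eq_zero_or_pos (lev x) with h2 | h2
    · rw [(hl.zero x).1 h2]
      exact Dn.base
    · exact Dn.step hy hxy (by omega) hd
  | succ n ih =>
    intro x y hn hx hy hxy hd
    rcases lt_trichotomy (lev y) (lev x) with h | h | h
    · exact Dn.step hy hxy h hd
    · cases hd with
      | base =>
        have h0 := (hl.zero z).2 rfl
        rw [(hl.zero x).1 (by omega)]
        exact Dn.base
      | @step _ a ha hya hlt hda =>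
        obtain ⟨w, hyw, hxw, hw⟩ := hl.two y x (hs x y hxy) h
        rcases hl.one y a w hya hyw hlt hw with h1 | h1
        · rw [← h1] at hxw
          exact Dn.step ha hxw (by omega) hda
        · have hwC : w ∈ C := by
            refine hC.link y x a w hy hx ha ?_ (hs x y hxy) hya hyw (hs x w hxw) (hs a w h1)
            rintro rfl
            omega
          have hdw : Dn E z lev C w := ih w a (by omega) hwC ha (hs a w h1) hda
          exact Dn.step hwC hxw (by omega) hdw
    · cases hd with
      | base =>
        have h0 := (hl.zero z).2 rfl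
        omega
      | @step _ a ha hya hlt hda =>
        rcases hl.one y x a (hs x y hxy) hya h hlt with h1 | h1
        · rw [h1]
          exact hda
        · exact ih x a (by omega) hx ha h1 hda

/-- every vertex of a convex set which contains the base vertex has a lower neighbour in the set -/
theorem cvx_exists (hs : ∀ x y, E x y → E y x) {z : V} {lev : V → ℕ} (hl : IsLev E z lev) {C : Set V} (hC : Cvx E C) (hz : z ∈ C)
    {x : V} (hx : x ∈ C) (hxz : x ≠ z) : ∃ a ∈ C, E x a ∧ lev a < lev x := by
  have key : ∀ {y : V}, Relation.ReflTransGen (fun a b => E a b ∧ b ∈ C) y z → y ∈ C →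
      Dn E z lev C y := by
    intro y h
    induction h using Relation.ReflTransGen.head_induction_on with
    | refl => exact fun _ => Dn.base
    | @head a b hab _ ih =>
      intro ha
      exact dn_nbr hs hl hC (lev b) a b le_rfl ha hab.2 hab.1 (ih hab.2)
  have h1 := key (hC.conn x hx z hz) hx
  cases h1 with
  | base => exact absurd rfl hxz
  | @step _ a ha hxa hlt _ => exact ⟨a, ha, hxa, hlt⟩

theorem cvx_low (hs : ∀ x y, E x y → E y x) {z : V} {lev : V → ℕ} (hl : IsLev E z lev) {C : Set V} (hC : Cvx E C) (hz : z ∈ C)
    {x y : V} (hx : x ∈ C) (hxy : E x y) (hlt : lev y < lev x) : y ∈ C := by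
  have key : ∀ n : ℕ, ∀ x y : V, lev x ≤ n → x ∈ C → E x y → lev y < lev x → y ∈ C := by
    intro n
    induction n with
    | zero =>
      intro x y hn _ _ h
      omega
    | succ n ih =>
      intro x y hn hx hxy hlt
      have hxz : x ≠ z := by
        rintro rfl
        have := (hl.zero x).2 rfl
        omega
      obtain ⟨a, ha, hxa, hla⟩ := cvx_exists hs hl hC hz hx hxz
      rcases hl.one x y a hxy hxa hlt hla with h1 | h1
      · rw [h1]
        exact ha
      · have h2 := hl.step x y hxy
        have h3 := hl.step x a hxa
        obtain ⟨w, haw, hyw, hw⟩ := hl.two a y (hs y a h1) (by omega)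
        have hwC : w ∈ C := ih a w (by omega) ha haw hw
        refine hC.link a x w y ha hx hwC ?_ (hs x a hxa) haw (hs y a h1) (hs x y hxy) hyw
        rintro rfl
        omega
  exact key (lev x) x y le_rfl hx hxy hlt

end Pool.Agent.H54.TF
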