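import Pool.Agent.H54.TF.Ab
import Pool.Agent.H59.DE.Lvl

/-!
# [H54 TF LV] Levels of a simply connected complex of triangles (60 min)

`X` is a complex in which any three pairwise adjacent vertices are a triangle (`hf`), there are no four pairwise adjacent vertices (`h4`), and the links
have no closed paths of length four (`hc4`) and five (`hc5`). All ingredients are in `H59/DE`: `Sys.lean` (arrow systems), `Lev.lean`, `Tower.lean` (`good`, `St`, `Nb`,
`Nb.exists`, `Nb.det`, `Nb.bar`, `Nb.cases`, `down_down`, `level_down`, `Nb.tri`, `Nb.arr`), `Sec.lean` (`Cvr.exists_section`). Template: `exists_levels` in `H59/DE/Lvl.lean` (there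
everything is more complicated because the arrows have carriers).
Arrow system: `A = {p : V × V // X.Edge p.1 p.2}`, `src a = a.1.1`, `bar a = (a.2, a.1)`, `T a b c`: `a = (u,v)`, `b = (v,w)`, `c = (u,w)` and `X.Tri u v w`.
`Sys.flag`: four pairwise adjacent vertices, impossible by `h4`; `d4`: `hc4` (`a = c` or `b = d`); `d5`: impossible by `hc5`. (If it is more convenient use `hf` to replace
`Tri` by three edges.)
Covering: states `St K z`, `F x s := s.lab = x`, `R x y s t := ∃ a : A, a = (x,y) ∧ Nb s a t`. `tot`: `Nb.exists`; `det`: `Nb.det`; `back`: `Nb.bar`; `tri`: `Nb.tri`.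
`exists_section` with `x₀ = z` and the base state (level `0`, `Unit`): `st : V → St`, `st z` = base state, `(st x).lab = x`, `Nb (st x) (x,y) (st y)` for every edge. Put
`lev x = (st x).ht`. `zero`: the only state of level `0` has label `z`; `st z` has level `0`. `step`: `Nb.cases`. `low`: a state of level `n + 1` has a pair (`(nxt ..).ne`), as in
`exists_levels`; its neighbour is `st y` by `det`. `one`: `down_down`: the arrows `(x,y)`, `(x,y')` are equal or linked (a triangle `x y y'`). `two`: `level_down`: a descending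
arrow `(x,w)` linked to `(x,y)`: triangle `x w y`, so `X.Edge y w`, and `lev w < lev x`.
-/

set_option autoImplicit false

namespace Pool.Agent.H54.TF

open Pool.Agent.H54.CX Pool.Agent.H59.DE Pool.Agent.H59.DE.Sys Pool.Agent.H59.DE.St

variable {V : Type}

/-- the arrows -/
private abbrev Aw (X : Cpx V) : Type := {p : V × V // X.Edge p.1 p.2}

private theorem aw_ext {X : Cpx V} {a b : Aw X} (h1 : a.1.1 = b.1.1) (h2 : a.1.2 = b.1.2) : a = b :=
  Subtype.ext (Prod.ext h1 h2)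

/-- the arrow system -/
private def asys (X : Cpx V)
    (hc4 : ∀ v a b c d, X.Edge v a → X.Edge v b → X.Edge v c → X.Edge v d → X.Edge a b → X.Edge b c → X.Edge c d →
      X.Edge d a → a = c ∨ b = d)
    (hc5 : ∀ v a b c d e, X.Edge v a → X.Edge v b → X.Edge v c → X.Edge v d → X.Edge v e → X.Edge a b → X.Edge b c →
      X.Edge c d → X.Edge d e → X.Edge e a → False) : Sys V (Aw X) where
  src a := a.1.1
  bar a := ⟨(a.1.2, a.1.1), X.symm _ _ a.2⟩
  T a b c := a.1.2 = b.1.1 ∧ a.1.1 = c.1.1 ∧ b.1.2 = c.1.2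
  bar_bar _ := rfl
  comp _ _ _ h := ⟨h.1.symm, h.2.1.symm, h.2.2.symm⟩
  rev _ _ _ h := ⟨h.1.symm, h.2.2, h.2.1⟩
  rot _ _ _ h := ⟨h.2.1, h.1, h.2.2.symm⟩
  uniq _ _ _ _ h h' := aw_ext (h.1.symm.trans h'.1) (h.2.2.trans h'.2.2.symm)
  no1 a b h := X.ne _ _ b.2 (h.1.symm.trans h.2.2.symm)
  flag _ _ _ _ _ _ h1 h2 h3 := ⟨h1.2.2.trans h2.1, h1.1.symm.trans h3.1, h2.2.2.trans h3.2.2.symm⟩
  d4 := by
    rintro ⟨⟨v, a⟩, ha⟩ ⟨⟨v1, b⟩, hb⟩ ⟨⟨v2, c⟩, hc⟩ ⟨⟨v3, d⟩, hd⟩ ⟨⟨⟨x, x'⟩, hx⟩, h1, h2, h3⟩ ⟨⟨⟨y, y'⟩, hy⟩, h4, h5, h6⟩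
      ⟨⟨⟨z, z'⟩, hz⟩, h7, h8, h9⟩ ⟨⟨⟨w, w'⟩, hw⟩, h10, h11, h12⟩
    simp only at *
    subst h1 h2 h3 h4 h5 h6 h7 h8 h9 h10 h12
    rcases hc4 _ _ _ _ _ ha hb hc hd hx hy hz hw with h | h
    · subst h; exact Or.inl rfl
    · subst h; exact Or.inr (Or.inl rfl)
  d5 := by
    rintro ⟨⟨v, a⟩, ha⟩ ⟨⟨v1, b⟩, hb⟩ ⟨⟨v2, c⟩, hc⟩ ⟨⟨v3, d⟩, hd⟩ ⟨⟨v4, e⟩, he⟩ ⟨⟨⟨x, x'⟩, hx⟩, h1, h2, h3⟩
      ⟨⟨⟨y, y'⟩, hy⟩, h4, h5, h6⟩ ⟨⟨⟨z, z'⟩, hz⟩, h7, h8, h9⟩ ⟨⟨⟨w, w'⟩, hw⟩, h10, h11, h12⟩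
      ⟨⟨⟨r, r'⟩, hr⟩, h13, h14, h15⟩
    simp only at *
    subst h1 h2 h3 h4 h5 h6 h7 h8 h9 h10 h11 h12 h13 h15
    exact (hc5 _ _ _ _ _ _ ha hb hc hd he hx hy hz hw hr).elim

section

variable {X : Cpx V} {K : Sys V (Aw X)} {z : V}

/-- the transitions -/
private def Tr (X : Cpx V) (K : Sys V (Aw X)) (z : V) (x y : V) (s t : St K z) : Prop :=
  ∃ a : Aw X, a.1 = (x, y) ∧ Nb s a t

end

private theorem acvr (X : Cpx V) (hc4 : ∀ v a b c d, X.Edge v a → X.Edge v b → X.Edge v c → X.Edge v d → X.Edge a b → X.Edge b c → X.Edge c d →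
      X.Edge d a → a = c ∨ b = d)
    (hc5 : ∀ v a b c d e, X.Edge v a → X.Edge v b → X.Edge v c → X.Edge v d → X.Edge v e → X.Edge a b → X.Edge b c →
      X.Edge c d → X.Edge d e → X.Edge e a → False) (z : V) :
    Cvr X (St (asys X hc4 hc5) z) (fun x s => s.lab = x) (Tr X (asys X hc4 hc5) z) where
  tot := by
    intro x y s h hs
    obtain ⟨t, ht⟩ := Nb.exists (K := asys X hc4 hc5) (s := s) (a := ⟨(x, y), h⟩) hs.symm
    exact ⟨t, ht.tgt.symm, ⟨(x, y), h⟩, rfl, ht⟩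
  det := by
    rintro x y s t t' h hs ht ht' ⟨⟨a, ha⟩, rfl, h2⟩ ⟨⟨b, hb⟩, rfl, h3⟩
    exact h2.det h3
  back := by
    rintro x y s t h hs ht ⟨⟨a, ha⟩, rfl, h2⟩
    exact ⟨_, rfl, h2.bar⟩
  tri := by
    rintro x y w s t r h hs ht hr ⟨⟨a, ha⟩, rfl, h2⟩ ⟨⟨b, hb⟩, rfl, h3⟩
    exact ⟨⟨(y, w), tri23 h⟩, rfl, Nb.tri (K := asys X hc4 hc5) (a := ⟨(x, y), ha⟩) (b := ⟨(y, w), tri23 h⟩)
      (c := ⟨(x, w), hb⟩) ⟨rfl, rfl, rfl⟩ h2 h3⟩

theorem exists_lev (X : Cpx V) (hsc : X.SC) (hf : ∀ x y z, X.Edge x y → X.Edge y z → X.Edge x z → X.Tri x y z)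
    (h4 : ∀ x y z w, X.Edge x y → X.Edge x z → X.Edge x w → X.Edge y z → X.Edge y w → X.Edge z w → False)
    (hc4 : ∀ v a b c d, X.Edge v a → X.Edge v b → X.Edge v c → X.Edge v d → X.Edge a b → X.Edge b c → X.Edge c d →
      X.Edge d a → a = c ∨ b = d)
    (hc5 : ∀ v a b c d e, X.Edge v a → X.Edge v b → X.Edge v c → X.Edge v d → X.Edge v e → X.Edge a b → X.Edge b c →
      X.Edge c d → X.Edge d e → X.Edge e a → False) (z : V) :
    ∃ lev : V → ℕ, IsLev X.Edge z lev := by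
  let K := asys X hc4 hc5
  let s₀ : St K z := ⟨0, ()⟩
  have hlab : s₀.lab = z := rfl
  obtain ⟨st, st0, stF, stR⟩ := (acvr X hc4 hc5 z).exists_section hsc z s₀ hlab
  have nb : ∀ (x y : V) (h : X.Edge x y), Nb (K := K) (st x) ⟨(x, y), h⟩ (st y) := by
    intro x y h
    obtain ⟨⟨a, ha⟩, h1, h2⟩ := stR _ _ h
    simp only at h1
    subst h1
    exact h2
  have key : ∀ (x : V) (a : Aw X) (t : St K z), Nb (K := K) (st x) a t → ∃ (y : V) (h : X.Edge x y), a = ⟨(x, y), h⟩ ∧ t = st y := by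
    rintro x ⟨⟨u, y⟩, ha⟩ t h
    have h1 : u = x := (Nb.src h).trans (stF x)
    subst h1
    exact ⟨y, ha, rfl, h.det (nb u y ha)⟩
  refine ⟨fun x => (st x).ht, ?_, ?_, ?_, ?_, ?_⟩
  · intro x
    constructor
    · intro hl
      have h1 : ∀ s : St K z, s.ht = 0 → s.lab = z := by
        rintro ⟨n, s⟩ hn
        have hn' : n = 0 := hn
        subst hn'
        rfl
      rw [← stF x]
      exact h1 _ hl
    · rintro rfl
      show (st x).ht = 0
      rw [st0]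
      rfl
  · intro x y h
    have := (nb x y h).cases
    show (st x).ht ≤ (st y).ht + 1
    omega
  · intro x hx
    have hl : (st x).ht ≠ 0 := by
      intro hl
      apply hx
      have h1 : ∀ s : St K z, s.ht = 0 → s.lab = z := by
        rintro ⟨n, s⟩ hn
        have hn' : n = 0 := hn
        subst hn'
        rfl
      rw [← stF x]
      exact h1 _ hl
    obtain ⟨t, a, hn, ht⟩ : ∃ (t : St K z) (a : Aw X), Nb (st x) a t ∧ t.ht + 1 = (st x).ht := by
      have : ∀ s : St K z, s.ht ≠ 0 → ∃ (t : St K z) (a : Aw X), Nb s a t ∧ t.ht + 1 = s.ht := by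
        rintro ⟨n, s⟩ hn
        cases n with
        | zero => exact (hn rfl).elim
        | succ n =>
          obtain ⟨p', a, h⟩ := (nxt K z n).ne s
          exact ⟨⟨n, p'⟩, K.bar a, Nb.down s p' _ h, rfl⟩
      exact this _ hl
    obtain ⟨y, h, rfl, rfl⟩ := key x a t hn
    exact ⟨y, h, by show (st y).ht < (st x).ht; omega⟩
  · intro x y y' h h' l1 l2
    have l1 : (st y).ht < (st x).ht := l1
    have l2 : (st y').ht < (st x).ht := l2
    have c1 := (nb x y h).cases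
    have c2 := (nb x y' h').cases
    rcases down_down (nb x y h) (nb x y' h') (by omega) (by omega) with h3 | ⟨⟨⟨u, v⟩, hx⟩, h3, h4, h5⟩
    · left
      have := congrArg (fun a : Aw X => a.1.2) h3
      exact this
    · right
      have e1 : y = u := h3
      have e2 : v = y' := h5
      subst e1 e2
      exact hx
  · intro x y h hl
    have hl : (st x).ht = (st y).ht := hl
    obtain ⟨a, t, h3, h4, x', h5⟩ := level_down (nb x y h) hl.symm
    obtain ⟨w, h6, rfl, rfl⟩ := key x a t h3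
    obtain ⟨⟨u, v⟩, hx⟩ := x'
    have e1 : w = u := h5.1
    have e2 : v = y := h5.2.2
    subst e1 e2
    exact ⟨w, h6, X.symm _ _ hx, by show (st w).ht < (st x).ht; omega⟩

end Pool.Agent.H54.TF
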