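import Pool.Agent.H54.TF.Pg

/-!
# [H54 TF ST] No four-cycles: the three cases (75 min)

`V' = {v : V // typ v ∈ U}`, `E a b := a ≠ b ∧ Adj a.1 b.1`, `C Z = {v : V' | Adj v.1 Z}`. Vertices `P₁, P₂, P₃, P₄` of the types `b, c, b, c`, consecutive ones adjacent.
`cvx`: if `typ Z ∉ U` then `Cvx E (C Z)`. `conn`: `h.conn`. `link`: `x, u, u' ∈ C Z`, `u ≠ u'`, `y` adjacent to `x`, `u`, `u'`, `x` adjacent to `u`, `u'`. Types: `x, y, u` have different types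
(`h.same`), also `x, y, u'`, so `typ u = typ u'` (`u3`). `h.lk x.1 y.1 u.1 Z u'.1` (`J (typ y) (typ u)` by `uJ`; `typ Z ≠ typ x` since `typ Z ∉ U`): `Adj y Z` or `Adj u u'`, in the second case `u = u'` by
`same`.
CASE 1, `b, c ∈ U` (`b ≠ c`: if `b = c` then all `P_i` are equal by `same`): levels from `P₁`. If `P₁ ≠ P₃`: `P₂`, `P₄` have level `1` (`step`, `zero`), `P₃` has level `≥ 2`: `lev P₃ ≠ 0`; if `lev P₃ = 1` then
`P₃` has a lower neighbour (`low`), which is `P₁`; `Adj P₃ P₁` and equal types: `P₁ = P₃`. So `P₂`, `P₄` are lower neighbours of `P₃`: equal or adjacent (`one`), so equal by `same`.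
CASE 2, `b ∈ U`, `c ∉ U`: suppose `P₁ ≠ P₃`, `P₂ ≠ P₄`. Levels from `z = P₁`. `C P₂`, `C P₄` contain `P₁` and `P₃`. `lev P₃ ≥ 2` as in case 1. CLAIM: every `x ∈ C P₂ ∩ C P₄` with
`lev x ≥ 2` gives `u₁, u₂ ∈ C P₂ ∩ C P₄` with `lev u₁ = 1`, `lev u₂ = 2`, `E u₂ u₁`: descend with `low` and `cvx_low` (induction on `lev x`). `E u₁ P₁` (`low`, `zero`). `h.lk u₁ P₁ P₂ u₂ P₄`: `typ P₁ = b`,
`typ P₂ = c`, `J b c`; types of `P₁`, `u₂` differ from `typ u₁` by `same`, `c ∉ U`. So `Adj P₁ u₂` or `Adj P₂ P₄`; the second gives `P₂ = P₄`; the first gives `u₂ = P₁` (level) or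
`lev u₂ ≤ 1` (`step`): contradiction.
CASE 2', `c ∈ U`, `b ∉ U`: case 2 for `(P₂, P₃, P₄, P₁)` and `J c b`.
CASE 3, `b, c ∉ U`: suppose `P₁ ≠ P₃`, `P₂ ≠ P₄`. `z` = a vertex with type in `U` adjacent to `P₄` and `P₁` (`h.ne`, `h.fill`). `polygon` for `C P₁, …, C P₄`: the intersections of consecutive
ones are nonempty by `fill`. `e12` (same for `e23`, `e34`): `x ∈ C P₁ ∩ C P₂`, `u ∈ C P₁`, `w ∈ C P₂`, `x, u, w` pairwise adjacent: `h.lk x P₁ P₂ w u`: `Adj P₁ w` or `Adj P₂ u`. `d2`: `x ∈ C P₁ ∩ C P₂ ∩ C P₃`,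
`u ∈ C P₁ ∩ C P₃`, `E x u`: `h.lk x P₂ P₁ u P₃` (`J c b`): `Adj P₂ u` or `Adj P₁ P₃`; the second gives `P₁ = P₃`. `d3`: `h.lk x P₃ P₂ u P₄`. The common vertex `v`: `h.lk v P₁ P₂ P₃ P₄`: `P₁ = P₃` or
`P₂ = P₄`.
-/

set_option autoImplicit false

namespace Pool.Agent.H54.TF

variable {V B : Type} {typ : V → B} {Adj : V → V → Prop} {J : B → B → Prop} {U : Set B}

/-- the edges between vertices with types in `U` -/
private def Ed (typ : V → B) (Adj : V → V → Prop) (U : Set B) (a b : {v : V // typ v ∈ U}) : Prop := a ≠ b ∧ Adj a.1 b.1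

/-- the vertices adjacent to `Z` -/
private def Cc (typ : V → B) (Adj : V → V → Prop) (U : Set B) (Z : V) : Set {v : V // typ v ∈ U} := {v | Adj v.1 Z}

private theorem ed_typ (h : TS typ Adj J U) {a b : {v : V // typ v ∈ U}} (hE : Ed typ Adj U a b) : typ a.1 ≠ typ b.1 :=
  fun he => hE.1 (Subtype.ext (h.same _ _ hE.2 he))

private theorem ed_symm (h : TS typ Adj J U) (a b : {v : V // typ v ∈ U}) (hE : Ed typ Adj U a b) : Ed typ Adj U b a :=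
  ⟨fun he => hE.1 he.symm, h.symm _ _ hE.2⟩

private theorem cvx_cc (h : TS typ Adj J U) {Z : V} (hZ : typ Z ∉ U) : Cvx (Ed typ Adj U) (Cc typ Adj U Z) where
  conn x hx y hy := h.conn Z hZ x y hx hy
  link := by
    intro x u u' y hx hu hu' hne hxu hxu' hxy hyu hyu'
    have hxZ : typ Z ≠ typ x.1 := fun he => hZ (he ▸ x.2)
    rcases h.lk x.1 y.1 u.1 Z u'.1 x.2 hxy.2 hxu.2 hx hxu'.2 (ed_typ h hxy).symm (ed_typ h hxu).symm hxZ (ed_typ h hxu').symm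
      (h.uJ _ y.2 _ u.2 (ed_typ h hyu)) hyu.2 hu (h.symm _ _ hu') (h.symm _ _ hyu'.2) with h1 | h1
    · exact h1
    · exfalso
      apply hne
      apply Subtype.ext
      apply h.same _ _ h1
      rcases h.u3 _ x.2 _ y.2 _ u.2 (ed_typ h hxy) (ed_typ h hyu) (ed_typ h hxu) _ u'.2 with h2 | h2 | h2
      · exact absurd h2.symm (ed_typ h hxu')
      · exact absurd h2.symm (ed_typ h hyu')
      · exact h2.symm

private theorem ts_case1 (h : TS typ Adj J U) {b c : B} (hb : b ∈ U) (hc : c ∈ U) {P₁ P₂ P₃ P₄ : V} (t1 : typ P₁ = b) (t2 : typ P₂ = c)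
    (t3 : typ P₃ = b) (t4 : typ P₄ = c) (h12 : Adj P₁ P₂) (h23 : Adj P₂ P₃) (h34 : Adj P₃ P₄) (h41 : Adj P₄ P₁) : P₁ = P₃ ∨ P₂ = P₄ := by
  by_cases hbc : b = c
  · left
    have e1 : P₁ = P₂ := h.same _ _ h12 (by rw [t1, t2, hbc])
    have e2 : P₂ = P₃ := h.same _ _ h23 (by rw [t2, t3, hbc])
    rw [e1, e2]
  by_contra hcon
  push Not at hcon
  obtain ⟨hne1, hne2⟩ := hcon
  obtain ⟨lev, hl⟩ := h.lev ⟨P₁, t1 ▸ hb⟩
  have hl0 : lev ⟨P₁, t1 ▸ hb⟩ = 0 := (hl.zero _).2 rfl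
  have n12 : P₁ ≠ P₂ := fun e => hbc (by rw [← t1, ← t2, e])
  have n41 : P₄ ≠ P₁ := fun e => hbc (by rw [← t1, ← t4, e])
  have n23 : P₂ ≠ P₃ := fun e => hbc (by rw [← t2, ← t3, e])
  have n34 : P₃ ≠ P₄ := fun e => hbc (by rw [← t3, ← t4, e])
  have l2 : lev ⟨P₂, t2 ▸ hc⟩ ≤ 1 := by
    have := hl.step ⟨P₂, t2 ▸ hc⟩ ⟨P₁, t1 ▸ hb⟩ ⟨fun e => n12 (congrArg Subtype.val e).symm, h.symm _ _ h12⟩
    omega
  have l4 : lev ⟨P₄, t4 ▸ hc⟩ ≤ 1 := by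
    have := hl.step ⟨P₄, t4 ▸ hc⟩ ⟨P₁, t1 ▸ hb⟩ ⟨fun e => n41 (congrArg Subtype.val e), h41⟩
    omega
  have l3 : 2 ≤ lev ⟨P₃, t3 ▸ hb⟩ := by
    by_contra hlt
    obtain ⟨y, hy1, hy2⟩ := hl.low ⟨P₃, t3 ▸ hb⟩ (fun e => hne1 (congrArg Subtype.val e).symm)
    have hy0 : lev y = 0 := by omega
    have hy3 := (hl.zero _).1 hy0
    subst hy3
    exact hne1 (h.same _ _ hy1.2 (by rw [t1, t3])).symm
  rcases hl.one ⟨P₃, t3 ▸ hb⟩ ⟨P₂, t2 ▸ hc⟩ ⟨P₄, t4 ▸ hc⟩ ⟨fun e => n23 (congrArg Subtype.val e).symm, h.symm _ _ h23⟩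
    ⟨fun e => n34 (congrArg Subtype.val e), h34⟩ (by omega) (by omega) with h1 | h1
  · exact hne2 (congrArg Subtype.val h1)
  · exact hne2 (h.same _ _ h1.2 (by rw [t2, t4]))

private theorem ts_case2 (h : TS typ Adj J U) {b c : B} (hbc : J b c) (hb : b ∈ U) (hc : c ∉ U) {P₁ P₂ P₃ P₄ : V} (t1 : typ P₁ = b)
    (t2 : typ P₂ = c) (t3 : typ P₃ = b) (t4 : typ P₄ = c) (h12 : Adj P₁ P₂) (h23 : Adj P₂ P₃) (h34 : Adj P₃ P₄) (h41 : Adj P₄ P₁) :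
    P₁ = P₃ ∨ P₂ = P₄ := by
  by_contra hcon
  push Not at hcon
  obtain ⟨hne1, hne2⟩ := hcon
  obtain ⟨lev, hl⟩ := h.lev ⟨P₁, t1 ▸ hb⟩
  have hl0 : lev ⟨P₁, t1 ▸ hb⟩ = 0 := (hl.zero _).2 rfl
  have hl' : IsLev (Ed typ Adj U) ⟨P₁, t1 ▸ hb⟩ lev := hl
  have c2 : Cvx (Ed typ Adj U) (Cc typ Adj U P₂) := cvx_cc h (by rw [t2]; exact hc)
  have c4 : Cvx (Ed typ Adj U) (Cc typ Adj U P₄) := cvx_cc h (by rw [t4]; exact hc)
  have m12 : (⟨P₁, t1 ▸ hb⟩ : {v : V // typ v ∈ U}) ∈ Cc typ Adj U P₂ := h12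
  have m14 : (⟨P₁, t1 ▸ hb⟩ : {v : V // typ v ∈ U}) ∈ Cc typ Adj U P₄ := h.symm _ _ h41
  have l3 : 2 ≤ lev ⟨P₃, t3 ▸ hb⟩ := by
    by_contra hlt
    obtain ⟨y, hy1, hy2⟩ := hl.low ⟨P₃, t3 ▸ hb⟩ (fun e => hne1 (congrArg Subtype.val e).symm)
    have hy0 : lev y = 0 := by omega
    have hy3 := (hl.zero _).1 hy0
    subst hy3
    exact hne1 (h.same _ _ hy1.2 (by rw [t1, t3])).symm
  have key : ∀ n : ℕ, ∀ x : {v : V // typ v ∈ U}, lev x = n → 2 ≤ n → x ∈ Cc typ Adj U P₂ → x ∈ Cc typ Adj U P₄ →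
      ∃ u₁ u₂ : {v : V // typ v ∈ U}, u₁ ∈ Cc typ Adj U P₂ ∧ u₁ ∈ Cc typ Adj U P₄ ∧ u₂ ∈ Cc typ Adj U P₂ ∧ u₂ ∈ Cc typ Adj U P₄ ∧
        lev u₁ = 1 ∧ lev u₂ = 2 ∧ Ed typ Adj U u₂ u₁ := by
    intro n
    induction n with
    | zero => intro x _ h2; omega
    | succ n ih =>
      intro x hx h2 hx2 hx4
      obtain ⟨y, hy1, hy2⟩ := hl.low x (by
        rintro rfl
        omega)
      have hy3 := hl.step x y hy1
      have y2 := cvx_low (ed_symm h) hl' c2 m12 hx2 hy1 hy2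
      have y4 := cvx_low (ed_symm h) hl' c4 m14 hx4 hy1 hy2
      rcases Nat.eq_or_lt_of_le h2 with h3 | h3
      · exact ⟨y, x, y2, y4, hx2, hx4, by omega, by omega, hy1⟩
      · exact ih y (by omega) (by omega) y2 y4
  obtain ⟨u₁, u₂, a1, a2, a3, a4, a5, a6, a7⟩ := key _ ⟨P₃, t3 ▸ hb⟩ rfl l3 (h.symm _ _ h23) h34
  obtain ⟨y, hy1, hy2⟩ := hl.low u₁ (by
    rintro rfl
    omega)
  have hy3 := (hl.zero y).1 (by omega)
  subst hy3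
  have e1 : typ P₁ ≠ typ u₁.1 := (ed_typ h hy1).symm
  have e2 : typ P₂ ≠ typ u₁.1 := fun e => hc (by rw [← t2, e]; exact u₁.2)
  have e4 : typ P₄ ≠ typ u₁.1 := fun e => hc (by rw [← t4, e]; exact u₁.2)
  rcases h.lk u₁.1 P₁ P₂ u₂.1 P₄ u₁.2 hy1.2 a1 (h.symm _ _ a7.2) a2 e1 e2 (ed_typ h a7) e4 (by rw [t1, t2]; exact hbc) h12
    (h.symm _ _ a3) a4 h41 with h1 | h1
  · have hn : u₂ ≠ ⟨P₁, t1 ▸ hb⟩ := by
      rintro rfl
      omega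
    have := hl.step u₂ ⟨P₁, t1 ▸ hb⟩ ⟨hn, h.symm _ _ h1⟩
    omega
  · exact hne2 (h.same _ _ h1 (by rw [t2, t4]))

private theorem ts_case3 (h : TS typ Adj J U) {b c : B} (hbc : J b c) (hb : b ∉ U) (hc : c ∉ U) {P₁ P₂ P₃ P₄ : V} (t1 : typ P₁ = b)
    (t2 : typ P₂ = c) (t3 : typ P₃ = b) (t4 : typ P₄ = c) (h12 : Adj P₁ P₂) (h23 : Adj P₂ P₃) (h34 : Adj P₃ P₄) (h41 : Adj P₄ P₁) :
    P₁ = P₃ ∨ P₂ = P₄ := by
  by_contra hcon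
  push Not at hcon
  obtain ⟨hne1, hne2⟩ := hcon
  obtain ⟨t, ht⟩ := h.ne
  have fl : ∀ x y, Adj x y → ∃ v : {v : V // typ v ∈ U}, v ∈ Cc typ Adj U x ∧ v ∈ Cc typ Adj U y := by
    intro x y hxy
    obtain ⟨v, hv1, hv2, hv3⟩ := h.fill x y hxy t
    exact ⟨⟨v, hv1 ▸ ht⟩, hv2, hv3⟩
  have nt : ∀ (x : {v : V // typ v ∈ U}) (P : V), typ P = b ∨ typ P = c → typ P ≠ typ x.1 := by
    rintro x P (e | e) he
    · exact hb (by rw [← e, he]; exact x.2)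
    · exact hc (by rw [← e, he]; exact x.2)
  obtain ⟨z, z4, z1⟩ := fl P₄ P₁ h41
  obtain ⟨lev, hl⟩ := h.lev z
  have hl' : IsLev (Ed typ Adj U) z lev := hl
  have ee : ∀ P Q : V, J (typ P) (typ Q) → Adj P Q → (typ P = b ∨ typ P = c) → (typ Q = b ∨ typ Q = c) →
      ∀ x u w : {v : V // typ v ∈ U}, x ∈ Cc typ Adj U P → x ∈ Cc typ Adj U Q → u ∈ Cc typ Adj U P → w ∈ Cc typ Adj U Q →
        Ed typ Adj U x u → Ed typ Adj U x w → Ed typ Adj U u w → u ∈ Cc typ Adj U Q ∨ w ∈ Cc typ Adj U P := by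
    intro P Q hJ hPQ hP hQ x u w x1 x2 u1 w2 hxu hxw huw
    rcases h.lk x.1 P Q w.1 u.1 x.2 x1 x2 hxw.2 hxu.2 (nt x P hP) (nt x Q hQ) (ed_typ h hxw).symm (ed_typ h hxu).symm hJ hPQ
      (h.symm _ _ w2) (h.symm _ _ huw.2) u1 with h1 | h1
    · exact Or.inr (h.symm _ _ h1)
    · exact Or.inl (h.symm _ _ h1)
  have hcb : J c b := h.jsymm _ _ hbc
  obtain ⟨v, v1, v2, v3, v4⟩ := polygon (ed_symm h) (fun x hx => hx.1 rfl) hl'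
    (cvx_cc h (Z := P₁) (by rw [t1]; exact hb)) (cvx_cc h (Z := P₂) (by rw [t2]; exact hc))
    (cvx_cc h (Z := P₃) (by rw [t3]; exact hb)) (cvx_cc h (Z := P₄) (by rw [t4]; exact hc)) z1 z4
    (fl _ _ h12) (fl _ _ h23) (fl _ _ h34)
    (ee P₁ P₂ (by rw [t1, t2]; exact hbc) h12 (Or.inl t1) (Or.inr t2))
    (ee P₂ P₃ (by rw [t2, t3]; exact hcb) h23 (Or.inr t2) (Or.inl t3))
    (ee P₃ P₄ (by rw [t3, t4]; exact hbc) h34 (Or.inl t3) (Or.inr t4))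
    (by
      intro x u x1 x2 x3 u1 u3 hxu
      rcases h.lk x.1 P₂ P₁ u.1 P₃ x.2 x2 x1 hxu.2 x3 (nt x _ (Or.inr t2)) (nt x _ (Or.inl t1)) (ed_typ h hxu).symm (nt x _ (Or.inl t3))
        (by rw [t1, t2]; exact hcb) (h.symm _ _ h12) (h.symm _ _ u1) u3 (h.symm _ _ h23) with h1 | h1
      · exact h.symm _ _ h1
      · exact absurd (h.same _ _ h1 (by rw [t1, t3])) hne1)
    (by
      intro x u x2 x3 x4 u2 u4 hxu
      rcases h.lk x.1 P₃ P₂ u.1 P₄ x.2 x3 x2 hxu.2 x4 (nt x _ (Or.inl t3)) (nt x _ (Or.inr t2)) (ed_typ h hxu).symm (nt x _ (Or.inr t4))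
        (by rw [t3, t2]; exact hbc) (h.symm _ _ h23) (h.symm _ _ u2) u4 (h.symm _ _ h34) with h1 | h1
      · exact h.symm _ _ h1
      · exact absurd (h.same _ _ h1 (by rw [t2, t4])) hne2)
  rcases h.lk v.1 P₁ P₂ P₃ P₄ v.2 v1 v2 v3 v4 (nt v _ (Or.inl t1)) (nt v _ (Or.inr t2)) (nt v _ (Or.inl t3)) (nt v _ (Or.inr t4))
    (by rw [t1, t2]; exact hbc) h12 h23 h34 h41 with h1 | h1
  · exact hne1 (h.same _ _ h1 (by rw [t1, t3]))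
  · exact hne2 (h.same _ _ h1 (by rw [t2, t4]))

theorem ts_main (h : TS typ Adj J U) {b c : B} (hbc : J b c) {P₁ P₂ P₃ P₄ : V} (t1 : typ P₁ = b) (t2 : typ P₂ = c) (t3 : typ P₃ = b)
    (t4 : typ P₄ = c) (h12 : Adj P₁ P₂) (h23 : Adj P₂ P₃) (h34 : Adj P₃ P₄) (h41 : Adj P₄ P₁) : P₁ = P₃ ∨ P₂ = P₄ := by
  by_cases hb : b ∈ U
  · by_cases hc : c ∈ U
    · exact ts_case1 h hb hc t1 t2 t3 t4 h12 h23 h34 h41
    · exact ts_case2 h hbc hb hc t1 t2 t3 t4 h12 h23 h34 h41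
  · by_cases hc : c ∈ U
    · rcases ts_case2 h (h.jsymm _ _ hbc) hc hb t2 t3 t4 t1 h23 h34 h41 h12 with h1 | h1
      · exact Or.inr h1
      · exact Or.inl h1.symm
    · exact ts_case3 h hbc hb hc t1 t2 t3 t4 h12 h23 h34 h41

end Pool.Agent.H54.TF
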