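import Pool.Agent.H54.TF.Usc
import Pool.Agent.H54.TF.Lv
import Pool.Agent.H54.TF.St

/-!
# [H54 TF GST] Propagation along a triangle (60 min)

`ts_art`: `TS (fun v : AV M => v.1) AJ (fun b c => 3 ≤ M b c) {p, q, r}`. `symm`, `same`, `fill`: `Av.lean`. `jsymm`: `M.symmetric`. `uJ`: the nine cases. `u3`: finitely many cases. `conn`: `ucx_conn`.
`lk`: `aj_lk` with `hF t b c` (`t = v.1`). `lev`: `exists_lev (ucx M {p, q, r})` with `ucx_sc`: `hf`: by definition (the three vertices are different by hypothesis `x ≠ y` etc.); `h4`: four pairwise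
adjacent different vertices have four different types (`aj_same`), but there are three; `hc4`: `v, a, b, c, d`: the types of `a, b, c, d` are not `v.1` (`aj_same`), `a.1 ≠ b.1`, `b.1 ≠ c.1`, ..., so `a.1 = c.1`,
`b.1 = d.1`; `lk` (`3 ≤ M a.1 b.1`) gives `AJ a c` or `AJ b d`, so `a = c` or `b = d` (`aj_same`, `Subtype.ext`); `hc5`: five types in a two-element set, consecutive ones different,
cyclically: impossible. The relation `E` of `TS.lev` is definitionally `(ucx M _).Edge`.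
`gs_step`: `gc_of_gs`, `pt` give `FC M {t}ᶜ b c`; `ts_art`, `ts_main`; `GC M univ b c`: translate cosets of `ap (univ \ {b})` to vertices (`Set.compl_eq_univ_diff`, `aj_iff`, `av_eq_iff`); `gs_of_gc`.
-/

set_option autoImplicit false

namespace Pool.Agent.H54.TF

open CoxeterSystem Pool.H8.CDW Pool.Agent.H52.PAG Pool.Agent.H75.INF Pool.Agent.H54.CX

variable {B : Type} {M : CoxeterMatrix B}

theorem ts_art {p q r : B} (hpq : 3 ≤ M p q) (hqr : 3 ≤ M q r) (hpr : 3 ≤ M p r) (hF : ∀ t ∈ ({p, q, r} : Set B), ∀ b c,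
    b ≠ t → c ≠ t → 3 ≤ M b c → FC M ({t}ᶜ : Set B) b c) :
    TS (fun v : AV M => v.1) AJ (fun b c => 3 ≤ M b c) ({p, q, r} : Set B) := by
  have ne3 : ∀ {a b : B}, 3 ≤ M a b → a ≠ b := by
    rintro a b h rfl
    rw [M.diagonal a] at h
    omega
  have hpq' := ne3 hpq
  have hqr' := ne3 hqr
  have hpr' := ne3 hpr
  have uJ : ∀ a ∈ ({p, q, r} : Set B), ∀ b ∈ ({p, q, r} : Set B), a ≠ b → 3 ≤ M a b := by
    intro a ha b hb hab
    simp only [Set.mem_insert_iff, Set.mem_singleton_iff] at ha hb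
    rcases ha with h1 | h1 | h1 <;> rcases hb with h2 | h2 | h2
    · exact absurd (h1.trans h2.symm) hab
    · rw [h1, h2]; exact hpq
    · rw [h1, h2]; exact hpr
    · rw [h1, h2, M.symmetric]; exact hpq
    · exact absurd (h1.trans h2.symm) hab
    · rw [h1, h2]; exact hqr
    · rw [h1, h2, M.symmetric]; exact hpr
    · rw [h1, h2, M.symmetric]; exact hqr
    · exact absurd (h1.trans h2.symm) hab
  have u3 : ∀ a ∈ ({p, q, r} : Set B), ∀ b ∈ ({p, q, r} : Set B), ∀ c ∈ ({p, q, r} : Set B), a ≠ b → b ≠ c → a ≠ c →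
      ∀ d ∈ ({p, q, r} : Set B), d = a ∨ d = b ∨ d = c := by
    intro a ha b hb c hc hab hbc hac d hd
    simp only [Set.mem_insert_iff, Set.mem_singleton_iff] at ha hb hc hd
    grind
  have ty : ∀ x y : {v : AV M // v.1 ∈ ({p, q, r} : Set B)}, (ucx M ({p, q, r} : Set B)).Edge x y → x.1.1 ≠ y.1.1 :=
    fun x y h h' => h.1 (Subtype.ext (aj_same h.2 h'))
  refine ⟨fun _ _ h => aj_symm h, fun _ _ h h' => aj_same h h', fun b c h => ?_, ⟨p, by simp⟩, uJ, u3,
    fun x y h t => aj_fill h t, ?_, fun Z hZ x y hx hy => ucx_conn hpq' hqr' hpr' Z hZ x y hx hy, fun z => ?_⟩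
  · show 3 ≤ M c b
    rw [M.symmetric]
    exact h
  · intro v x y z w hv hvx hvy hvz hvw hx hy _ _ hJ hxy hyz hzw hwx
    exact aj_lk (hF v.1 hv x.1 y.1 hx hy hJ) rfl hvx hvy hvz hvw rfl rfl hxy hyz hzw hwx
  · refine exists_lev (ucx M ({p, q, r} : Set B)) (ucx_sc hpq' hqr' hpr')
      (fun x y z h1 h2 h3 => ⟨⟨h1.1, h2.1, h3.1⟩, h1.2, h2.2, h3.2⟩) ?_ ?_ ?_ z
    · intro x y z w h1 h2 h3 h4 h5 h6
      rcases u3 _ x.2 _ y.2 _ z.2 (ty _ _ h1) (ty _ _ h4) (ty _ _ h2) _ w.2 with h | h | h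
      · exact ty _ _ h3 h.symm
      · exact ty _ _ h5 h.symm
      · exact ty _ _ h6 h.symm
    · intro v a b c d hva hvb hvc hvd hab hbc hcd hda
      rcases aj_lk (hF v.1.1 v.2 a.1.1 b.1.1 (ty _ _ hva).symm (ty _ _ hvb).symm (uJ _ a.2 _ b.2 (ty _ _ hab))) rfl
        hva.2 hvb.2 hvc.2 hvd.2 rfl rfl hab.2 hbc.2 hcd.2 hda.2 with h | h
      · left
        refine Subtype.ext (aj_same h ?_)
        rcases u3 _ v.2 _ a.2 _ b.2 (ty _ _ hva) (ty _ _ hab) (ty _ _ hvb) _ c.2 with h' | h' | h'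
        · exact absurd h'.symm (ty _ _ hvc)
        · exact h'.symm
        · exact absurd h'.symm (ty _ _ hbc)
      · right
        refine Subtype.ext (aj_same h ?_)
        rcases u3 _ v.2 _ a.2 _ b.2 (ty _ _ hva) (ty _ _ hab) (ty _ _ hvb) _ d.2 with h' | h' | h'
        · exact absurd h'.symm (ty _ _ hvd)
        · exact absurd h' (ty _ _ hda)
        · exact h'.symm
    · intro v a b c d e hva hvb hvc hvd hve hab hbc hcd hde hea
      have k : ∀ x : {v : AV M // v.1 ∈ ({p, q, r} : Set B)}, (ucx M ({p, q, r} : Set B)).Edge v x →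
          x.1.1 = a.1.1 ∨ x.1.1 = b.1.1 := by
        intro x hx
        rcases u3 _ v.2 _ a.2 _ b.2 (ty _ _ hva) (ty _ _ hab) (ty _ _ hvb) _ x.2 with h' | h' | h'
        · exact absurd h'.symm (ty _ _ hx)
        · exact Or.inl h'
        · exact Or.inr h'
      have t1 := ty _ _ hbc
      have t2 := ty _ _ hcd
      have t3 := ty _ _ hde
      have t4 := ty _ _ hea
      rcases k c hvc with h1 | h1
      · rcases k d hvd with h2 | h2
        · exact t2 (h1.trans h2.symm)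
        · rcases k e hve with h3 | h3
          · exact t4 h3
          · exact t3 (h2.trans h3.symm)
      · exact t1 h1.symm

theorem gs_step (hM : ∀ i j, M i j ≠ 0) {p q r : B} (hpq : 3 ≤ M p q) (hqr : 3 ≤ M q r) (hpr : 3 ≤ M p r)
    (hG : ∀ t ∈ ({p, q, r} : Set B), ∀ b c, b ≠ t → c ≠ t → 3 ≤ M b c → GS M ({t}ᶜ : Set B) b c) {b c : B} (hbc : 3 ≤ M b c) :
    GS M Set.univ b c := by
  have hT := ts_art hpq hqr hpr fun t ht b c hb hc h => pt hM h (gc_of_gs (hG t ht b c hb hc h))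
  refine gs_of_gc fun g₁ g₂ g₃ g₄ h12 h23 h34 h41 => ?_
  rw [← Set.compl_eq_univ_sdiff, ← Set.compl_eq_univ_sdiff] at *
  rcases ts_main hT hbc (P₁ := av M b g₁) (P₂ := av M c g₂) (P₃ := av M b g₃) (P₄ := av M c g₄) rfl rfl rfl rfl
    (aj_iff.2 h12) (aj_iff.2 h23) (aj_iff.2 h34) (aj_iff.2 h41) with h | h
  · exact Or.inl (av_eq_iff.1 h).2
  · exact Or.inr (av_eq_iff.1 h).2

end Pool.Agent.H54.TF
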