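import Pool.Agent.H54.TF.Lft

/-!
# [H54 TF PC] The projection to a coset (40 min)

`prc M K g h = g * pr M K (g⁻¹ * h)`. `prc_mem`: `pr_mem`. `prc_congr`: `g' = g k`, `k ∈ ap K`: `g' pr (g'⁻¹ h) = g k pr (k⁻¹ (g⁻¹ h)) = g k k⁻¹ pr (g⁻¹ h)` (`pr_mul` with
`toCox_mem`, `pr_self`). `prc_meet`: the cosets `g ap K`, `h ap L` have a common element `x`; `q ∈ h ap L`: `prc K g q = prc K x q = x * pr K (x⁻¹ q)`, `x⁻¹ q ∈ ap L`, so
`pr K (x⁻¹ q) ∈ ap (K ∩ L)` (`pr_inter`) and the product is in `x ap L = h ap L`. `prc_range`: `q = h l`, `q' = h l'`, `l, l' ∈ ap L`: `pr K (g⁻¹ h l) = pr K (g⁻¹ h) * cy K (toCox (g⁻¹ h)) l`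
(`(cy_spec ..).mul`, `one_mul`) and `cy_range` with `toCox (g⁻¹ h) = u d t`; the quotient is `(cy .. l)⁻¹ * cy .. l'`. `prc_one`: the case `d = 1`: the set is contained in
`K ∩ L` by `simple_inj`.
-/

set_option autoImplicit false

namespace Pool.Agent.H54.TF

open CoxeterSystem Pool.H8.CDW Pool.Agent.H52.PAG Pool.Agent.H75.INF

variable {B : Type} {M : CoxeterMatrix B}

theorem prc_mem (K : Set B) (g h : Art M) : g⁻¹ * prc M K g h ∈ ap M K := by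
  unfold prc
  rw [inv_mul_cancel_left]
  exact pr_mem K _

theorem prc_congr {K : Set B} {g g' : Art M} (hg : g⁻¹ * g' ∈ ap M K) (h : Art M) : prc M K g h = prc M K g' h := by
  have hk : (g⁻¹ * g')⁻¹ ∈ ap M K := inv_mem hg
  unfold prc
  have e : g'⁻¹ * h = (g⁻¹ * g')⁻¹ * (g⁻¹ * h) := by group
  rw [e, pr_mul (toCox_mem hk), pr_self hk]
  group

theorem prc_meet {K L : Set B} {g h q : Art M} (hm : Mt M K L g h) (hq : h⁻¹ * q ∈ ap M L) : h⁻¹ * prc M K g q ∈ ap M L := by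
  obtain ⟨x, hx1, hx2⟩ := hm
  rw [prc_congr hx1 q]
  unfold prc
  have h1 : x⁻¹ * q ∈ ap M L := by
    have e : x⁻¹ * q = (h⁻¹ * x)⁻¹ * (h⁻¹ * q) := by group
    rw [e]
    exact mul_mem (inv_mem hx2) hq
  rw [← mul_assoc]
  exact mul_mem hx2 (ap_mono Set.inter_subset_right (pr_inter h1))

theorem prc_range {K L : Set B} {g h q q' : Art M} {u d t : M.Group} (hu : u ∈ pw M K) (ht : t ∈ pw M L)
    (h1 : IsL M.toCoxeterSystem K d) (h2 : IsMin M.toCoxeterSystem L d) (hd : toCox M (g⁻¹ * h) = u * d * t)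
    (hq : h⁻¹ * q ∈ ap M L) (hq' : h⁻¹ * q' ∈ ap M L) : (prc M K g q)⁻¹ * prc M K g q' ∈
      ap M {k | k ∈ K ∧ ∃ l ∈ L, M.toCoxeterSystem.simple k * d = d * M.toCoxeterSystem.simple l} := by
  have key : ∀ p : Art M, h⁻¹ * p ∈ ap M L → ∃ z ∈ ap M {k | k ∈ K ∧ ∃ l ∈ L,
      M.toCoxeterSystem.simple k * d = d * M.toCoxeterSystem.simple l},
      prc M K g p = g * (pr M K (g⁻¹ * h) * z) := by
    intro p hp
    refine ⟨cy M K (u * d * t) (h⁻¹ * p), cy_range K L hu ht h1 h2 hp, ?_⟩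
    unfold prc pr
    have e : g⁻¹ * p = (g⁻¹ * h) * (h⁻¹ * p) := by group
    rw [e, (cy_spec M K).mul, one_mul, hd]
  obtain ⟨z, hz, e1⟩ := key q hq
  obtain ⟨z', hz', e2⟩ := key q' hq'
  rw [e1, e2]
  have e : (g * (pr M K (g⁻¹ * h) * z))⁻¹ * (g * (pr M K (g⁻¹ * h) * z')) = z⁻¹ * z' := by group
  rw [e]
  exact mul_mem (inv_mem hz) hz'

theorem prc_one {K L : Set B} {g h q q' : Art M} {u t : M.Group} (hu : u ∈ pw M K) (ht : t ∈ pw M L)
    (hd : toCox M (g⁻¹ * h) = u * t) (hq : h⁻¹ * q ∈ ap M L) (hq' : h⁻¹ * q' ∈ ap M L) :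
    (prc M K g q)⁻¹ * prc M K g q' ∈ ap M (K ∩ L) := by
  have h1 : IsL M.toCoxeterSystem K (1 : M.Group) := fun i _ hc => by
    unfold CoxeterSystem.IsLeftDescent at hc
    rw [CoxeterSystem.length_one] at hc
    omega
  have h2 : IsMin M.toCoxeterSystem L (1 : M.Group) := fun i _ hc => by
    unfold CoxeterSystem.IsRightDescent at hc
    rw [CoxeterSystem.length_one] at hc
    omega
  have h3 := prc_range (g := g) (h := h) hu ht h1 h2 (by rw [mul_one]; exact hd) hq hq'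
  refine ap_mono ?_ h3
  rintro k ⟨hk, l, hl, e⟩
  rw [mul_one, one_mul] at e
  rw [simple_inj M.toCoxeterSystem e] at hk ⊢
  exact ⟨hk, hl⟩

end Pool.Agent.H54.TF
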