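import Pool.Agent.H54.TF.Cv

/-!
# [H54 TF PG] The polygon lemma (100 min)

`E` symmetric and irreflexive. Consider the lists `l₁ ++ v :: l₂` (`v` is the corner, `k = l₁.length`), `IsChain E`, with all elements of `l₁` and `v` in `C₂`, `v` and all elements of `l₂`
in `C₃`, the first element in `C₁` (and in `C₂`), the last in `C₄` (and in `C₃`). One exists: a point of `C₁ ∩ C₂`, a path in `C₂` to a point `v` of `C₂ ∩ C₃`, a path in `C₃` to a point of
`C₃ ∩ C₄`. Take one with the sum of the `2 ^ lev` minimal. Write it as `v₀, …, v_L`, corner `v_k`. CLAIM `L = 0` (then `v₀` is in all four sets). Let `L ≥ 1`, `n` the maximal level; `n ≥ 1`,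
because `E v₀ v₁` and only `z` has level `0`. Take the first maximal run `[α, β]` of vertices of level `n` (`lev v_j = n` for `α ≤ j ≤ β`, the neighbours `v_(α-1)`, `v_(β+1)`, if they
exist, are lower).
(i) `α = β = j`.
 - `j = 0`, `k ≥ 1`: `v₁ ∈ C₂`, `v₁` is lower than `v₀ ∈ C₁`: `v₁ ∈ C₁` (`cvx_low` with `C₁`, `z ∈ C₁`): delete `v₀`.
 - `j = 0 = k`: `v₀ ∈ C₁, C₂, C₃`, `v₁ ∈ C₃`, `v₁ ∈ C₁` (`cvx_low`), so `v₁ ∈ C₂` by `d2`: delete `v₀`, the corner is `v₁`.
 - `j = L`: the same with `C₄`, `C₃`, `C₂`, `d3`.
 - `0 < j < L`: `one`: `v_(j-1) = v_(j+1)` or adjacent. `j ≠ k`: delete `v_j` (and `v_(j+1)`). `j = k`: equal: the new corner is `v_(j-1) = v_(j+1) ∈ C₂ ∩ C₃`; adjacent: `e23` for `x = v_k`,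
   `u = v_(k-1)`, `w = v_(k+1)`: `u ∈ C₃` or `w ∈ C₂`: delete `v_k`, the new corner is `u` or `w`.
(ii) `α < β`. LEFT END. `0 < α`, `α ≠ k`: `v_(α-1), v_α, v_(α+1)` are in the same `C_i` (`i = 2` or `3`). `two` for `v_α`, `v_(α+1)` gives `y`; `one` for `v_α`: `y = v_(α-1)`: delete `v_α`; or
 `E y v_(α-1)`: `y ∈ C_i` (`link` at `v_α`, `u = v_(α-1)`, `u' = v_(α+1)`): replace `v_α` by `y`. `α = 0 < k`: `y` as before, `y ∈ C₁` (`cvx_low`), `e12` for `x = v₀`, `u = y`, `w = v₁`: `y ∈ C₂`:
 replace `v₀` by `y`; or `v₁ ∈ C₁`: delete `v₀`. The only remaining case is `α = k`.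
 RIGHT END: the mirror image (`C₄`, `e34`); the only remaining case is `β = k`. As `α < β`, one of the two ends works.
 (If `α = k` then `β > k`, so all of `v_(β-1), v_β, v_(β+1)` are in `C₃`.)
All replacements make the measure smaller. It is enough to treat: a position `j` of maximal level `n` for which `v_(j-1)` is lower or does not exist (`α`), or `v_(j+1)` is lower or does
not exist (`β`): by the mirror symmetry `(C₁, C₂, C₃, C₄, l) ↔ (C₄, C₃, C₂, C₁, reverse l)` only one half of the cases has to be written.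
Suggestion: functions `v : ℕ → V` on `[0, L]` instead of lists, strong induction on the measure `∑ j ∈ range (L + 1), 2 ^ lev (v j)`, with lemmas `delete` (`j ↦ if j < i then v j else v (j + 1)`)
and `replace` (`Function.update`).
-/

set_option autoImplicit false

namespace Pool.Agent.H54.TF

variable {V : Type} {E : V → V → Prop}

private theorem sum_reindex (g : ℕ → ℕ) (hg : ∀ j, 0 < g j) (f : ℕ → ℕ) (hf : StrictMono f) {L' L : ℕ} (h : L' < L)
    (hL : f L' ≤ L) : ∑ j ∈ Finset.range (L' + 1), g (f j) < ∑ j ∈ Finset.range (L + 1), g j := by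
  classical
  have hsub : (Finset.range (L' + 1)).image f ⊆ Finset.range (L + 1) := by
    intro i hi
    rw [Finset.mem_image] at hi
    obtain ⟨j, hj, rfl⟩ := hi
    rw [Finset.mem_range] at hj ⊢
    have := hf.monotone (show j ≤ L' by omega)
    omega
  have hcard : ((Finset.range (L' + 1)).image f).card < (Finset.range (L + 1)).card := by
    rw [Finset.card_image_of_injective _ hf.injective, Finset.card_range, Finset.card_range]
    omega
  obtain ⟨i, hi, hni⟩ := Finset.exists_mem_notMem_of_card_lt_card hcard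
  calc ∑ j ∈ Finset.range (L' + 1), g (f j) = ∑ i ∈ (Finset.range (L' + 1)).image f, g i := by
        rw [Finset.sum_image (fun _ _ _ _ h => hf.injective h)]
    _ < ∑ j ∈ Finset.range (L + 1), g j :=
        Finset.sum_lt_sum_of_subset hsub hi hni (hg i) (fun _ _ _ => Nat.zero_le _)

private theorem exists_path {C : Set V} {x y : V} (hx : x ∈ C) (h : Relation.ReflTransGen (fun a b => E a b ∧ b ∈ C) x y) :
    ∃ (v : ℕ → V) (L : ℕ), v 0 = x ∧ v L = y ∧ (∀ j < L, E (v j) (v (j + 1))) ∧ ∀ j ≤ L, v j ∈ C := by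
  induction h with
  | refl => exact ⟨fun _ => x, 0, rfl, rfl, fun j hj => absurd hj (Nat.not_lt_zero _), fun _ _ => hx⟩
  | @tail b c _ hbc ih =>
    obtain ⟨v, L, h0, hL, hE, hC⟩ := ih
    refine ⟨fun j => if j ≤ L then v j else c, L + 1, ?_, ?_, ?_, ?_⟩
    · simp [h0]
    · simp
    · intro j hj
      rcases Nat.lt_or_ge j L with hjL | hjL
      · simp only [if_pos hjL.le, if_pos (show j + 1 ≤ L from hjL)]
        exact hE j hjL
      · have hjeq : j = L := by omega
        subst hjeq
        simp only [le_refl, if_true, if_neg (show ¬ (j + 1 ≤ j) by omega)]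
        rw [hL]
        exact hbc.1
    · intro j hj
      rcases Nat.lt_or_ge L j with hjL | hjL
      · simp only [if_neg (show ¬ (j ≤ L) by omega)]
        exact hbc.2
      · simp only [if_pos hjL]
        exact hC j hjL

private def IsP (E : V → V → Prop) (C₁ C₂ C₃ C₄ : Set V) (v : ℕ → V) (k L : ℕ) : Prop :=
  k ≤ L ∧ (∀ j < L, E (v j) (v (j + 1))) ∧ (∀ j ≤ k, v j ∈ C₂) ∧ (∀ j, k ≤ j → j ≤ L → v j ∈ C₃) ∧ v 0 ∈ C₁ ∧ v L ∈ C₄

theorem polygon (hs : ∀ x y, E x y → E y x) (hi : ∀ x, ¬ E x x) {z : V} {lev : V → ℕ} (hl : IsLev E z lev) {C₁ C₂ C₃ C₄ : Set V}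
    (h1 : Cvx E C₁) (h2 : Cvx E C₂) (h3 : Cvx E C₃) (h4 : Cvx E C₄) (z1 : z ∈ C₁) (z4 : z ∈ C₄)
    (n12 : ∃ x, x ∈ C₁ ∧ x ∈ C₂) (n23 : ∃ x, x ∈ C₂ ∧ x ∈ C₃) (n34 : ∃ x, x ∈ C₃ ∧ x ∈ C₄)
    (e12 : ∀ x u w, x ∈ C₁ → x ∈ C₂ → u ∈ C₁ → w ∈ C₂ → E x u → E x w → E u w → u ∈ C₂ ∨ w ∈ C₁)
    (e23 : ∀ x u w, x ∈ C₂ → x ∈ C₃ → u ∈ C₂ → w ∈ C₃ → E x u → E x w → E u w → u ∈ C₃ ∨ w ∈ C₂)
    (e34 : ∀ x u w, x ∈ C₃ → x ∈ C₄ → u ∈ C₃ → w ∈ C₄ → E x u → E x w → E u w → u ∈ C₄ ∨ w ∈ C₃)
    (d2 : ∀ x u, x ∈ C₁ → x ∈ C₂ → x ∈ C₃ → u ∈ C₁ → u ∈ C₃ → E x u → u ∈ C₂)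
    (d3 : ∀ x u, x ∈ C₂ → x ∈ C₃ → x ∈ C₄ → u ∈ C₂ → u ∈ C₄ → E x u → u ∈ C₃) :
    ∃ x, x ∈ C₁ ∧ x ∈ C₂ ∧ x ∈ C₃ ∧ x ∈ C₄ := by
  classical
  have hex : ∃ m, ∃ (v : ℕ → V) (k L : ℕ), IsP E C₁ C₂ C₃ C₄ v k L ∧ ∑ j ∈ Finset.range (L + 1), 2 ^ lev (v j) = m := by
    obtain ⟨x, x1, x2⟩ := n12
    obtain ⟨y, y2, y3⟩ := n23
    obtain ⟨w, w3, w4⟩ := n34
    obtain ⟨v, L, v0, vL, vE, vC⟩ := exists_path x2 (h2.conn x x2 y y2)
    obtain ⟨v', L', v0', vL', vE', vC'⟩ := exists_path y3 (h3.conn y y3 w w3)
    refine ⟨_, fun j => if j ≤ L then v j else v' (j - L), L, L + L', ⟨?_, ?_, ?_, ?_, ?_, ?_⟩, rfl⟩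
    · omega
    · intro j hj
      rcases Nat.lt_or_ge j L with hjL | hjL
      · simp only [if_pos hjL.le, if_pos (show j + 1 ≤ L from hjL)]
        exact vE j hjL
      · rcases Nat.eq_or_lt_of_le hjL with hjeq | hjlt
        · subst hjeq
          simp only [le_refl, if_true, if_neg (show ¬ (L + 1 ≤ L) by omega), Nat.add_sub_cancel_left]
          rw [vL, ← v0']
          exact vE' 0 (by omega)
        · simp only [if_neg (show ¬ (j ≤ L) by omega), if_neg (show ¬ (j + 1 ≤ L) by omega)]
          have := vE' (j - L) (by omega)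
          rw [show j - L + 1 = j + 1 - L by omega] at this
          exact this
    · intro j hj
      simp only [if_pos hj]
      exact vC j hj
    · intro j hj hj2
      rcases Nat.eq_or_lt_of_le hj with hjeq | hjlt
      · subst hjeq
        simp only [le_refl, if_true, vL]
        exact y3
      · simp only [if_neg (show ¬ (j ≤ L) by omega)]
        exact vC' _ (by omega)
    · simp only [Nat.zero_le, if_true, v0]
      exact x1
    · rcases Nat.eq_zero_or_pos L' with h | h
      · subst h
        simp only [Nat.add_zero, le_refl, if_true, vL]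
        rw [← v0', vL']
        exact w4
      · simp only [if_neg (show ¬ (L + L' ≤ L) by omega), Nat.add_sub_cancel_left, vL']
        exact w4
  obtain ⟨v, k, L, ⟨hk, hE, hC2, hC3, h0, hL⟩, hm⟩ := Nat.find_spec hex
  have hmin : ∀ (v' : ℕ → V) (k' L' : ℕ), IsP E C₁ C₂ C₃ C₄ v' k' L' →
      ∑ j ∈ Finset.range (L' + 1), 2 ^ lev (v' j) < ∑ j ∈ Finset.range (L + 1), 2 ^ lev (v j) → False := by
    intro v' k' L' hP hlt
    have := Nat.find_min' hex ⟨v', k', L', hP, rfl⟩
    rw [← hm] at this
    omega
  clear hm hex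
  rcases Nat.eq_zero_or_pos L with hL0 | hLpos
  · subst hL0
    have hk0 : k = 0 := by omega
    subst hk0
    exact ⟨v 0, h0, hC2 0 le_rfl, hC3 0 le_rfl le_rfl, hL⟩
  exfalso
  have hpos : ∀ j, 0 < 2 ^ lev (v j) := fun j => Nat.two_pow_pos _
  -- F1
  have F1 : ∀ i, i + 2 ≤ L → v i ≠ v (i + 2) := by
    intro i hi he
    have hf : StrictMono (fun j : ℕ => if j ≤ i then j else j + 2) := by
      intro a b hab
      simp only
      split_ifs <;> omega
    refine hmin (fun j => v (if j ≤ i then j else j + 2)) (if k ≤ i then k else if k ≤ i + 2 then i else k - 2) (L - 2)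
      ⟨?_, ?_, ?_, ?_, ?_, ?_⟩
      (sum_reindex (fun j => 2 ^ lev (v j)) hpos (fun j : ℕ => if j ≤ i then j else j + 2) hf (by omega)
        (by (try simp only); split_ifs <;> omega))
    · split_ifs <;> omega
    · intro j hj
      simp only
      rcases Nat.lt_trichotomy j i with h | h | h
      · rw [if_pos (show j ≤ i by omega), if_pos (show j + 1 ≤ i by omega)]
        exact hE j (by omega)
      · subst h
        rw [if_pos le_rfl, if_neg (show ¬ (j + 1 ≤ j) by omega), he]
        exact hE (j + 2) (by omega)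
      · rw [if_neg (show ¬ (j ≤ i) by omega), if_neg (show ¬ (j + 1 ≤ i) by omega)]
        exact hE (j + 2) (by omega)
    · intro j hj
      simp only
      split_ifs at hj ⊢ <;> first | exact hC2 _ (by omega) | omega
    · intro j hj hj2
      simp only
      rcases Nat.lt_or_ge i j with hij | hij
      · rw [if_neg (show ¬ (j ≤ i) by omega)]
        refine hC3 _ ?_ (by omega)
        split_ifs at hj <;> omega
      · rw [if_pos hij]
        rcases Nat.lt_or_ge i k with hik | hik
        · have hji : j = i := by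
            split_ifs at hj <;> omega
          rw [hji, he]
          refine hC3 _ ?_ (by omega)
          split_ifs at hj <;> omega
        · rw [if_pos hik] at hj
          exact hC3 _ hj (by omega)
    · simp only [Nat.zero_le, if_true]
      exact h0
    · simp only
      rcases Nat.eq_or_lt_of_le hi with h | h
      · rw [if_pos (by omega), show L - 2 = i by omega, he, h]
        exact hL
      · rw [if_neg (by omega), show L - 2 + 2 = L by omega]
        exact hL
  -- F2
  have F2 : ∀ i, i + 2 ≤ L → ¬ E (v i) (v (i + 2)) := by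
    intro i hi he
    have hf : StrictMono (fun j : ℕ => if j ≤ i then j else j + 1) := by
      intro a b hab
      simp only
      split_ifs <;> omega
    obtain ⟨k', hk', hk2, hk3⟩ : ∃ k', k' ≤ L - 1 ∧ (∀ j ≤ k', v (if j ≤ i then j else j + 1) ∈ C₂) ∧
        (∀ j, k' ≤ j → j ≤ L - 1 → v (if j ≤ i then j else j + 1) ∈ C₃) := by
      rcases Nat.lt_trichotomy k (i + 1) with h | h | h
      · refine ⟨k, by omega, ?_, ?_⟩
        · intro j hj
          rw [if_pos (by omega)]
          exact hC2 j hj
        · intro j hj hj2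
          split_ifs <;> exact hC3 _ (by omega) (by omega)
      · subst h
        rcases e23 (v (i + 1)) (v i) (v (i + 2)) (hC2 _ le_rfl) (hC3 _ le_rfl (by omega)) (hC2 _ (by omega))
          (hC3 _ (by omega) (by omega)) (hs _ _ (hE i (by omega))) (hE (i + 1) (by omega)) he with hu | hw
        · refine ⟨i, by omega, ?_, ?_⟩
          · intro j hj
            rw [if_pos hj]
            exact hC2 j (by omega)
          · intro j hj hj2
            rcases Nat.eq_or_lt_of_le hj with h | h
            · subst h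
              rw [if_pos le_rfl]
              exact hu
            · rw [if_neg (by omega)]
              exact hC3 _ (by omega) (by omega)
        · refine ⟨i + 1, by omega, ?_, ?_⟩
          · intro j hj
            split_ifs with h
            · exact hC2 j (by omega)
            · have : j = i + 1 := by omega
              subst this
              exact hw
          · intro j hj hj2
            rw [if_neg (by omega)]
            exact hC3 _ (by omega) (by omega)
      · refine ⟨k - 1, by omega, ?_, ?_⟩
        · intro j hj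
          split_ifs <;> exact hC2 _ (by omega)
        · intro j hj hj2
          rw [if_neg (by omega)]
          exact hC3 _ (by omega) (by omega)
    refine hmin (fun j => v (if j ≤ i then j else j + 1)) k' (L - 1) ⟨hk', ?_, hk2, hk3, ?_, ?_⟩
      (sum_reindex (fun j => 2 ^ lev (v j)) hpos (fun j : ℕ => if j ≤ i then j else j + 1) hf (by omega)
        (by (try simp only); split_ifs <;> omega))
    · intro j hj
      simp only
      rcases Nat.lt_trichotomy j i with h | h | h
      · rw [if_pos (show j ≤ i by omega), if_pos (show j + 1 ≤ i by omega)]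
        exact hE j (by omega)
      · subst h
        rw [if_pos le_rfl, if_neg (show ¬ (j + 1 ≤ j) by omega)]
        exact he
      · rw [if_neg (show ¬ (j ≤ i) by omega), if_neg (show ¬ (j + 1 ≤ i) by omega)]
        exact hE (j + 1) (by omega)
    · simp only [Nat.zero_le, if_true]
      exact h0
    · simp only
      rw [if_neg (by omega), show L - 1 + 1 = L by omega]
      exact hL
  -- F3
  have F3 : ∀ j ≤ L, ∀ y, lev y < lev (v j) → (∀ i, j = i + 1 → E (v i) y) → (j < L → E y (v (j + 1))) →
      (j ≤ k → y ∈ C₂) → (k ≤ j → y ∈ C₃) → (j = 0 → y ∈ C₁) → (j = L → y ∈ C₄) → False := by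
    intro j hj y hy hl' hr' y2 y3 y1 y4
    refine hmin (Function.update v j y) k L ⟨hk, ?_, ?_, ?_, ?_, ?_⟩ ?_
    · intro i hi
      rcases Nat.lt_trichotomy i j with h | h | h
      · rw [Function.update_of_ne (by omega)]
        rcases Nat.eq_or_lt_of_le (show i + 1 ≤ j from h) with h' | h'
        · rw [h', Function.update_self]
          exact hl' i h'.symm
        · rw [Function.update_of_ne (by omega)]
          exact hE i hi
      · subst h
        rw [Function.update_self, Function.update_of_ne (by omega)]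
        exact hr' hi
      · rw [Function.update_of_ne (by omega), Function.update_of_ne (by omega)]
        exact hE i hi
    · intro i hi
      by_cases h : i = j
      · subst h
        rw [Function.update_self]
        exact y2 hi
      · rw [Function.update_of_ne h]
        exact hC2 i hi
    · intro i hi hi2
      by_cases h : i = j
      · subst h
        rw [Function.update_self]
        exact y3 hi
      · rw [Function.update_of_ne h]
        exact hC3 i hi hi2
    · by_cases h : 0 = j
      · subst h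
        rw [Function.update_self]
        exact y1 rfl
      · rw [Function.update_of_ne h]
        exact h0
    · by_cases h : L = j
      · subst h
        rw [Function.update_self]
        exact y4 rfl
      · rw [Function.update_of_ne h]
        exact hL
    · apply Finset.sum_lt_sum
      · intro i hi
        by_cases h : i = j
        · subst h
          rw [Function.update_self]
          exact Nat.pow_le_pow_right (by norm_num) hy.le
        · rw [Function.update_of_ne h]
      · refine ⟨j, Finset.mem_range.2 (by omega), ?_⟩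
        rw [Function.update_self]
        exact Nat.pow_lt_pow_right (by norm_num) hy
  -- F4
  have F4 : v 1 ∈ C₁ → (k = 0 → v 1 ∈ C₂) → False := by
    intro h1' h2'
    refine hmin (fun j => v (j + 1)) (k - 1) (L - 1) ⟨by omega, ?_, ?_, ?_, h1', ?_⟩
      (sum_reindex (fun j => 2 ^ lev (v j)) hpos (fun j : ℕ => j + 1) (fun a b h => Nat.add_lt_add_right h 1) (by omega)
        (by (try simp only); omega))
    · intro j hj
      exact hE (j + 1) (by omega)
    · intro j hj
      rcases Nat.eq_zero_or_pos k with h | h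
      · have : j = 0 := by omega
        subst this
        exact h2' h
      · exact hC2 (j + 1) (by omega)
    · intro j hj hj2
      exact hC3 (j + 1) (by omega) (by omega)
    · simp only
      rw [show L - 1 + 1 = L by omega]
      exact hL
  have F4' : v (L - 1) ∈ C₄ → (k = L → v (L - 1) ∈ C₃) → False := by
    intro h1' h2'
    refine hmin v (min k (L - 1)) (L - 1) ⟨by omega, ?_, ?_, ?_, h0, h1'⟩
      (sum_reindex (fun j => 2 ^ lev (v j)) hpos (fun j : ℕ => j) (fun a b h => h) (by omega)
        (by (try simp only); omega))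
    · intro j hj
      exact hE j (by omega)
    · intro j hj
      exact hC2 j (by omega)
    · intro j hj hj2
      by_cases h : k = L
      · have : j = L - 1 := by omega
        subst this
        exact h2' h
      · exact hC3 j (by omega) (by omega)
  clear hmin
  -- the maximal level
  obtain ⟨j0, hj0, hmax⟩ := Finset.exists_max_image (Finset.range (L + 1)) (fun j => lev (v j)) ⟨0, by simp⟩
  obtain ⟨n, hn⟩ : ∃ n, n = lev (v j0) := ⟨_, rfl⟩
  have hle : ∀ i ≤ L, lev (v i) ≤ n := by
    intro i hi
    rw [hn]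
    exact hmax i (Finset.mem_range.2 (by omega))
  have hj0' : j0 ≤ L := by
    have := Finset.mem_range.1 hj0
    omega
  -- isolated
  have I : ∀ j ≤ L, lev (v j) = n → (∀ i, j = i + 1 → lev (v i) < n) → (j < L → lev (v (j + 1)) < n) → False := by
    intro j hj hjn hleft hright
    rcases Nat.eq_zero_or_pos j with hj0 | hjpos
    · subst hj0
      have hlt := hright hLpos
      have hv1 : v 1 ∈ C₁ := cvx_low hs hl h1 z1 h0 (hE 0 hLpos) (by rw [hjn]; exact hlt)
      refine F4 hv1 ?_
      intro hk0
      subst hk0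
      exact d2 (v 0) (v 1) h0 (hC2 0 le_rfl) (hC3 0 le_rfl (by omega)) hv1 (hC3 1 (by omega) (by omega)) (hE 0 hLpos)
    · obtain ⟨i, rfl⟩ : ∃ i, j = i + 1 := ⟨j - 1, by omega⟩
      have hlt := hleft i rfl
      rcases Nat.eq_or_lt_of_le hj with hjL | hjL
      · have hi : L - 1 = i := by omega
        have hvi : v i ∈ C₄ := cvx_low hs hl h4 z4 (x := v (i + 1)) (by rw [hjL]; exact hL) (hs _ _ (hE i (by omega)))
          (by rw [hjn]; exact hlt)
        refine F4' (by rw [hi]; exact hvi) ?_
        intro hkL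
        rw [hi]
        refine d3 (v (i + 1)) (v i) (hC2 _ (by omega)) (hC3 _ (by omega) (by omega)) (by rw [hjL]; exact hL)
          (hC2 _ (by omega)) hvi (hs _ _ (hE i (by omega)))
      · have hlt2 := hright hjL
        rcases hl.one (v (i + 1)) (v i) (v (i + 2)) (hs _ _ (hE i (by omega))) (hE (i + 1) (by omega))
          (by rw [hjn]; exact hlt) (by rw [hjn]; exact hlt2) with h | h
        · exact F1 i (by omega) h
        · exact F2 i (by omega) h
  -- left end
  have G : ∀ j, j < L → lev (v j) = n → lev (v (j + 1)) = n → (∀ i, j = i + 1 → lev (v i) < n) → j = k := by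
    intro j hj hjn hjn' hleft
    by_contra hjk
    obtain ⟨y, hy1, hy2, hy3⟩ := hl.two (v j) (v (j + 1)) (hE j hj) (by rw [hjn, hjn'])
    rcases Nat.eq_zero_or_pos j with hj0 | hjpos
    · subst hj0
      have hy : y ∈ C₁ := cvx_low hs hl h1 z1 h0 hy1 hy3
      rcases e12 (v 0) y (v 1) h0 (hC2 0 (by omega)) hy (hC2 1 (by omega)) hy1 (hE 0 hj) (hs _ _ hy2) with h | h
      · exact F3 0 (by omega) y hy3 (fun i hi => by omega) (fun _ => hs _ _ hy2) (fun _ => h) (fun h' => by omega)
          (fun _ => hy) (fun h' => by omega)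
      · exact F4 h (fun h' => by omega)
    · obtain ⟨i, rfl⟩ : ∃ i, j = i + 1 := ⟨j - 1, by omega⟩
      have hlt := hleft i rfl
      have hEi := hE i (by omega)
      rcases hl.one (v (i + 1)) y (v i) hy1 (hs _ _ hEi) hy3 (by rw [hjn]; exact hlt) with h | h
      · rw [h] at hy2
        exact F2 i (by omega) (hs _ _ hy2)
      · have hne : v i ≠ v (i + 2) := F1 i (by omega)
        refine F3 (i + 1) (by omega) y hy3 (fun i' hi' => ?_) (fun _ => hs _ _ hy2) (fun hk' => ?_) (fun hk' => ?_)
          (fun h' => by omega) (fun h' => by omega)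
        · have : i' = i := by omega
          rw [this]
          exact hs _ _ h
        · exact h2.link (v (i + 1)) (v i) (v (i + 2)) y (hC2 _ (by omega)) (hC2 _ (by omega)) (hC2 _ (by omega)) hne
            (hs _ _ hEi) (hE (i + 1) hj) hy1 h (hs _ _ hy2)
        · exact h3.link (v (i + 1)) (v i) (v (i + 2)) y (hC3 _ (by omega) (by omega)) (hC3 _ (by omega) (by omega))
            (hC3 _ (by omega) (by omega)) hne (hs _ _ hEi) (hE (i + 1) hj) hy1 h (hs _ _ hy2)
  -- right end
  have G' : ∀ i, i + 1 ≤ L → lev (v (i + 1)) = n → lev (v i) = n → (i + 1 < L → lev (v (i + 2)) < n) → i + 1 = k := by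
    intro i hj hjn hjn' hright
    by_contra hjk
    have hEi := hE i (by omega)
    obtain ⟨y, hy1, hy2, hy3⟩ := hl.two (v (i + 1)) (v i) (hs _ _ hEi) (by rw [hjn, hjn'])
    rcases Nat.eq_or_lt_of_le hj with hjL | hjL
    · have hvL : v (i + 1) ∈ C₄ := by rw [hjL]; exact hL
      have hi : L - 1 = i := by omega
      have hy : y ∈ C₄ := cvx_low hs hl h4 z4 hvL hy1 hy3
      rcases e34 (v (i + 1)) (v i) y (hC3 _ (by omega) (by omega)) hvL (hC3 i (by omega) (by omega)) hy (hs _ _ hEi)
        hy1 hy2 with h | h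
      · exact F4' (by rw [hi]; exact h) (fun h' => by omega)
      · exact F3 (i + 1) (by omega) y hy3 (fun i' hi' => by have : i' = i := by omega
                                                            rw [this]; exact hy2) (fun h' => by omega)
          (fun h' => by omega) (fun _ => h) (fun h' => by omega) (fun _ => hy)
    · have hlt := hright hjL
      rcases hl.one (v (i + 1)) y (v (i + 2)) hy1 (hE (i + 1) (by omega)) hy3 (by rw [hjn]; exact hlt) with h | h
      · rw [h] at hy2
        exact F2 i (by omega) hy2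
      · have hne : v i ≠ v (i + 2) := F1 i (by omega)
        refine F3 (i + 1) (by omega) y hy3 (fun i' hi' => ?_) (fun _ => h) (fun hk' => ?_) (fun hk' => ?_)
          (fun h' => by omega) (fun h' => by omega)
        · have : i' = i := by omega
          rw [this]
          exact hy2
        · exact h2.link (v (i + 1)) (v i) (v (i + 2)) y (hC2 _ (by omega)) (hC2 _ (by omega)) (hC2 _ (by omega)) hne
            (hs _ _ hEi) (hE (i + 1) hjL) hy1 (hs _ _ hy2) h
        · exact h3.link (v (i + 1)) (v i) (v (i + 2)) y (hC3 _ (by omega) (by omega)) (hC3 _ (by omega) (by omega))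
            (hC3 _ (by omega) (by omega)) hne (hs _ _ hEi) (hE (i + 1) hjL) hy1 (hs _ _ hy2) h
  -- first index
  have hexa : ∃ j, j ≤ L ∧ lev (v j) = n := ⟨j0, hj0', hn.symm⟩
  obtain ⟨hαL, hαn⟩ := Nat.find_spec hexa
  have hαmin : ∀ i, i < Nat.find hexa → ¬ (i ≤ L ∧ lev (v i) = n) := fun i hi => Nat.find_min hexa hi
  generalize Nat.find hexa = α at hαL hαn hαmin
  have hαleft : ∀ i, α = i + 1 → lev (v i) < n := by
    intro i hi
    have h := hαmin i (by omega)
    have h' := hle i (by omega)
    rcases Nat.lt_or_ge (lev (v i)) n with h'' | h''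
    · exact h''
    · exact absurd ⟨by omega, le_antisymm h' h''⟩ h
  have hαlt : α < L ∧ lev (v (α + 1)) = n := by
    by_contra hcon
    refine I α hαL hαn hαleft ?_
    intro h
    rcases Nat.lt_or_ge (lev (v (α + 1))) n with h' | h'
    · exact h'
    · exact absurd ⟨h, le_antisymm (hle _ (by omega)) h'⟩ hcon
  have hαk : α = k := G α hαlt.1 hαn hαlt.2 hαleft
  -- last index
  have hβspec : lev (v (Nat.findGreatest (fun j => lev (v j) = n) L)) = n :=
    Nat.findGreatest_spec (P := fun j => lev (v j) = n) hj0' hn.symm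
  have hβL : Nat.findGreatest (fun j => lev (v j) = n) L ≤ L := Nat.findGreatest_le L
  have hβge : α + 1 ≤ Nat.findGreatest (fun j => lev (v j) = n) L :=
    Nat.le_findGreatest (P := fun j => lev (v j) = n) (by omega) hαlt.2
  have hβmax : ∀ i, Nat.findGreatest (fun j => lev (v j) = n) L < i → i ≤ L → lev (v i) ≠ n :=
    fun i h1 h2 => Nat.findGreatest_is_greatest (P := fun j => lev (v j) = n) h1 h2
  generalize Nat.findGreatest (fun j => lev (v j) = n) L = β at hβspec hβL hβge hβmax
  obtain ⟨b, rfl⟩ : ∃ b, β = b + 1 := ⟨β - 1, by omega⟩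
  have hβright : b + 1 < L → lev (v (b + 1 + 1)) < n := by
    intro h
    exact lt_of_le_of_ne (hle _ (by omega)) (hβmax _ (by omega) (by omega))
  rcases Nat.lt_or_ge (lev (v b)) n with h | h
  · refine I (b + 1) hβL hβspec (fun i hi => ?_) hβright
    have : i = b := by omega
    rw [this]
    exact h
  · have := G' b hβL hβspec (le_antisymm (hle _ (by omega)) h) hβright
    omega

end Pool.Agent.H54.TF
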