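import Pool.Agent.H54.TF.Main
import Pool.Agent.H54.TF.Adp
import Pool.Agent.H65.LR.Stp

/-!
# [H54 TF UNI] The final assembly
-/

set_option autoImplicit false

namespace Pool.Agent.H54.TF

open CoxeterSystem Pool.H8.CDW Pool.Agent.H52.PAG Pool.Agent.H75.INF Pool.Agent.H34.TG Pool.Agent.H65.LR Pool.Agent.H98.FJ
  Pool.Agent.H54.CX
open Pool.Agent.H54.AR (rst rst_apply)

variable {C : (G : Type) → [Group G] → Prop}

/-- locally reducible sets -/
def LRed {B : Type} (M : CoxeterMatrix B) (T : Set B) : Prop := ∀ i ∈ T, ∀ j ∈ T, ∀ k ∈ T, i ≠ j → j ≠ k → i ≠ k →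
  (M i j = 2 ∧ M j k = 2) ∨ (M j k = 2 ∧ M i k = 2) ∨ (M i j = 2 ∧ M i k = 2) ∨
    (1 : ℝ) / M i j + 1 / M j k + 1 / M i k ≤ 1

theorem ne_of_three {B : Type} {M : CoxeterMatrix B} {b c : B} (h : 3 ≤ M b c) : b ≠ c := by
  intro e
  rw [e, M.diagonal] at h
  omega

theorem compl_diff {B : Type} (a b : B) : ({a}ᶜ \ {b} : Set B) = ({a, b}ᶜ : Set B) := by
  ext s
  simp only [Set.mem_sdiff, Set.mem_compl_iff, Set.mem_singleton_iff, Set.mem_insert_iff, not_or]

theorem uni_fin (hC : Inherits C) (hE : Extension C) (hcat : Cat2 C) (hGL : ∀ n : ℕ, C (GL (Fin n) ℤ)) (hS : SphG)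
    {B : Type} [Finite B] (M : CoxeterMatrix B) (hM : ∀ i j, M i j ≠ 0)
    (h : ∀ T : Set B, Irr M T → TFree M T → LRed M T ∨ (Finite (resM M T).Group ∧ C (Art (resM M T)))) (n : ℕ) :
    ∀ S : Set B, S.ncard = n → C (ap M S) := by
  classical
  have hG : ∀ T : Set B, ∀ b ∈ T, ∀ c ∈ T, 3 ≤ M b c → GS M T b c := by
    refine gs_all hM fun T hI hT b hb c hc hbc => ?_
    rcases h T hI hT with h1 | h1
    · exact gs_lr T (fun i _ j _ => hM i j) h1 hb hc hbc
    · exact gs_sph hS T h1.1 hb hc hbc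
  induction n using Nat.strong_induction_on with
  | _ n ih =>
    intro S hn
    have hJ : ∀ J : Set S, J ≠ Set.univ → C (ap (resM M S) J) := by
      intro J hJ
      refine ap_res M hC (ih (Subtype.val '' J).ncard ?_ _ rfl)
      rw [← hn]
      refine Set.ncard_lt_ncard (Set.ssubset_iff_subset_ne.2 ⟨?_, ?_⟩) (Set.toFinite S)
      · rintro _ ⟨x, _, rfl⟩
        exact x.2
      · intro he
        apply hJ
        rw [Set.eq_univ_iff_forall]
        intro x
        obtain ⟨y, hy, hyx⟩ : (x : B) ∈ Subtype.val '' J := by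
          rw [he]
          exact x.2
        rwa [Subtype.ext hyx] at hy
    refine ap_of_res M hC ?_
    refine irr_mem hC hE hGL S (resM M S) fun K _ hirr => ?_
    by_cases hK : (K : Set S) = Set.univ
    swap
    · obtain ⟨e⟩ := art_congr (resM (resM M S) (K : Set S)) (rst (resM M S) K) (Equiv.refl _) fun i j => rfl
      exact hC.iso _ _ e (res_of_ap (resM M S) hC (hJ _ hK))
    have hK' : ∀ x, x ∈ K := fun x => by
      have : x ∈ (K : Set S) := by rw [hK]; exact Set.mem_univ x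
      exact this
    obtain ⟨e⟩ := art_congr (rst (resM M S) K) (resM M S) ⟨fun x => x.1, fun x => ⟨x, hK' x⟩, fun _ => rfl, fun _ => rfl⟩
      fun i j => rfl
    refine hC.iso _ _ e.symm ?_
    have hI : Irr M S := by
      intro L hL hne hLS
      have : Fintype S := Fintype.ofFinite S
      obtain ⟨i, hi, j, _, hj, hij⟩ := hirr (Finset.univ.filter fun x : S => (x : B) ∈ L) (fun x _ => hK' x) (by
        obtain ⟨x, hx⟩ := hne
        exact ⟨⟨x, hL hx⟩, Finset.mem_filter.2 ⟨Finset.mem_univ _, hx⟩⟩) (by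
        intro h4
        apply hLS
        refine Set.Subset.antisymm hL fun x hx => ?_
        have h5 : (⟨x, hx⟩ : S) ∈ Finset.univ.filter fun x : S => (x : B) ∈ L := by rw [h4]; exact hK' _
        exact (Finset.mem_filter.1 h5).2)
      exact ⟨i, (Finset.mem_filter.1 hi).2, j, j.2, fun h => hj (Finset.mem_filter.2 ⟨Finset.mem_univ _, h⟩), hij⟩
    by_cases hT : TFree M S
    · rcases h S hI hT with h1 | h1
      · refine lr_fin hC hE hcat hGL step_g (step_f hC hE hcat hGL) _ S (resM M S) rfl (fun i j => hM i.1 j.1) ?_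
        intro i j k hij hjk hik
        exact h1 i.1 i.2 j.1 j.2 k.1 k.2 (fun e => hij (Subtype.ext e)) (fun e => hjk (Subtype.ext e))
          (fun e => hik (Subtype.ext e))
      · exact h1.2
    · unfold TFree at hT
      push Not at hT
      obtain ⟨p, hp, q, hq, r, hr, hpq, hqr, hpr⟩ := hT
      have gir : ∀ (a b c : S), a ≠ b → a ≠ c → 3 ≤ M b.1 c.1 →
          Gir (ap (resM M S) ({a, b}ᶜ : Set S)) (ap (resM M S) ({a, c}ᶜ : Set S)) 3 := by
        intro a b c hab hac hbc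
        rw [← compl_diff, ← compl_diff]
        refine gir_of_gs ?_
        rw [gs_res]
        exact hG (Subtype.val '' ({a}ᶜ : Set S)) b.1 ⟨b, fun h => hab (Eq.symm h), rfl⟩ c.1
          ⟨c, fun h => hac (Eq.symm h), rfl⟩ hbc
      have npq : (⟨p, hp⟩ : S) ≠ ⟨q, hq⟩ := fun e => ne_of_three hpq (congrArg Subtype.val e)
      have nqr : (⟨q, hq⟩ : S) ≠ ⟨r, hr⟩ := fun e => ne_of_three hqr (congrArg Subtype.val e)
      have npr : (⟨p, hp⟩ : S) ≠ ⟨r, hr⟩ := fun e => ne_of_three hpr (congrArg Subtype.val e)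
      exact step_f hC hE hcat hGL S (resM M S) ⟨p, hp⟩ ⟨q, hq⟩ ⟨r, hr⟩ 3 3 3 npq nqr npr (by norm_num) (by norm_num)
        (by norm_num) (by norm_num) (gir _ _ _ npq npr hqr) (gir _ _ _ npq.symm nqr hpr) (gir _ _ _ npr.symm nqr.symm hpq) hJ

/-- THEOREM UNI -/
theorem uni (hC : Inherits C) (hE : Extension C) (hcat : Cat2 C) (hGL : ∀ n : ℕ, C (GL (Fin n) ℤ)) (hS : SphG)
    (B : Type) (M : CoxeterMatrix B)
    (hM : ∀ K : Finset B, (∀ i ∈ K, ∀ j ∈ K, M i j ≠ 0) →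
      (∀ L ⊆ K, L.Nonempty → L ≠ K → ∃ i ∈ L, ∃ j ∈ K, j ∉ L ∧ M i j ≠ 2) →
      C (Art (rst M K)) ∨ ∀ T ⊆ K, (∀ L ⊆ T, L.Nonempty → L ≠ T → ∃ i ∈ L, ∃ j ∈ T, j ∉ L ∧ M i j ≠ 2) →
        (∀ i ∈ T, ∀ j ∈ T, ∀ k ∈ T, ¬ (3 ≤ M i j ∧ 3 ≤ M j k ∧ 3 ≤ M i k)) →
        (∀ i ∈ T, ∀ j ∈ T, ∀ k ∈ T, i ≠ j → j ≠ k → i ≠ k → (M i j = 2 ∧ M j k = 2) ∨ (M j k = 2 ∧ M i k = 2) ∨
          (M i j = 2 ∧ M i k = 2) ∨ (1 : ℝ) / M i j + 1 / M j k + 1 / M i k ≤ 1) ∨
        (Finite (rst M T).Group ∧ C (Art (rst M T)))) : C (Art M) := by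
  classical
  refine irr_mem hC hE hGL B M fun K hK hirr => ?_
  rcases hM K hK hirr with h | h
  · exact h
  have key : C (ap (rst M K) Set.univ) := by
    refine uni_fin hC hE hcat hGL hS (rst M K) (fun i j => hK i.1 i.2 j.1 j.2) ?_ _ _ rfl
    intro T hI hT
    -- the subset of `K`
    obtain ⟨T', hT'⟩ : ∃ T' : Finset B, ∀ x, x ∈ T' ↔ ∃ hx : x ∈ K, (⟨x, hx⟩ : K) ∈ T := by
      refine ⟨K.filter fun x => ∃ hx : x ∈ K, (⟨x, hx⟩ : K) ∈ T, fun x => ?_⟩
      rw [Finset.mem_filter]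
      exact ⟨fun h => h.2, fun h => ⟨h.1, h⟩⟩
    have hsub : T' ⊆ K := fun x hx => ((hT' x).1 hx).1
    have hmem : ∀ x : K, x ∈ T → (x : B) ∈ T' := fun x hx => (hT' x).2 ⟨x.2, hx⟩
    rcases h T' hsub (fun L hL hne hLT => by
      obtain ⟨i, hi, j, hj, hjL, hij⟩ := hI {x : K | (x : B) ∈ L} (fun x hx => by
          obtain ⟨hx1, hx2⟩ := (hT' x).1 (hL hx)
          exact hx2) (by
          obtain ⟨x, hx⟩ := hne
          exact ⟨⟨x, hsub (hL hx)⟩, hx⟩) (by
          intro h4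
          apply hLT
          refine Finset.Subset.antisymm hL fun x hx => ?_
          obtain ⟨hx1, hx2⟩ := (hT' x).1 hx
          rw [← h4] at hx2
          exact hx2)
      exact ⟨i.1, hi, j.1, hmem j hj, hjL, hij⟩) (fun i hi j hj k hk h3 => by
        obtain ⟨hi1, hi2⟩ := (hT' i).1 hi
        obtain ⟨hj1, hj2⟩ := (hT' j).1 hj
        obtain ⟨hk1, hk2⟩ := (hT' k).1 hk
        exact hT _ hi2 _ hj2 _ hk2 h3) with h1 | h1
    · left
      intro i hi j hj k hk hij hjk hik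
      exact h1 i.1 (hmem i hi) j.1 (hmem j hj) k.1 (hmem k hk) (fun e => hij (Subtype.ext e)) (fun e => hjk (Subtype.ext e))
        (fun e => hik (Subtype.ext e))
    · right
      obtain ⟨e, he⟩ : ∃ e : T' ≃ T, ∀ x, ((e x : K) : B) = x := by
        refine ⟨⟨fun x => ⟨⟨x.1, hsub x.2⟩, ((hT' x.1).1 x.2).2⟩, fun x => ⟨x.1.1, hmem x.1 x.2⟩, fun _ => rfl,
          fun _ => rfl⟩, fun _ => rfl⟩
      have hlab : ∀ i j, resM (rst M K) T (e i) (e j) = rst M T' i j := by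
        intro i j
        show M ((e i : K) : B) ((e j : K) : B) = M i.1 j.1
        rw [he, he]
      constructor
      · have h2 : (rst M T').reindex e = resM (rst M K) T := by
          ext i j
          rw [CoxeterMatrix.reindex_apply, ← hlab, e.apply_symm_apply, e.apply_symm_apply]
        rw [← h2]
        have := h1.1
        exact Finite.of_equiv _ ((rst M T').reindexGroupEquiv e).symm.toEquiv
      · obtain ⟨f⟩ := art_congr (rst M T') (resM (rst M K) T) e hlab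
        exact hC.iso _ _ f h1.2
  have h2 := res_of_ap (rst M K) hC key
  obtain ⟨f⟩ := art_congr (resM (rst M K) Set.univ) (rst M K) (Equiv.Set.univ _) fun i j => rfl
  exact hC.iso _ _ f h2

end Pool.Agent.H54.TF
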